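import Pool.Agent.Y990.CB.PartB

set_option autoImplicit false

open MeasureTheory Set Filter
open scoped Topology

/-!
Chemical distance at the critical point.
-/

namespace Pool.Agent.Y990.CB

open Pool.Agent.W783.PC (pm DepOn Inc)

noncomputable section

variable {d : ℕ}

/-- A walk of length at most `r` stays in the box of radius `r`. -/
lemma walk_in_box {M : Mod d} {ω : M.ι → Bool} {x y : Z d} (q : (G M ω univ).Walk x y) :
    ∀ (z : Z d) (r l : ℕ), x ∈ Bo z l → q.length + l ≤ r → (G M ω (Bo z r)).Reachable x y := by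
  induction q with
  | nil => exact fun _ _ _ _ _ => SimpleGraph.Reachable.refl _
  | cons h q ih =>
    rename_i a b c
    intro z r l hx hl
    rw [SimpleGraph.Walk.length_cons] at hl
    have hb : b ∈ Bo z (l + 1) := by
      intro i
      have h1 := Nb_coord h.1 i
      have h2 := hx i
      have h3 : |b i - z i| ≤ |b i - a i| + |a i - z i| := abs_sub_le _ _ _
      rw [abs_sub_comm (b i) (a i)] at h3
      push_cast
      linarith
    have h1 := ih z r (l + 1) hb (by omega)
    refine SimpleGraph.Reachable.trans (SimpleGraph.Adj.reachable ?_) h1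
    exact ⟨h.1, Bo_mono z (by omega) hx, Bo_mono z (by omega) hb, h.2.2.2⟩

/-- If `0` and `v` are connected, but not inside the box of radius `r`, their chemical distance
exceeds `r`. -/
lemma dist_gt {M : Mod d} {ω : M.ι → Bool} {v : Z d} {r : ℕ} (h1 : ω ∈ Cn M univ 0 v)
    (h2 : ω ∉ Cn M (Bo 0 r) 0 v) : r < (G M ω univ).dist 0 v := by
  by_contra hc
  push Not at hc
  obtain ⟨q, hq⟩ := SimpleGraph.Reachable.exists_walk_length_eq_dist h1
  exact h2 (walk_in_box q 0 r 0 (self_mem_Bo 0 0) (by omega))

/-- **The mean chemical distance at the critical point is superlinear.** -/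
theorem partD (hfkg : S_fkg) (hlln : S_lln) (harm : S_arm) (hd : 2 ≤ d) (M : Mod d)
    (hpc : 0 < pc M) (hA : ConA M) (hθ : 0 < th M (pc M)) (A : ℕ) : ∃ N0 : ℕ, ∀ v : Z d,
    N0 ≤ nm v → ((A * nm v : ℕ) : ENNReal) ≤
      ∫⁻ ω, ((G M ω univ).dist 0 v : ENNReal) ∂(mu M (pc M)) := by
  set p := pc M with hp
  set c : ℝ := th M p ^ 2 / (2 * 10 ^ 14) with hc
  have hc0 : 0 < c := by positivity
  -- divergence of the harmonic series
  obtain ⟨R0, hR0⟩ : ∃ R0 : ℕ, (A : ℝ) + 1 ≤ ∑ R ∈ Finset.range R0, c / ((R : ℝ) + 1) := by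
    have h1 := Real.tendsto_sum_range_one_div_nat_succ_atTop
    have h2 := h1.const_mul_atTop hc0
    obtain ⟨R0, hR0⟩ := (tendsto_atTop.1 h2 ((A : ℝ) + 1)).exists
    refine ⟨R0, hR0.trans (le_of_eq ?_)⟩
    rw [Finset.mul_sum]
    exact Finset.sum_congr rfl fun R _ => by ring
  have hR0pos : (0 : ℝ) < R0 + 1 := by positivity
  -- choice of N0
  have hex : ∀ R : ℕ, ∃ N0 : ℕ, ∀ v : Z d, N0 ≤ nm v →
      (mu M p).real (Cn M (Bo 0 ((R + 1) * nm v)) 0 v) ≤
        (1 - 1 / (2 * 10 ^ 14 * ((R + 1 : ℕ) : ℝ))) * th M p ^ 2 + 1 / (R0 + 1) := fun R =>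
    partB hlln harm hd M hA (R + 1) (by omega) (1 / (R0 + 1)) (by positivity)
  choose N1 hN1 using hex
  refine ⟨(Finset.range R0).sup N1, fun v hv => ?_⟩
  have hlow : ∀ R ∈ Finset.range R0, c / ((R : ℝ) + 1) - 1 / (R0 + 1) ≤
      (mu M p).real {ω | (R + 1) * nm v < (G M ω univ).dist 0 v} := by
    intro R hR
    have h1 := hN1 R v ((Finset.le_sup hR).trans hv)
    have h2 := hfkg d M p v hpc
    have h3 : (mu M p).real (Cn M univ 0 v) ≤
        (mu M p).real {ω | (R + 1) * nm v < (G M ω univ).dist 0 v} +
        (mu M p).real (Cn M (Bo 0 ((R + 1) * nm v)) 0 v) := by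
      refine (measureReal_mono ?_ (measure_ne_top _ _)).trans (measureReal_union_le _ _)
      intro ω hω
      by_cases h : ω ∈ Cn M (Bo 0 ((R + 1) * nm v)) 0 v
      · exact Or.inr h
      · exact Or.inl (dist_gt hω h)
    have e : (1 - 1 / (2 * 10 ^ 14 * ((R + 1 : ℕ) : ℝ))) * th M p ^ 2 =
        th M p ^ 2 - c / ((R : ℝ) + 1) := by
      rw [hc]
      push_cast
      field_simp
    rw [e] at h1
    linarith
  -- pointwise bound
  have hpt : ∀ ω, ((nm v : ℕ) : ENNReal) * ∑ R ∈ Finset.range R0,
      ({ω | (R + 1) * nm v < (G M ω univ).dist 0 v}.indicator (fun _ => (1 : ENNReal)) ω) ≤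
      ((G M ω univ).dist 0 v : ENNReal) := by
    intro ω
    set D := (G M ω univ).dist 0 v
    have h1 : ∑ R ∈ Finset.range R0,
        ({ω | (R + 1) * nm v < (G M ω univ).dist 0 v}.indicator (fun _ => (1 : ENNReal)) ω) =
        (((Finset.range R0).filter (fun R => (R + 1) * nm v < D)).card : ENNReal) := by
      classical
      rw [Finset.card_filter]
      push_cast
      refine Finset.sum_congr rfl fun R _ => ?_
      by_cases h : (R + 1) * nm v < D
      · rw [indicator_of_mem (show ω ∈ {ω | (R + 1) * nm v < (G M ω univ).dist 0 v} from h),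
          if_pos h]
      · rw [indicator_of_notMem (show ω ∉ {ω | (R + 1) * nm v < (G M ω univ).dist 0 v} from h),
          if_neg h]
    rw [h1]
    have h2 : nm v * ((Finset.range R0).filter (fun R => (R + 1) * nm v < D)).card ≤ D := by
      by_cases hz : ((Finset.range R0).filter (fun R => (R + 1) * nm v < D)) = ∅
      · rw [hz]; simp
      · obtain ⟨R, hR, hmax⟩ := Finset.exists_max_image
          ((Finset.range R0).filter (fun R => (R + 1) * nm v < D)) id
          (Finset.nonempty_iff_ne_empty.2 hz)
        have h3 : ((Finset.range R0).filter (fun R => (R + 1) * nm v < D)) ⊆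
            Finset.range (R + 1) := by
          intro x hx
          rw [Finset.mem_range]
          have := hmax x hx
          simp only [id] at this
          omega
        have h4 := Finset.card_le_card h3
        rw [Finset.card_range] at h4
        have h5 := (Finset.mem_filter.1 hR).2
        calc nm v * _ ≤ nm v * (R + 1) := Nat.mul_le_mul_left _ h4
          _ = (R + 1) * nm v := by ring
          _ ≤ D := h5.le
    exact_mod_cast h2
  have mD : ∀ R : ℕ, MeasurableSet {ω | (R + 1) * nm v < (G M ω univ).dist 0 v} := by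
    intro R
    have : {ω | (R + 1) * nm v < (G M ω univ).dist 0 v} =
        Cn M univ 0 v \ ⋃ k ∈ Finset.range ((R + 1) * nm v + 1),
          {ω | ∃ q : (G M ω univ).Walk 0 v, q.length = k} := by
      ext ω
      simp only [mem_ofPred_eq, mem_diff, mem_iUnion, Finset.mem_range, exists_prop, not_exists,
        not_and]
      constructor
      · intro h
        refine ⟨?_, ?_⟩
        · by_contra hc
          have := SimpleGraph.dist_eq_zero_of_not_reachable hc
          omega
        · intro k hk q hq
          have := SimpleGraph.dist_le q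
          omega
      · rintro ⟨h1, h2⟩
        obtain ⟨q, hq⟩ := SimpleGraph.Reachable.exists_walk_length_eq_dist h1
        by_contra hc
        exact h2 _ (by omega) q hq
    rw [this]
    refine (Cn_meas M univ 0 v).diff ?_
    exact Finset.measurableSet_biUnion _ fun k _ => meas_walk M univ k 0 v
  calc ((A * nm v : ℕ) : ENNReal) ≤ ((nm v : ℕ) : ENNReal) * ∑ R ∈ Finset.range R0,
        (mu M p) {ω | (R + 1) * nm v < (G M ω univ).dist 0 v} := by
        rw [mul_comm A, Nat.cast_mul]
        refine mul_le_mul_right ?_ _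
        have h1 : (A : ℝ) ≤ ∑ R ∈ Finset.range R0,
            (mu M p).real {ω | (R + 1) * nm v < (G M ω univ).dist 0 v} := by
          have h2 := Finset.sum_le_sum hlow
          rw [Finset.sum_sub_distrib, Finset.sum_const, Finset.card_range, nsmul_eq_mul] at h2
          have h3 : (R0 : ℝ) * (1 / (R0 + 1)) ≤ 1 := by
            rw [mul_one_div, div_le_one hR0pos]
            linarith
          linarith
        have h2 : ∑ R ∈ Finset.range R0, (mu M p) {ω | (R + 1) * nm v < (G M ω univ).dist 0 v} =
            ENNReal.ofReal (∑ R ∈ Finset.range R0,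
              (mu M p).real {ω | (R + 1) * nm v < (G M ω univ).dist 0 v}) := by
          rw [ENNReal.ofReal_sum_of_nonneg fun R _ => measureReal_nonneg]
          refine Finset.sum_congr rfl fun R _ => ?_
          rw [Measure.real, ENNReal.ofReal_toReal (measure_ne_top _ _)]
        rw [h2]
        rw [show ((A : ℕ) : ENNReal) = ENNReal.ofReal (A : ℝ) by simp]
        exact ENNReal.ofReal_le_ofReal h1
    _ = ∫⁻ ω, ((nm v : ℕ) : ENNReal) * ∑ R ∈ Finset.range R0,
      ({ω | (R + 1) * nm v < (G M ω univ).dist 0 v}.indicator (fun _ => (1 : ENNReal)) ω)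
        ∂(mu M p) := by
        rw [lintegral_const_mul _ (Finset.measurable_sum _ fun R _ =>
          measurable_const.indicator (mD R)), lintegral_finset_sum _ fun R _ =>
          measurable_const.indicator (mD R)]
        congr 1
        refine Finset.sum_congr rfl fun R _ => ?_
        rw [lintegral_indicator (mD R)]
        simp
    _ ≤ _ := lintegral_mono hpt

end

end Pool.Agent.Y990.CB
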