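import Pool.Agent.Y990.CB.PartC
import Pool.Agent.Y990.CB.PartD
import Pool.Agent.Y689.CB.Ibp
import Pool.Agent.Y689.CB.Box
import Pool.Agent.Y960.CB.Tel
import Pool.Agent.Y960.CB.Two
import Pool.Agent.Y210.CB.Expl
import Pool.Agent.Y504.CB.Rot
import Pool.Agent.Y508.CB.Lln
import Pool.Agent.Y809.CB.Zo
import Pool.Agent.Y68.CB990.Det

set_option autoImplicit false

open MeasureTheory Set Filter
open scoped Topology

/-!
Assembly for site and bond percolation.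
-/

namespace Pool.Agent.Y990.CB

open Pool.Agent.W783.PC (pm DepOn Inc)

noncomputable section

variable {d : ℕ}

theorem s_two : S_two :=
  Pool.Agent.Y960.CB.two (Pool.Agent.Y689.CB.box Pool.Agent.Y689.CB.ibp Pool.Agent.Y960.CB.tel
    Pool.Agent.Y960.CB.merge Pool.Agent.Y210.CB.expl Pool.Agent.Y210.CB.offs)

theorem conA (hd : 2 ≤ d) (M : Mod d) (hM : Nd M) : ConA M :=
  partA s_two Pool.Agent.Y68.CB990.det Pool.Agent.Y504.CB.rot hd M hM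

lemma nd_site : Nd (siteM d) := fun x y => ⟨x, Finset.mem_insert_self x {y}⟩

lemma nd_bond : Nd (bondM d) := fun x y => ⟨s(x, y), Finset.mem_singleton_self _⟩

lemma th_zero (M : Mod d) (hM : Nd M) : th M 0 = 0 := by
  have hsub : Perc M 0 ⊆ Lk M univ {0} {x | x ≠ (0 : Z d)} := by
    intro ω hω
    obtain ⟨y, hy, hy'⟩ := hω.exists_notMem_finset {0}
    exact ⟨0, rfl, y, by simpa using hy', hy⟩
  have h1 : (mu M 0).real (Lk M univ {0} {x | x ≠ (0 : Z d)}) = 0 :=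
    Lk_zero M hM _ _ _ (by
      rw [Set.disjoint_left]
      rintro x hx hx'
      exact hx' hx)
  exact le_antisymm (h1 ▸ measureReal_mono hsub (measure_ne_top _ _)) measureReal_nonneg

lemma pc_pos_of (M : Mod d) (hM : Nd M) (h : 0 < th M (pc M)) : 0 < pc M := by
  rcases eq_or_ne (pc M) 0 with h0 | h0
  · rw [h0, th_zero M hM] at h
    exact absurd h (lt_irrefl _)
  · exact lt_of_le_of_ne (pc M).2.1 (Ne.symm h0)

/-- Mutually disconnected boxes, many crossing clusters. -/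
theorem finK (hd : 2 ≤ d) (M : Mod d) (hM : Nd M) : ∃ C : ℝ, 1 ≤ C ∧
    ∀ (K R k N : ℕ) (x : Fin K → Z d), 1 ≤ R → C ^ (k + 1) * K ^ 2 * R ≤ √(N : ℝ) →
    (∀ i, nm (x i) ≤ N) → (∀ i j, i ≠ j → N ≤ K * nm (x i - x j)) →
    (1 / (2 * 10 ^ 14 * (K : ℝ) * R)) ^ (K.choose 2) ≤
      (mu M (pc M)).real (Dc M (R * N) k x) := partK M (conA hd M hM)

theorem finC (hd : 2 ≤ d) (M : Mod d) (hM : Nd M) (hθ : 0 < th M (pc M))
    (K R : ℕ) (hK : 1 ≤ K) (hR : 1 ≤ R) : ∃ N0 : ℕ, ∀ N : ℕ, N0 ≤ N →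
    (1 / (2 * 10 ^ 14 * (K : ℝ) * R)) ^ (K.choose 2) / 2 ≤
      (mu M (pc M)).real (Cr M N (R * N) K) :=
  partC2 Pool.Agent.Y809.CB.zo hd M (conA hd M hM) hθ K R hK hR

theorem finB (hd : 2 ≤ d) (M : Mod d) (hM : Nd M) (R : ℕ) (hR : 1 ≤ R) (ε : ℝ) (hε : 0 < ε) :
    ∃ N0 : ℕ, ∀ v : Z d, N0 ≤ nm v → (mu M (pc M)).real (Cn M (Bo 0 (R * nm v)) 0 v) ≤
      (1 - 1 / (2 * 10 ^ 14 * R)) * th M (pc M) ^ 2 + ε :=
  partB Pool.Agent.Y508.CB.lln Pool.Agent.Y504.CB.arm hd M (conA hd M hM) R hR ε hε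

theorem finD (hd : 2 ≤ d) (M : Mod d) (hM : Nd M) (hθ : 0 < th M (pc M)) (A : ℕ) :
    ∃ N0 : ℕ, ∀ v : Z d, N0 ≤ nm v → ((A * nm v : ℕ) : ENNReal) ≤
      ∫⁻ ω, ((G M ω univ).dist 0 v : ENNReal) ∂(mu M (pc M)) :=
  partD (Pool.Agent.Y809.CB.fkg s_two) Pool.Agent.Y508.CB.lln Pool.Agent.Y504.CB.arm hd M
    (pc_pos_of M hM hθ) (conA hd M hM) hθ A

end

end Pool.Agent.Y990.CB
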