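import Pool.Agent.Y990.CB.PartB
import Pool.Agent.W333.PC.Harris

set_option autoImplicit false

open MeasureTheory Set Filter
open scoped Topology

/-!
Many mutually disconnected boxes and many distinct crossing clusters at the critical point.
-/

namespace Pool.Agent.Y990.CB

open Pool.Agent.W783.PC (pm DepOn Inc)

noncomputable section

variable {d : ℕ}

/-- At least `K` distinct clusters of the box of radius `L` meet both the box of radius `N` and the
frame. -/
def Cr (M : Mod d) (N L K : ℕ) : Set (M.ι → Bool) :=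
  {ω | ∃ x : Fin K → Z d, (∀ i, x i ∈ Bo (0 : Z d) N ∧ Am M ω 0 L (x i)) ∧
    ∀ i j, i ≠ j → ¬ (G M ω (Bo 0 L)).Reachable (x i) (x j)}

/-- The boxes of radius `k` around the points `x i` are pairwise disconnected inside the box of
radius `L`. -/
def Dc (M : Mod d) (L k : ℕ) {K : ℕ} (x : Fin K → Z d) : Set (M.ι → Bool) :=
  {ω | ∀ i j, i ≠ j → ω ∉ Lk M (Bo 0 L) (Bo (x i) k) (Bo (x j) k)}

/-- Harris inequality for the complements of increasing events. -/
lemma harris_compl (M : Mod d) (p : unitInterval) {S : Set M.ι} (hS : S.Finite)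
    {A B : Set (M.ι → Bool)} (hA : DepOn A S) (hB : DepOn B S) (iA : Inc A) (iB : Inc B) :
    (mu M p).real Aᶜ * (mu M p).real Bᶜ ≤ (mu M p).real (Aᶜ ∩ Bᶜ) := by
  have hA' : DepOn A (hS.toFinset : Set M.ι) := by rwa [hS.coe_toFinset]
  have hB' : DepOn B (hS.toFinset : Set M.ι) := by rwa [hS.coe_toFinset]
  have mA : MeasurableSet A := Pool.Agent.W45.PC.s_depmeas _ _ _ hA'
  have mB : MeasurableSet B := Pool.Agent.W45.PC.s_depmeas _ _ _ hB'
  have h := Pool.Agent.W333.PC.s_harris M.ι (fun _ => p) hS.toFinset A B hA' hB' iA iB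
  have h' : (mu M p).real A * (mu M p).real B ≤ (mu M p).real (A ∩ B) := h
  rw [← Set.compl_union, probReal_compl_eq_one_sub mA, probReal_compl_eq_one_sub mB,
    probReal_compl_eq_one_sub (mA.union mB)]
  have h2 : (mu M p).real (A ∪ B) + (mu M p).real (A ∩ B) = (mu M p).real A + (mu M p).real B :=
    measureReal_union_add_inter mB
  nlinarith

/-- Harris inequality for finitely many complements of increasing events. -/
lemma harris_prod (M : Mod d) (p : unitInterval) {S : Set M.ι} (hS : S.Finite) {κ : Type}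
    (A : κ → Set (M.ι → Bool)) (hA : ∀ i, DepOn (A i) S) (iA : ∀ i, Inc (A i)) (q : ℝ)
    (hq : 0 ≤ q) (F : Finset κ) (hqA : ∀ i ∈ F, q ≤ (mu M p).real (A i)ᶜ) :
    q ^ F.card ≤ (mu M p).real (⋂ i ∈ F, (A i)ᶜ) := by
  classical
  induction F using Finset.induction_on with
  | empty => simp
  | insert i F hi ih =>
    rw [Finset.card_insert_of_notMem hi, pow_succ, Finset.set_biInter_insert]
    have e : (⋂ i ∈ F, (A i)ᶜ) = (⋃ i ∈ F, A i)ᶜ := by
      rw [Set.compl_iUnion₂]
    have dU : DepOn (⋃ i ∈ F, A i) S := by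
      intro ω ω' h
      simp only [mem_iUnion, exists_prop]
      constructor
      · rintro ⟨j, hj, h1⟩
        exact ⟨j, hj, (hA j ω ω' h).1 h1⟩
      · rintro ⟨j, hj, h1⟩
        exact ⟨j, hj, (hA j ω ω' h).2 h1⟩
    have iU : Inc (⋃ i ∈ F, A i) := by
      intro ω ω' h hω
      simp only [mem_iUnion, exists_prop] at hω ⊢
      obtain ⟨j, hj, h1⟩ := hω
      exact ⟨j, hj, iA j ω ω' h h1⟩
    have h := harris_compl M p hS (hA i) dU (iA i) iU
    rw [← e] at h
    calc q ^ F.card * q ≤ (mu M p).real (⋂ i ∈ F, (A i)ᶜ) * (mu M p).real (A i)ᶜ :=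
          mul_le_mul (ih fun j hj => hqA j (Finset.mem_insert_of_mem hj))
            (hqA i (Finset.mem_insert_self i F)) hq measureReal_nonneg
      _ = (mu M p).real (A i)ᶜ * (mu M p).real (⋂ i ∈ F, (A i)ᶜ) := mul_comm _ _
      _ ≤ _ := h

lemma Bo_shift_sub {w : Z d} {r r' N : ℕ} (hw : nm w ≤ N) (h : r + N ≤ r') :
    Bo (0 : Z d) r ⊆ Bo w r' := by
  have h0 : (0 : Z d) ∈ Bo w N := by
    intro i
    simp only [Pi.zero_apply, zero_sub, abs_neg]
    exact nm_le.1 hw i
  exact Bo_sub h0 h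

lemma card_pairs (K : ℕ) : ((Finset.univ : Finset (Fin K × Fin K)).filter
    (fun ij => ij.1 < ij.2)).card = K.choose 2 := by
  have h1 : ((Finset.univ : Finset (Fin K × Fin K)).filter (fun ij => ij.1 < ij.2)).card =
      ∑ j : Fin K, (Finset.Iio j).card := by
    rw [Finset.card_filter, Fintype.sum_prod_type_right]
    refine Finset.sum_congr rfl fun j _ => ?_
    rw [← Finset.card_filter]
    congr 1
    ext i
    simp
  rw [h1]
  simp only [Fin.card_Iio]
  rw [Fin.sum_univ_eq_sum_range (fun i => i) K, Finset.sum_range_id, Nat.choose_two_right]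

lemma Lk_comm (M : Mod d) (R A B : Set (Z d)) : Lk M R A B = Lk M R B A := by
  ext ω
  constructor
  · rintro ⟨x, hx, y, hy, h⟩
    exact ⟨y, hy, x, hx, h.symm⟩
  · rintro ⟨x, hx, y, hy, h⟩
    exact ⟨y, hy, x, hx, h.symm⟩

/-- **Mutually disconnected boxes at the critical point.** -/
theorem partK (M : Mod d) (hA : ConA M) : ∃ C : ℝ, 1 ≤ C ∧
    ∀ (K R k N : ℕ) (x : Fin K → Z d), 1 ≤ R → C ^ (k + 1) * K ^ 2 * R ≤ √(N : ℝ) →
    (∀ i, nm (x i) ≤ N) → (∀ i j, i ≠ j → N ≤ K * nm (x i - x j)) →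
    (1 / (2 * 10 ^ 14 * (K : ℝ) * R)) ^ (K.choose 2) ≤
      (mu M (pc M)).real (Dc M (R * N) k x) := by
  obtain ⟨C0, hC0, h0⟩ := hA
  refine ⟨2 * C0, by linarith, fun K R k N x hR hC hx hxx => ?_⟩
  set p := pc M with hp
  have hR1 : (1 : ℝ) ≤ R := by exact_mod_cast hR
  let A : Fin K × Fin K → Set (M.ι → Bool) := fun ij =>
    Lk M (Bo 0 (R * N)) (Bo (x ij.1) k) (Bo (x ij.2) k)
  set q : ℝ := 1 / (2 * 10 ^ 14 * (K : ℝ) * R) with hq
  have hq0 : 0 ≤ q := by positivity
  have hprob : ∀ ij ∈ (Finset.univ : Finset (Fin K × Fin K)).filter (fun ij => ij.1 < ij.2),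
      q ≤ (mu M p).real (A ij)ᶜ := by
    rintro ⟨i, j⟩ hij
    have hij' : i < j := (Finset.mem_filter.1 hij).2
    have hK : 1 ≤ K := by
      have := i.2
      omega
    have hK1 : (1 : ℝ) ≤ K := by exact_mod_cast hK
    rw [probReal_compl_eq_one_sub (Lk_meas M _ _ _)]
    set v : Z d := x j - x i with hv
    have hN : N ≤ K * nm v := hxx j i (ne_of_gt hij')
    have hreg : R * N + N ≤ ((R + 1) * K) * nm v := by nlinarith
    have hcond : C0 ^ (k + 1) * (((R + 1) * K : ℕ) : ℝ) ≤ √(nm v : ℝ) := by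
      have h1 : √(N : ℝ) ≤ K * √(nm v : ℝ) := by
        have h2 : (N : ℝ) ≤ K * nm v := by exact_mod_cast hN
        calc √(N : ℝ) ≤ √((K : ℝ) ^ 2 * nm v) := by
              apply Real.sqrt_le_sqrt
              have : (0 : ℝ) ≤ nm v := Nat.cast_nonneg _
              nlinarith
          _ = K * √(nm v : ℝ) := by
              rw [Real.sqrt_mul (by positivity), Real.sqrt_sq (by positivity)]
      have h3 : (2 * C0) ^ (k + 1) * K ^ 2 * R ≤ K * √(nm v : ℝ) := hC.trans h1
      have h4 : (2 * C0) ^ (k + 1) * K * R ≤ √(nm v : ℝ) := by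
        have h5 : K * ((2 * C0) ^ (k + 1) * K * R) ≤ K * √(nm v : ℝ) := by
          refine le_trans (le_of_eq ?_) h3
          ring
        exact le_of_mul_le_mul_left h5 (by linarith)
      have h6 : 2 * C0 ^ (k + 1) ≤ (2 * C0) ^ (k + 1) := by
        rw [mul_pow]
        apply mul_le_mul_of_nonneg_right _ (by positivity)
        rw [pow_succ]
        have : (1 : ℝ) ≤ 2 ^ k := one_le_pow₀ (by norm_num)
        linarith
      refine le_trans ?_ h4
      push_cast
      have h7 : 0 < C0 ^ (k + 1) := by positivity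
      calc C0 ^ (k + 1) * ((R + 1) * K) ≤ C0 ^ (k + 1) * ((2 * R) * K) := by
            apply mul_le_mul_of_nonneg_left _ h7.le
            nlinarith
        _ = (2 * C0 ^ (k + 1)) * K * R := by ring
        _ ≤ (2 * C0) ^ (k + 1) * K * R := by
            apply mul_le_mul_of_nonneg_right _ (by linarith)
            exact mul_le_mul_of_nonneg_right h6 (by linarith)
    have h1 := h0 v k ((R + 1) * K) (by nlinarith) hcond
    have h2 : (mu M p).real (A (i, j)) ≤
        (mu M p).real (Lk M (Bo (x i) (((R + 1) * K) * nm v)) (Bo (x i) k) (Bo (x j) k)) :=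
      measureReal_mono (Lk_mono M (Bo_shift_sub (hx i) hreg)) (measure_ne_top _ _)
    have h3 := Lk_shift M p 0 (x i) v (((R + 1) * K) * nm v) k k
    have e1 : v + x i = x j := by rw [hv, sub_add_cancel]
    rw [zero_add, e1] at h3
    rw [h3] at h2
    have h4 : q ≤ 1 / (10 ^ 14 * (((R + 1) * K : ℕ) : ℝ)) := by
      rw [hq]
      push_cast
      apply one_div_le_one_div_of_le (by positivity)
      nlinarith
    show q ≤ 1 - (mu M p).real (A (i, j))
    linarith
  have hfin : (In M (Bo (0 : Z d) (R * N))).Finite := In_fin M (Bo_finite 0 (R * N))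
  have hH := harris_prod M p hfin A (fun ij => Lk_dep M _ _ _) (fun ij => Lk_inc M _ _ _) q hq0
    _ hprob
  rw [card_pairs] at hH
  refine hH.trans (measureReal_mono ?_ (measure_ne_top _ _))
  intro ω hω i j hij hL
  rw [Set.mem_iInter₂] at hω
  rcases lt_or_gt_of_ne hij with h | h
  · exact hω (i, j) (Finset.mem_filter.2 ⟨Finset.mem_univ _, h⟩) hL
  · rw [Lk_comm] at hL
    exact hω (j, i) (Finset.mem_filter.2 ⟨Finset.mem_univ _, h⟩) hL

/-- **Many distinct crossing clusters at the critical point.** -/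
theorem partC2 (hzo : S_zo) (hd : 2 ≤ d) (M : Mod d) (hA : ConA M) (hθ : 0 < th M (pc M))
    (K R : ℕ) (hK : 1 ≤ K) (hR : 1 ≤ R) : ∃ N0 : ℕ, ∀ N : ℕ, N0 ≤ N →
    (1 / (2 * 10 ^ 14 * (K : ℝ) * R)) ^ (K.choose 2) / 2 ≤
      (mu M (pc M)).real (Cr M N (R * N) K) := by
  set p := pc M with hp
  have hR1 : (1 : ℝ) ≤ R := by exact_mod_cast hR
  have hK1 : (1 : ℝ) ≤ K := by exact_mod_cast hK
  set q : ℝ := 1 / (2 * 10 ^ 14 * (K : ℝ) * R) with hq
  have hq0 : 0 < q := by positivity
  obtain ⟨k, hk⟩ := hzo d M p (by omega) hθ (q ^ (K.choose 2) / (2 * K)) (by positivity)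
  obtain ⟨C, hC, hN1⟩ := partK M hA
  obtain ⟨N1, hN1'⟩ := sqrt_large (C ^ (k + 1) * K ^ 2 * R)
  refine ⟨N1 + 2 * K * (k + K + 1), fun N hN => ?_⟩
  have hNN : 2 * K * (k + K + 1) ≤ N := by omega
  have hkN : 2 * k + 2 * K + 2 ≤ N := by nlinarith
  set s : ℕ := N / K + 1 with hs
  have hs1 : N ≤ K * s := by
    have := Nat.lt_mul_div_succ N (show 0 < K by omega)
    rw [hs]
    exact this.le
  have hs2 : K * s ≤ N + K := by
    rw [hs, mul_add, mul_one]
    have := Nat.mul_div_le N K
    omega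
  -- positions
  let i0 : Fin d := ⟨0, by omega⟩
  let X : Fin K → Z d := fun a i => if i = i0 then (a : ℤ) * s - (N - k : ℕ) else 0
  have hXsub : ∀ a b : Fin K, nm (X a - X b) = ((a : ℤ) - b).natAbs * s := by
    intro a b
    apply le_antisymm
    · rw [nm_le]
      intro i
      by_cases h : i = i0
      · have : (X a - X b) i = ((a : ℤ) - b) * s := by
          simp only [X, Pi.sub_apply, if_pos h]; ring
        rw [this, abs_mul, Nat.abs_cast]
        push_cast
        exact le_rfl
      · have : (X a - X b) i = 0 := by simp only [X, Pi.sub_apply, if_neg h]; ring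
        rw [this, abs_zero]
        positivity
    · have h1 := abs_le_nm (X a - X b) i0
      have h2 : (X a - X b) i0 = ((a : ℤ) - b) * s := by
        simp only [X, Pi.sub_apply, if_true]; ring
      rw [h2, abs_mul, Nat.abs_cast] at h1
      have h3 : ((((a : ℤ) - b).natAbs * s : ℕ) : ℤ) = |(a : ℤ) - b| * s := by push_cast; rfl
      have : ((((a : ℤ) - b).natAbs * s : ℕ) : ℤ) ≤ nm (X a - X b) := by rw [h3]; exact h1
      exact_mod_cast this
  have hXN : ∀ a, nm (X a) ≤ N - k := by
    intro a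
    rw [nm_le]
    intro i
    by_cases h : i = i0
    · have h1 : X a i = (a : ℤ) * s - (N - k : ℕ) := by simp only [X, if_pos h]
      have h2 : ((a : ℕ) : ℤ) * s ≤ 2 * ((N - k : ℕ) : ℤ) := by
        have h3 : (a : ℕ) * s ≤ K * s := Nat.mul_le_mul_right _ (by omega)
        have h4 : (a : ℕ) * s ≤ 2 * (N - k) := by omega
        exact_mod_cast h4
      have h5 : (0 : ℤ) ≤ ((a : ℕ) : ℤ) * s := by positivity
      rw [h1, abs_le]
      constructor <;> linarith
    · have h1 : X a i = 0 := by simp only [X, if_neg h]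
      rw [h1, abs_zero]
      positivity
  have hmain := hN1 K R k N X hR (hN1' N (by omega)) (fun i => (hXN i).trans (Nat.sub_le _ _))
    (fun i j hij => by
      rw [hXsub]
      have h1 : 1 ≤ ((i : ℤ) - j).natAbs := by
        have : (i : ℕ) ≠ j := fun h => hij (Fin.ext h)
        omega
      calc N ≤ K * s := hs1
        _ ≤ K * (((i : ℤ) - j).natAbs * s) := by
            apply Nat.mul_le_mul_left
            nlinarith)
  set W : Set (M.ι → Bool) := Dc M (R * N) k X with hW
  let U : Fin K → Set (M.ι → Bool) := fun i => {ω | ∃ x ∈ Bo (X i) k, ω ∈ Perc M x}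
  have hU : ∀ i, (mu M p).real (U i)ᶜ ≤ q ^ (K.choose 2) / (2 * K) := by
    intro i
    rw [probReal_compl_eq_one_sub (meas_ex M (X i) k)]
    have : (mu M p).real (U i) = (mu M p).real {ω | ∃ x ∈ Bo (0 : Z d) k, ω ∈ Perc M x} :=
      ex_shift M p (X i) k
    rw [this]
    linarith
  have hsub : W ⊆ Cr M N (R * N) K ∪ ⋃ i ∈ (Finset.univ : Finset (Fin K)), (U i)ᶜ := by
    intro ω hω
    by_cases h : ∀ i, ω ∈ U i
    · left
      choose x hx hx' using h
      have hRN : N ≤ R * N := by nlinarith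
      have hxN : ∀ i, x i ∈ Bo (0 : Z d) N := by
        intro i
        refine Bo_sub (D := N - k) (L := k) ?_ (by omega) (hx i)
        intro l
        simp only [Pi.zero_apply, sub_zero]
        exact (abs_le_nm (X i) l).trans (by exact_mod_cast hXN i)
      refine ⟨x, fun i => ⟨hxN i, Am_of_Perc (Bo_mono 0 hRN (hxN i)) (hx' i)⟩, ?_⟩
      intro i j hij hr
      exact hω i j hij ⟨x i, hx i, x j, hx j, hr⟩
    · right
      push Not at h
      obtain ⟨i, hi⟩ := h
      simp only [mem_iUnion]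
      exact ⟨i, Finset.mem_univ i, hi⟩
  have h1 : (mu M p).real W ≤ (mu M p).real (Cr M N (R * N) K) + q ^ (K.choose 2) / 2 := by
    refine (measureReal_mono hsub (measure_ne_top _ _)).trans ((measureReal_union_le _ _).trans ?_)
    refine add_le_add le_rfl ((measureReal_biUnion_finset_le _ _).trans ?_)
    refine (Finset.sum_le_sum fun i _ => hU i).trans ?_
    rw [Finset.sum_const, Finset.card_univ, Fintype.card_fin, nsmul_eq_mul]
    apply le_of_eq
    field_simp
  have h2 : q ^ K.choose 2 ≤ (mu M p).real W := hmain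
  linarith

end

end Pool.Agent.Y990.CB
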