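import Pool.Agent.Y990.CB.Stm
import Pool.Agent.W45.PC.PT1
import Pool.Agent.W400.PC.PT

set_option autoImplicit false

open MeasureTheory Set

/-!
Basic facts on the open graphs: dependence, measurability, monotonicity, symmetries, exit lemma.
-/

namespace Pool.Agent.Y990.CB

open Pool.Agent.W783.PC (pm DepOn Inc)

noncomputable section

variable {d : ℕ}

/-! ### Boxes -/

lemma mem_Bf {z x : Z d} {L : ℕ} : x ∈ Bf z L ↔ x ∈ Bo z L := by
  unfold Bf Bo
  rw [Fintype.mem_piFinset]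
  simp only [Finset.mem_Icc, mem_ofPred_eq, abs_le]
  constructor
  · intro h i
    obtain ⟨h1, h2⟩ := h i
    constructor <;> linarith
  · intro h i
    obtain ⟨h1, h2⟩ := h i
    constructor <;> linarith

lemma coe_Bf (z : Z d) (L : ℕ) : (Bf z L : Set (Z d)) = Bo z L := by
  ext x
  rw [Finset.mem_coe, mem_Bf]

lemma Bo_finite (z : Z d) (L : ℕ) : (Bo z L).Finite := by
  rw [← coe_Bf]
  exact Finset.finite_toSet _

lemma card_Bf (z : Z d) (L : ℕ) : (Bf z L).card = (2 * L + 1) ^ d := by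
  unfold Bf
  rw [Fintype.card_piFinset]
  have : ∀ i : Fin d, (Finset.Icc (z i - L) (z i + L)).card = 2 * L + 1 := by
    intro i
    rw [Int.card_Icc]
    omega
  simp [this]

lemma self_mem_Bo (z : Z d) (L : ℕ) : z ∈ Bo z L := by
  intro i
  simp

lemma Bo_mono (z : Z d) {L L' : ℕ} (h : L ≤ L') : Bo z L ⊆ Bo z L' := by
  intro x hx i
  have := hx i
  have h' : (L : ℤ) ≤ L' := by exact_mod_cast h
  linarith

lemma Bo_sub {z w : Z d} {L L' D : ℕ} (h : w ∈ Bo z D) (hL : L + D ≤ L') : Bo w L ⊆ Bo z L' := by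
  intro x hx i
  have h1 := abs_le.1 (hx i)
  have h2 := abs_le.1 (h i)
  have h' : (L : ℤ) + D ≤ L' := by exact_mod_cast hL
  rw [abs_le]
  constructor <;> linarith [h1.1, h1.2, h2.1, h2.2]

lemma mem_Bo_comm {z w : Z d} {L : ℕ} : w ∈ Bo z L ↔ z ∈ Bo w L := by
  unfold Bo
  simp only [mem_ofPred_eq]
  constructor
  · intro h i
    rw [abs_sub_comm]; exact h i
  · intro h i
    rw [abs_sub_comm]; exact h i

lemma mem_Bo_add {z x w : Z d} {L : ℕ} : x + w ∈ Bo (z + w) L ↔ x ∈ Bo z L := by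
  unfold Bo
  simp only [mem_ofPred_eq, Pi.add_apply, add_sub_add_right_eq_sub]

lemma nm_le {v : Z d} {n : ℕ} : nm v ≤ n ↔ ∀ i, |v i| ≤ n := by
  unfold nm
  rw [Finset.sup_le_iff]
  constructor
  · intro h i
    have := h i (Finset.mem_univ i)
    rw [← Int.natCast_natAbs]
    exact_mod_cast this
  · intro h i _
    have := h i
    rw [← Int.natCast_natAbs] at this
    exact_mod_cast this

lemma abs_le_nm (v : Z d) (i : Fin d) : |v i| ≤ nm v := nm_le.1 le_rfl i

lemma exists_nm (hd : 1 ≤ d) (v : Z d) : ∃ i, |v i| = nm v := by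
  have : Nonempty (Fin d) := ⟨⟨0, hd⟩⟩
  obtain ⟨i, _, hi⟩ := Finset.exists_mem_eq_sup (Finset.univ : Finset (Fin d))
    Finset.univ_nonempty (fun i => (v i).natAbs)
  refine ⟨i, ?_⟩
  unfold nm
  rw [hi, Int.natCast_natAbs]

lemma mem_Bo_nm (z v : Z d) : z + v ∈ Bo z (nm v) := by
  intro i
  simp only [Pi.add_apply, add_sub_cancel_left]
  exact abs_le_nm v i

/-! ### Nearest neighbours -/

lemma Nb_comm {x y : Z d} : Nb x y ↔ Nb y x := by
  unfold Nb
  have : ∀ i, |x i - y i| = |y i - x i| := fun i => abs_sub_comm _ _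
  simp only [this]

lemma Nb_coord {x y : Z d} (h : Nb x y) (i : Fin d) : |x i - y i| ≤ 1 := by
  unfold Nb at h
  rw [← h]
  exact Finset.single_le_sum (f := fun i => |x i - y i|) (fun j _ => abs_nonneg _)
    (Finset.mem_univ i)

lemma Nb_ne {x y : Z d} (h : Nb x y) : x ≠ y := by
  rintro rfl
  unfold Nb at h
  simp at h

lemma Nb_add {x y w : Z d} : Nb (x + w) (y + w) ↔ Nb x y := by
  unfold Nb
  simp only [Pi.add_apply, add_sub_add_right_eq_sub]

lemma Nb_sf (w : Z d) (x y : Z d) : Nb (sf w x) (sf w y) ↔ Nb x y := Nb_add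

/-! ### Monotonicity and dependence -/

lemma G_mono (M : Mod d) {ω ω' : M.ι → Bool} {R R' : Set (Z d)} (h : ∀ c, ω c = true → ω' c = true)
    (hR : R ⊆ R') : G M ω R ≤ G M ω' R' := by
  intro x y ⟨h1, h2, h3, h4⟩
  exact ⟨h1, hR h2, hR h3, fun c hc => h c (h4 c hc)⟩

lemma reach_mono {M : Mod d} {ω : M.ι → Bool} {R R' : Set (Z d)} (hR : R ⊆ R') {x y : Z d}
    (h : (G M ω R).Reachable x y) : (G M ω R').Reachable x y :=
  h.mono (G_mono M (fun _ hc => hc) hR)

lemma mem_of_reach {M : Mod d} {ω : M.ι → Bool} {R : Set (Z d)} {x y : Z d}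
    (h : (G M ω R).Reachable x y) (hxy : x ≠ y) : x ∈ R ∧ y ∈ R := by
  obtain ⟨p⟩ := h
  cases p with
  | nil => exact absurd rfl hxy
  | cons h q =>
    refine ⟨h.2.1, ?_⟩
    have key : ∀ (a b : Z d), (G M ω R).Walk a b → a ∈ R → b ∈ R := by
      intro a b q
      induction q with
      | nil => exact id
      | cons h q ih => exact fun _ => ih h.2.2.1
    exact key _ _ q h.2.2.1

lemma cl_subset {M : Mod d} {ω : M.ι → Bool} {R : Set (Z d)} {x : Z d} (hx : x ∈ R) :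
    cl M ω R x ⊆ R := by
  intro y hy
  by_cases h : x = y
  · exact h ▸ hx
  · exact (mem_of_reach hy h).2

lemma cl_mono {M : Mod d} {ω ω' : M.ι → Bool} {R R' : Set (Z d)}
    (h : ∀ c, ω c = true → ω' c = true) (hR : R ⊆ R') (x : Z d) : cl M ω R x ⊆ cl M ω' R' x :=
  fun _ hy => SimpleGraph.Reachable.mono (G_mono M h hR) hy

lemma cl_eq {M : Mod d} {ω : M.ι → Bool} {R : Set (Z d)} {x y : Z d} (h : y ∈ cl M ω R x) :
    cl M ω R y = cl M ω R x := by
  ext z
  exact ⟨fun hz => SimpleGraph.Reachable.trans h hz,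
    fun hz => SimpleGraph.Reachable.trans (SimpleGraph.Reachable.symm h) hz⟩

lemma graph_congr {M : Mod d} {ω ω' : M.ι → Bool} {R : Set (Z d)}
    (h : ∀ c ∈ In M R, ω c = ω' c) : G M ω R = G M ω' R := by
  have key : ∀ (ω ω' : M.ι → Bool), (∀ c ∈ In M R, ω c = ω' c) → ∀ x y : Z d,
      (G M ω R).Adj x y → (G M ω' R).Adj x y := by
    intro ω ω' h x y ⟨h1, h2, h3, h4⟩
    refine ⟨h1, h2, h3, fun c hc => ?_⟩
    rw [← h c ⟨x, h2, y, h3, h1, hc⟩]
    exact h4 c hc
  ext x y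
  exact ⟨key ω ω' h x y, key ω' ω (fun c hc => (h c hc).symm) x y⟩

theorem Cn_dep (M : Mod d) (R : Set (Z d)) (x y : Z d) : DepOn (Cn M R x y) (In M R) := by
  intro ω ω' h
  show (G M ω R).Reachable x y ↔ (G M ω' R).Reachable x y
  rw [graph_congr h]

theorem Lk_dep (M : Mod d) (R A B : Set (Z d)) : DepOn (Lk M R A B) (In M R) := by
  intro ω ω' h
  show (∃ x ∈ A, ∃ y ∈ B, (G M ω R).Reachable x y) ↔ (∃ x ∈ A, ∃ y ∈ B, (G M ω' R).Reachable x y)
  rw [graph_congr h]

theorem Ta_dep (M : Mod d) (z : Z d) (k L : ℕ) : DepOn (Ta M z k L) (In M (Bo z L)) := by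
  intro ω ω' h
  show (∃ x ∈ Bo z k, ∃ y ∈ Bo z k, Am M ω z L x ∧ Am M ω z L y ∧
    ¬ (G M ω (Bo z L)).Reachable x y) ↔ (∃ x ∈ Bo z k, ∃ y ∈ Bo z k, Am M ω' z L x ∧
    Am M ω' z L y ∧ ¬ (G M ω' (Bo z L)).Reachable x y)
  unfold Am
  rw [graph_congr h]

theorem Am_dep (M : Mod d) (z : Z d) (L : ℕ) (x : Z d) :
    DepOn {ω | Am M ω z L x} (In M (Bo z L)) := by
  intro ω ω' h
  show Am M ω z L x ↔ Am M ω' z L x
  unfold Am
  rw [graph_congr h]

theorem In_mono (M : Mod d) {R R' : Set (Z d)} (h : R ⊆ R') : In M R ⊆ In M R' := by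
  rintro c ⟨x, hx, y, hy, h1, h2⟩
  exact ⟨x, h hx, y, h hy, h1, h2⟩

theorem dep_mono {ι : Type} {A : Set (ι → Bool)} {S T : Set ι} (h : DepOn A S) (hST : S ⊆ T) :
    DepOn A T := fun ω ω' h' => h ω ω' fun c hc => h' c (hST hc)

theorem In_fin (M : Mod d) {R : Set (Z d)} (h : R.Finite) : (In M R).Finite := by
  have : In M R ⊆ ⋃ q ∈ R ×ˢ R, ((M.nd q.1 q.2 : Finset M.ι) : Set M.ι) := by
    rintro c ⟨x, hx, y, hy, _, h2⟩
    simp only [mem_iUnion]
    exact ⟨(x, y), ⟨hx, hy⟩, h2⟩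
  exact ((h.prod h).biUnion fun q _ => Finset.finite_toSet _).subset this

theorem In_disj (M : Mod d) {R R' : Set (Z d)} (h : Disjoint R R') :
    Disjoint (In M R) (In M R') := by
  rw [Set.disjoint_left]
  rintro c ⟨x, hx, y, hy, _, h2⟩ ⟨x', hx', y', hy', _, h2'⟩
  rw [Set.disjoint_left] at h
  rcases M.loc x y x' y' c h2 h2' with rfl | rfl | rfl | rfl
  · exact h hx hx'
  · exact h hy hx'
  · exact h hx hy'
  · exact h hy hy'

/-! ### Measurability -/

lemma meas_adj (M : Mod d) (R : Set (Z d)) (x y : Z d) :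
    MeasurableSet {ω : M.ι → Bool | (G M ω R).Adj x y} := by
  by_cases h : Nb x y ∧ x ∈ R ∧ y ∈ R
  · have : {ω : M.ι → Bool | (G M ω R).Adj x y} = ⋂ c ∈ M.nd x y, {ω | ω c = true} := by
      ext ω
      simp only [mem_ofPred_eq, mem_iInter]
      exact ⟨fun h' => h'.2.2.2, fun h' => ⟨h.1, h.2.1, h.2.2, h'⟩⟩
    rw [this]
    refine Finset.measurableSet_biInter _ fun c _ => ?_
    have h' : MeasurableSet ((fun f : M.ι → Bool => f c) ⁻¹' {true}) :=
      measurable_pi_apply c (measurableSet_singleton true)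
    exact h'
  · have : {ω : M.ι → Bool | (G M ω R).Adj x y} = ∅ := by
      ext ω
      simp only [mem_ofPred_eq, mem_empty_iff_false, iff_false]
      exact fun h' => h ⟨h'.1, h'.2.1, h'.2.2.1⟩
    rw [this]
    exact MeasurableSet.empty

lemma meas_walk (M : Mod d) (R : Set (Z d)) (k : ℕ) : ∀ x y : Z d,
    MeasurableSet {ω : M.ι → Bool | ∃ p : (G M ω R).Walk x y, p.length = k} := by
  induction k with
  | zero =>
    intro x y
    by_cases h : x = y
    · subst h
      have : {ω : M.ι → Bool | ∃ p : (G M ω R).Walk x x, p.length = 0} = univ := by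
        ext ω
        simp only [mem_ofPred_eq, mem_univ, iff_true]
        exact ⟨SimpleGraph.Walk.nil, rfl⟩
      rw [this]
      exact MeasurableSet.univ
    · have : {ω : M.ι → Bool | ∃ p : (G M ω R).Walk x y, p.length = 0} = ∅ := by
        ext ω
        simp only [mem_ofPred_eq, mem_empty_iff_false, iff_false]
        rintro ⟨p, hp⟩
        exact h (SimpleGraph.Walk.eq_of_length_eq_zero hp)
      rw [this]
      exact MeasurableSet.empty
  | succ k ih =>
    intro x y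
    have : {ω : M.ι → Bool | ∃ p : (G M ω R).Walk x y, p.length = k + 1} =
        ⋃ z : Z d, {ω | (G M ω R).Adj x z} ∩ {ω | ∃ p : (G M ω R).Walk z y, p.length = k} := by
      ext ω
      simp only [mem_ofPred_eq, mem_iUnion, mem_inter_iff]
      constructor
      · rintro ⟨p, hp⟩
        cases p with
        | nil => simp at hp
        | cons h q =>
          refine ⟨_, h, q, ?_⟩
          simpa using hp
      · rintro ⟨z, h, q, hq⟩
        refine ⟨SimpleGraph.Walk.cons h q, ?_⟩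
        simp [hq]
    rw [this]
    exact MeasurableSet.iUnion fun z => (meas_adj M R x z).inter (ih z y)

theorem Cn_meas (M : Mod d) (R : Set (Z d)) (x y : Z d) : MeasurableSet (Cn M R x y) := by
  have : Cn M R x y = ⋃ k : ℕ, {ω | ∃ p : (G M ω R).Walk x y, p.length = k} := by
    ext ω
    simp only [Cn, mem_ofPred_eq, mem_iUnion]
    constructor
    · rintro ⟨p⟩
      exact ⟨p.length, p, rfl⟩
    · rintro ⟨k, p, -⟩
      exact ⟨p⟩
  rw [this]
  exact MeasurableSet.iUnion fun k => meas_walk M R k x y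

theorem Lk_meas (M : Mod d) (R A B : Set (Z d)) : MeasurableSet (Lk M R A B) := by
  have : Lk M R A B = ⋃ x : Z d, ⋃ (_ : x ∈ A), ⋃ y : Z d, ⋃ (_ : y ∈ B), Cn M R x y := by
    ext ω
    simp only [Lk, Cn, mem_ofPred_eq, mem_iUnion, exists_prop]
  rw [this]
  exact MeasurableSet.iUnion fun x => MeasurableSet.iUnion fun _ => MeasurableSet.iUnion fun y =>
    MeasurableSet.iUnion fun _ => Cn_meas M R x y

theorem Am_meas (M : Mod d) (z : Z d) (L : ℕ) (x : Z d) : MeasurableSet {ω | Am M ω z L x} := by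
  have : {ω | Am M ω z L x} = ⋃ x' : Z d, ⋃ (_ : x' ∈ Fr z L), Cn M (Bo z L) x x' := by
    ext ω
    simp only [Am, Cn, mem_ofPred_eq, mem_iUnion, exists_prop]
  rw [this]
  exact MeasurableSet.iUnion fun x => MeasurableSet.iUnion fun _ => Cn_meas M _ _ _

theorem Ta_meas (M : Mod d) (z : Z d) (k L : ℕ) : MeasurableSet (Ta M z k L) := by
  have : Ta M z k L = ⋃ x : Z d, ⋃ (_ : x ∈ Bo z k), ⋃ y : Z d, ⋃ (_ : y ∈ Bo z k),
      ({ω | Am M ω z L x} ∩ {ω | Am M ω z L y}) ∩ (Cn M (Bo z L) x y)ᶜ := by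
    ext ω
    simp only [Ta, Cn, mem_ofPred_eq, mem_iUnion, exists_prop, mem_inter_iff, mem_compl_iff,
      and_assoc]
  rw [this]
  exact MeasurableSet.iUnion fun x => MeasurableSet.iUnion fun _ => MeasurableSet.iUnion fun y =>
    MeasurableSet.iUnion fun _ => ((Am_meas M z L x).inter (Am_meas M z L y)).inter
      (Cn_meas M _ _ _).compl

theorem Perc_meas (M : Mod d) (x : Z d) : MeasurableSet (Perc M x) := by
  have : Perc M x = ⋂ k : ℕ, ⋃ T : Finset (Z d), ⋃ (_ : k ≤ T.card), ⋂ y ∈ T,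
      Cn M univ x y := by
    ext ω
    simp only [mem_iInter, mem_iUnion]
    constructor
    · intro h k
      obtain ⟨T, hT, hc⟩ := Set.Infinite.exists_subset_card_eq h k
      exact ⟨T, hc.ge, fun y hy => hT hy⟩
    · intro h hfin
      obtain ⟨T, hc, hT⟩ := h ((cl M ω univ x).ncard + 1)
      have hsub : (T : Set (Z d)) ⊆ cl M ω univ x := fun y hy => hT y hy
      have := Set.ncard_le_ncard hsub hfin
      rw [Set.ncard_coe_finset] at this
      omega
  rw [this]
  refine MeasurableSet.iInter fun k => MeasurableSet.iUnion fun T => MeasurableSet.iUnion fun _ =>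
    Finset.measurableSet_biInter T fun y _ => Cn_meas M univ x y

theorem Cn_inc (M : Mod d) (R : Set (Z d)) (x y : Z d) : Inc (Cn M R x y) :=
  fun _ _ h hω => SimpleGraph.Reachable.mono (G_mono M h (Subset.refl R)) hω

theorem Lk_inc (M : Mod d) (R A B : Set (Z d)) : Inc (Lk M R A B) := by
  rintro ω ω' h ⟨x, hx, y, hy, h1⟩
  exact ⟨x, hx, y, hy, Cn_inc M R x y ω ω' h h1⟩

theorem Am_inc (M : Mod d) (z : Z d) (L : ℕ) (x : Z d) : Inc {ω | Am M ω z L x} := by
  rintro ω ω' h ⟨x', hx, h1⟩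
  exact ⟨x', hx, Cn_inc M _ x x' ω ω' h h1⟩

theorem Perc_inc (M : Mod d) (x : Z d) : Inc (Perc M x) :=
  fun _ _ h hω => Set.Infinite.mono (cl_mono h (Subset.refl _) x) hω

/-! ### Symmetries -/

lemma adj_sym (M : Mod d) (σ : Z d ≃ Z d) (hσ : ∀ x y, Nb (σ x) (σ y) ↔ Nb x y)
    (ω : M.ι → Bool) (R : Set (Z d)) (x y : Z d) :
    (G M (fun c => ω (M.tr σ c)) R).Adj x y ↔ (G M ω (σ '' R)).Adj (σ x) (σ y) := by
  constructor
  · rintro ⟨h1, h2, h3, h4⟩
    refine ⟨(hσ x y).2 h1, ⟨x, h2, rfl⟩, ⟨y, h3, rfl⟩, fun c hc => ?_⟩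
    have h5 : (M.tr σ).symm c ∈ M.nd x y := by
      rw [← M.nd_tr σ, Equiv.apply_symm_apply]
      exact hc
    have h6 : ω (M.tr σ ((M.tr σ).symm c)) = true := h4 _ h5
    rwa [Equiv.apply_symm_apply] at h6
  · rintro ⟨h1, ⟨x', h2, h2'⟩, ⟨y', h3, h3'⟩, h4⟩
    have e1 := σ.injective h2'
    have e2 := σ.injective h3'
    subst e1 e2
    exact ⟨(hσ _ _).1 h1, h2, h3, fun c hc => h4 _ ((M.nd_tr σ _ _ c).2 hc)⟩

/-- The open graph is equivariant under the symmetries of the lattice. -/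
theorem reach_sym (M : Mod d) (σ : Z d ≃ Z d) (hσ : ∀ x y, Nb (σ x) (σ y) ↔ Nb x y)
    (ω : M.ι → Bool) (R : Set (Z d)) (x y : Z d) :
    (G M (fun c => ω (M.tr σ c)) R).Reachable x y ↔
      (G M ω (σ '' R)).Reachable (σ x) (σ y) := by
  let e : G M (fun c => ω (M.tr σ c)) R ≃g G M ω (σ '' R) :=
    ⟨σ, fun {a b} => (adj_sym M σ hσ ω R a b).symm⟩
  exact (SimpleGraph.Iso.reachable_iff (φ := e)).symm

/-- The percolation measure is invariant under all bijections of the vertices. -/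
theorem mu_inv (M : Mod d) (p : unitInterval) (σ : Z d ≃ Z d) {A : Set (M.ι → Bool)}
    (hA : MeasurableSet A) : mu M p {ω | (fun c => ω (M.tr σ c)) ∈ A} = mu M p A := by
  have := Pool.Agent.W400.PC.s_equiv M.ι (fun _ => p) (M.tr σ) A hA
  exact this.symm

theorem mu_inv_real (M : Mod d) (p : unitInterval) (σ : Z d ≃ Z d) {A : Set (M.ι → Bool)}
    (hA : MeasurableSet A) :
    (mu M p).real {ω | (fun c => ω (M.tr σ c)) ∈ A} = (mu M p).real A := by
  rw [Measure.real, mu_inv M p σ hA, Measure.real]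

lemma sf_image_Bo (z w : Z d) (L : ℕ) : sf w '' Bo z L = Bo (z + w) L := by
  ext x
  constructor
  · rintro ⟨y, hy, rfl⟩
    exact mem_Bo_add.2 hy
  · intro hx
    refine ⟨x - w, ?_, sub_add_cancel x w⟩
    have : x - w + w ∈ Bo (z + w) L := by rwa [sub_add_cancel]
    exact mem_Bo_add.1 this

/-- Connections in translated regions. -/
theorem Cn_shift (M : Mod d) (p : unitInterval) (w : Z d) (R : Set (Z d)) (x y : Z d) :
    (mu M p).real (Cn M (sf w '' R) (x + w) (y + w)) = (mu M p).real (Cn M R x y) := by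
  rw [← mu_inv_real M p (sf w) (Cn_meas M R x y)]
  congr 1
  ext ω
  exact (reach_sym M (sf w) (Nb_sf w) ω R x y).symm

theorem Lk_shift (M : Mod d) (p : unitInterval) (z w u : Z d) (ρ k l : ℕ) :
    (mu M p).real (Lk M (Bo (z + w) ρ) (Bo (z + w) k) (Bo (u + w) l)) =
      (mu M p).real (Lk M (Bo z ρ) (Bo z k) (Bo u l)) := by
  rw [← mu_inv_real M p (sf w) (Lk_meas M (Bo z ρ) (Bo z k) (Bo u l))]
  congr 1
  ext ω
  constructor
  · rintro ⟨x, hx, y, hy, h⟩
    rw [← sf_image_Bo] at hx hy h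
    obtain ⟨x, hx, rfl⟩ := hx
    obtain ⟨y, hy, rfl⟩ := hy
    exact ⟨x, hx, y, hy, (reach_sym M (sf w) (Nb_sf w) ω _ x y).2 h⟩
  · rintro ⟨x, hx, y, hy, h⟩
    refine ⟨sf w x, mem_Bo_add.2 hx, sf w y, mem_Bo_add.2 hy, ?_⟩
    rw [← sf_image_Bo]
    exact (reach_sym M (sf w) (Nb_sf w) ω _ x y).1 h

lemma sf_Fr {z w x : Z d} {L : ℕ} : sf w x ∈ Fr (z + w) L ↔ x ∈ Fr z L := by
  unfold Fr
  show (x + w ∈ Bo (z + w) L ∧ _) ↔ _
  rw [mem_Bo_add]
  have : ∀ i, (sf w x) i - (z + w) i = x i - z i := by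
    intro i
    show x i + w i - (z i + w i) = _
    ring
  simp only [this, mem_ofPred_eq]

lemma Am_sym (M : Mod d) (ω : M.ι → Bool) (z w x : Z d) (L : ℕ) :
    Am M (fun c => ω (M.tr (sf w) c)) z L x ↔ Am M ω (z + w) L (x + w) := by
  constructor
  · rintro ⟨x', hx', h⟩
    refine ⟨sf w x', sf_Fr.2 hx', ?_⟩
    rw [← sf_image_Bo]
    exact (reach_sym M (sf w) (Nb_sf w) ω _ x x').1 h
  · rintro ⟨x', hx', h⟩
    have e : sf w (x' - w) = x' := sub_add_cancel x' w
    refine ⟨x' - w, ?_, ?_⟩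
    · rw [← e] at hx'
      exact sf_Fr.1 hx'
    · rw [reach_sym M (sf w) (Nb_sf w) ω, sf_image_Bo, e]
      exact h

theorem Am_shift (M : Mod d) (p : unitInterval) (z w x : Z d) (L : ℕ) :
    (mu M p).real {ω | Am M ω (z + w) L (x + w)} = (mu M p).real {ω | Am M ω z L x} := by
  rw [← mu_inv_real M p (sf w) (Am_meas M z L x)]
  congr 1
  ext ω
  exact (Am_sym M ω z w x L).symm

theorem Ta_shift (M : Mod d) (p : unitInterval) (z w : Z d) (k L : ℕ) :
    (mu M p).real (Ta M (z + w) k L) = (mu M p).real (Ta M z k L) := by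
  rw [← mu_inv_real M p (sf w) (Ta_meas M z k L)]
  congr 1
  ext ω
  constructor
  · rintro ⟨x, hx, y, hy, h1, h2, h3⟩
    have ex : x - w + w = x := sub_add_cancel x w
    have ey : y - w + w = y := sub_add_cancel y w
    refine ⟨x - w, ?_, y - w, ?_, ?_, ?_, ?_⟩
    · rw [← ex] at hx; exact mem_Bo_add.1 hx
    · rw [← ey] at hy; exact mem_Bo_add.1 hy
    · rw [Am_sym, ex]; exact h1
    · rw [Am_sym, ey]; exact h2
    · intro h
      rw [reach_sym M (sf w) (Nb_sf w) ω, sf_image_Bo] at h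
      apply h3
      have e1 : sf w (x - w) = x := ex
      have e2 : sf w (y - w) = y := ey
      rwa [e1, e2] at h
  · rintro ⟨x, hx, y, hy, h1, h2, h3⟩
    refine ⟨x + w, mem_Bo_add.2 hx, y + w, mem_Bo_add.2 hy, (Am_sym M ω z w x L).1 h1,
      (Am_sym M ω z w y L).1 h2, ?_⟩
    intro h
    apply h3
    rw [reach_sym M (sf w) (Nb_sf w) ω, sf_image_Bo]
    exact h

/-! ### Exit lemma -/

/-- A path leaving the box meets the frame before. -/
theorem exit_box {M : Mod d} {ω : M.ι → Bool} {R : Set (Z d)} {z x y : Z d} {L : ℕ}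
    (hx : x ∈ Bo z L) (hy : y ∉ Bo z L) (h : (G M ω R).Reachable x y) :
    ∃ x' ∈ Fr z L, (G M ω (R ∩ Bo z L)).Reachable x x' := by
  obtain ⟨p⟩ := h
  induction p with
  | nil => exact absurd hx hy
  | cons h q ih =>
    rename_i a b c
    by_cases hb : b ∈ Bo z L
    · obtain ⟨x', h1, h2⟩ := ih hb hy
      refine ⟨x', h1, SimpleGraph.Reachable.trans (SimpleGraph.Adj.reachable ?_) h2⟩
      exact ⟨h.1, ⟨h.2.1, hx⟩, ⟨h.2.2.1, hb⟩, h.2.2.2⟩
    · refine ⟨a, ⟨hx, ?_⟩, SimpleGraph.Reachable.refl _⟩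
      have hb' : ∃ i, (L : ℤ) < |b i - z i| := by
        by_contra hc
        push Not at hc
        exact hb hc
      obtain ⟨i, hi⟩ := hb'
      refine ⟨i, le_antisymm (hx i) ?_⟩
      have h1 := Nb_coord h.1 i
      have h2 : |b i - z i| ≤ |a i - b i| + |a i - z i| := by
        have := abs_sub_le (b i) (a i) (z i)
        rwa [abs_sub_comm (b i) (a i)] at this
      omega

/-- A path from a vertex of the box to a vertex outside or on the frame. -/
theorem exit_Am {M : Mod d} {ω : M.ι → Bool} {R : Set (Z d)} {z x y : Z d} {L : ℕ}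
    (hx : x ∈ Bo z L) (hy : y ∉ Bo z L ∨ y ∈ Fr z L) (h : (G M ω R).Reachable x y) :
    Am M ω z L x := by
  by_cases hb : y ∈ Bo z L
  · have hf : y ∈ Fr z L := by
      rcases hy with hy | hy
      · exact absurd hb hy
      · exact hy
    -- either the path stays inside or it leaves
    obtain ⟨p⟩ := h
    induction p with
    | nil => exact ⟨_, hf, SimpleGraph.Reachable.refl _⟩
    | cons h q ih =>
      rename_i a b c
      by_cases hbb : b ∈ Bo z L
      · obtain ⟨x', h1, h2⟩ := ih hbb hy hb hf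
        exact ⟨x', h1, SimpleGraph.Reachable.trans
          (SimpleGraph.Adj.reachable ⟨h.1, hx, hbb, h.2.2.2⟩) h2⟩
      · obtain ⟨x', h1, h2⟩ := exit_box hx hbb (SimpleGraph.Adj.reachable h)
        exact ⟨x', h1, reach_mono Set.inter_subset_right h2⟩
  · obtain ⟨x', h1, h2⟩ := exit_box hx hb h
    exact ⟨x', h1, reach_mono Set.inter_subset_right h2⟩

end

end Pool.Agent.Y990.CB
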