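import Pool.Agent.W783.Perc.Stmts
import Pool.Agent.W424.PC.Russo
import Pool.Agent.Y990.PL.SecMom

set_option autoImplicit false

open MeasureTheory Set

/-!
Nearest-neighbour percolation on `Z^d` (project CB of helper990): definitions.
-/

namespace Pool.Agent.Y990.CB

open Pool.Agent.W783.PC (pm DepOn Inc)

noncomputable section

/-- Vertices of `Z^d`. -/
abbrev Z (d : ℕ) : Type := Fin d → ℤ

/-- Nearest neighbours. -/
def Nb {d : ℕ} (x y : Z d) : Prop := ∑ i, |x i - y i| = 1

/-- The box with centre `z` and radius `L`. -/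
def Bo {d : ℕ} (z : Z d) (L : ℕ) : Set (Z d) := {x | ∀ i, |x i - z i| ≤ L}

/-- The box as a finite set. -/
def Bf {d : ℕ} (z : Z d) (L : ℕ) : Finset (Z d) :=
  Fintype.piFinset (fun i => Finset.Icc (z i - L) (z i + L))

/-- The frame of the box: the vertices at distance exactly `L` from the centre. -/
def Fr {d : ℕ} (z : Z d) (L : ℕ) : Set (Z d) := {x | x ∈ Bo z L ∧ ∃ i, |x i - z i| = L}

/-- Sup norm. -/
def nm {d : ℕ} (v : Z d) : ℕ := Finset.univ.sup (fun i => (v i).natAbs)

/-- A percolation model on `Z^d`: `nd x y` is the set of the coordinates which have to be open in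
order that the edge `xy` can be used. -/
structure Mod (d : ℕ) where
  ι : Type
  nd : Z d → Z d → Finset ι
  symm : ∀ x y, nd x y = nd y x
  card : ∀ x y, (nd x y).card ≤ 2
  tr : (Z d ≃ Z d) → (ι ≃ ι)
  nd_tr : ∀ (σ : Z d ≃ Z d) (x y : Z d) (c : ι), tr σ c ∈ nd (σ x) (σ y) ↔ c ∈ nd x y
  loc : ∀ (x y x' y' : Z d) (c : ι), c ∈ nd x y → c ∈ nd x' y' →
    x' = x ∨ x' = y ∨ y' = x ∨ y' = y

variable {d : ℕ}

/-- The open graph in the region `R`. -/
def G (M : Mod d) (ω : M.ι → Bool) (R : Set (Z d)) : SimpleGraph (Z d) where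
  Adj x y := Nb x y ∧ x ∈ R ∧ y ∈ R ∧ ∀ c ∈ M.nd x y, ω c = true
  symm := ⟨fun x y ⟨h1, h2, h3, h4⟩ => ⟨by
    unfold Nb at h1 ⊢
    rw [← h1]
    exact Finset.sum_congr rfl (fun i _ => abs_sub_comm _ _), h3, h2, by rwa [M.symm]⟩⟩
  loopless := ⟨fun x h => by
    have h1 := h.1
    unfold Nb at h1
    simp at h1⟩

/-- The cluster of `x` in the region `R`. -/
def cl (M : Mod d) (ω : M.ι → Bool) (R : Set (Z d)) (x : Z d) : Set (Z d) :=
  {y | (G M ω R).Reachable x y}

/-- Connection of `x` and `y` inside `R`. -/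
def Cn (M : Mod d) (R : Set (Z d)) (x y : Z d) : Set (M.ι → Bool) :=
  {ω | (G M ω R).Reachable x y}

/-- Connection of the sets `A` and `B` inside `R`. -/
def Lk (M : Mod d) (R A B : Set (Z d)) : Set (M.ι → Bool) :=
  {ω | ∃ x ∈ A, ∃ y ∈ B, (G M ω R).Reachable x y}

/-- The cluster of `x` is infinite. -/
def Perc (M : Mod d) (x : Z d) : Set (M.ι → Bool) := {ω | (cl M ω univ x).Infinite}

/-- `x` is connected inside the box of radius `L` around `z` to the frame of this box. -/
def Am (M : Mod d) (ω : M.ι → Bool) (z : Z d) (L : ℕ) (x : Z d) : Prop :=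
  ∃ x' ∈ Fr z L, (G M ω (Bo z L)).Reachable x x'

/-- Two distinct clusters of the box of radius `L` around `z` meet both the box of radius `k` and
the frame. -/
def Ta (M : Mod d) (z : Z d) (k L : ℕ) : Set (M.ι → Bool) :=
  {ω | ∃ x ∈ Bo z k, ∃ y ∈ Bo z k, Am M ω z L x ∧ Am M ω z L y ∧
    ¬ (G M ω (Bo z L)).Reachable x y}

/-- The coordinates inside the region `R`. -/
def In (M : Mod d) (R : Set (Z d)) : Set M.ι :=
  {c | ∃ x ∈ R, ∃ y ∈ R, Nb x y ∧ c ∈ M.nd x y}

/-- The percolation measure. -/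
def mu (M : Mod d) (p : unitInterval) : Measure (M.ι → Bool) := pm (fun _ : M.ι => p)

instance (M : Mod d) (p : unitInterval) : IsProbabilityMeasure (mu M p) := by
  unfold mu; infer_instance

/-- The percolation probability. -/
def th (M : Mod d) (p : unitInterval) : ℝ := (mu M p).real (Perc M 0)

/-- The coordinate `c` touches the set `X`. -/
def tc (M : Mod d) (c : M.ι) (X : Set (Z d)) : Prop := ∃ x ∈ X, ∃ y, Nb x y ∧ c ∈ M.nd x y

/-- Translation by `z`. -/
def sf (z : Z d) : Z d ≃ Z d := Equiv.addRight z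

/-- Site percolation: the coordinates are the vertices. -/
def siteM (d : ℕ) : Mod d where
  ι := Z d
  nd x y := {x, y}
  symm x y := Finset.pair_comm x y
  card x y := Finset.card_le_two
  tr σ := σ
  nd_tr σ x y c := by
    simp only [Finset.mem_insert, Finset.mem_singleton, EmbeddingLike.apply_eq_iff_eq]
  loc x y x' y' c h h' := by
    simp only [Finset.mem_insert, Finset.mem_singleton] at h h'
    rcases h with rfl | rfl <;> rcases h' with h' | h' <;> simp [h']

/-- Bond percolation: the coordinates are the unordered pairs. -/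
def bondM (d : ℕ) : Mod d where
  ι := Sym2 (Z d)
  nd x y := {s(x, y)}
  symm x y := by rw [Sym2.eq_swap]
  card x y := by simp
  tr σ := ⟨Sym2.map σ, Sym2.map σ.symm, fun e => by
    rw [Sym2.map_map]; simp, fun e => by
    rw [Sym2.map_map]; simp⟩
  nd_tr σ x y c := by
    simp only [Finset.mem_singleton]
    show Sym2.map σ c = s(σ x, σ y) ↔ c = s(x, y)
    rw [← Sym2.map_mk]
    exact (Sym2.map.injective σ.injective).eq_iff
  loc x y x' y' c h h' := by
    simp only [Finset.mem_singleton] at h h'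
    rw [h, Sym2.eq_iff] at h'
    rcases h' with ⟨h1, _⟩ | ⟨_, h2⟩
    · exact Or.inl h1.symm
    · exact Or.inr (Or.inl h2.symm)

end

end Pool.Agent.Y990.CB
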