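import Pool.Agent.Y990.CB.Fin
import Pool.Agent.Y333.CB.Sim
import Pool.Agent.Y232.CB.Tau
import Pool.Agent.Y448.CB2.Ctc
import Pool.Agent.Y290.CB.Box2
import Pool.Agent.Y815.CB.Two2

set_option autoImplicit false

open MeasureTheory Set Filter
open scoped Topology

/-!
Boxes of polynomial size at the critical point.
-/

namespace Pool.Agent.Y990.CB

open Pool.Agent.W783.PC (pm DepOn Inc)

noncomputable section

variable {d : ℕ}

theorem s_box2 : S_box2 := Pool.Agent.Y290.CB.box2 Pool.Agent.Y448.CB2.ctc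

theorem s_tau : S_tau := Pool.Agent.Y232.CB.tau Pool.Agent.Y333.CB.phi Pool.Agent.Y333.CB.pc_pos

/-- Local uniqueness at the critical point for boxes of polynomial size. -/
theorem s_two2 : S_two2 := Pool.Agent.Y815.CB.two2 s_box2 s_tau

/-- Connections of boxes of polynomial size leave large boxes. -/
def ConP (M : Mod d) : Prop := ∃ C : ℝ, 1 ≤ C ∧ ∀ (v : Z d) (k R : ℕ), 1 ≤ R →
  C * ((k : ℝ) + 1) ^ (2 * d ^ 2 + 3 * d) * R ≤ √(nm v) →
  (mu M (pc M)).real (Lk M (Bo 0 (R * nm v)) (Bo 0 k) (Bo v k)) ≤ 1 - 1 / (10 ^ 14 * R)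

theorem conP (hd : 2 ≤ d) (M : Mod d) (hM : Nd M) (hQ : Qm M) : ConP M := by
  have hpc : 0 < pc M := Pool.Agent.Y333.CB.pc_pos d M hM
  obtain ⟨C0, hC0, h2⟩ := s_two2 d M (by omega) hM hQ
  set e := 2 * d ^ 2 + 3 * d with he
  have he1 : 1 ≤ e := by omega
  refine ⟨10 ^ 14 * C0, by nlinarith, fun v k R hR hC => ?_⟩
  set N := nm v with hN
  have hk1 : (1 : ℝ) ≤ (k : ℝ) + 1 := by
    have : (0 : ℝ) ≤ k := Nat.cast_nonneg _
    linarith
  have hke : (k : ℝ) + 1 ≤ ((k : ℝ) + 1) ^ e := le_self_pow₀ hk1 (by omega)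
  have hR1 : (1 : ℝ) ≤ R := by exact_mod_cast hR
  set T : ℝ := C0 * ((k : ℝ) + 1) ^ e with hT
  have hTk : (k : ℝ) + 1 ≤ T := by nlinarith
  have hC' : 10 ^ 14 * T * R ≤ √(N : ℝ) := by
    refine le_trans (le_of_eq ?_) hC
    rw [hT]
    ring
  -- the size of N
  have hbig : 10 ^ 14 * ((k : ℝ) + 1) ≤ √(N : ℝ) := by
    refine le_trans ?_ hC'
    nlinarith
  have hNk : (8 * ((k : ℝ) + 1)) ≤ N := by
    have h7 : (0 : ℝ) ≤ √(N : ℝ) := Real.sqrt_nonneg _
    have h8 : √(N : ℝ) * √(N : ℝ) = N := Real.mul_self_sqrt (Nat.cast_nonneg _)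
    have h9 : (1 : ℝ) ≤ √(N : ℝ) := by linarith
    nlinarith
  have hNk' : 8 * (k + 1) ≤ N := by exact_mod_cast hNk
  set L := N / 2 with hL
  have hkL : k ≤ L := by omega
  have hkN : k + L < N := by omega
  by_contra hcon
  push Not at hcon
  obtain ⟨i, hi⟩ := exists_nm (by omega) v
  obtain ⟨j, hj⟩ : ∃ j : Fin d, i ≠ j := by
    have : Nontrivial (Fin d) := Fin.nontrivial_iff_two_le.2 hd
    obtain ⟨j, hj⟩ := exists_ne i
    exact ⟨j, hj.symm⟩
  obtain ⟨v', e1, e2, e3, e4⟩ := Pool.Agent.Y504.CB.rot d v i j hj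
  have hτ := h2 0 k L (by omega)
  have hr := rob Pool.Agent.Y68.CB990.det d M (pc M) v v' i j N k L R (1 / (10 ^ 14 * R))
    (T / √(L : ℝ)) hj rfl e1 hi e2 e3 hR hkL hkN hcon.le (by rw [e4]; exact hcon.le) hτ ?_
  · obtain ⟨δ, hδ, h⟩ := hr
    exact pc_not_open M hpc δ hδ h
  · -- numerical estimate
    have hRpos : (0 : ℝ) < R := by linarith
    have hTpos : 0 < T := by linarith
    have g1 : 6 * (R : ℝ) * (1 / (10 ^ 14 * R)) = 6 / 10 ^ 14 := by field_simp
    have hsL : √(N : ℝ) / 2 ≤ √(L : ℝ) := by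
      have g2 : (N : ℝ) / 4 ≤ L := by
        have : N ≤ 4 * L := by omega
        have : (N : ℝ) ≤ 4 * L := by exact_mod_cast this
        linarith
      calc √(N : ℝ) / 2 = √((N : ℝ) / 4) := by
            rw [Real.sqrt_div (Nat.cast_nonneg _), show (4 : ℝ) = 2 ^ 2 by norm_num,
              Real.sqrt_sq (by norm_num)]
        _ ≤ √(L : ℝ) := Real.sqrt_le_sqrt g2
    have g4 : 0 < √(L : ℝ) := by
      have : 0 < 10 ^ 14 * T * R := by positivity
      linarith
    have g5 : T / √(L : ℝ) ≤ 2 / (10 ^ 14 * R) := by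
      rw [div_le_div_iff₀ g4 (by positivity)]
      nlinarith
    have g6 : (6 * (R : ℝ) + 2) * (T / √(L : ℝ)) ≤ 16 / 10 ^ 14 := by
      calc (6 * (R : ℝ) + 2) * (T / √(L : ℝ))
          ≤ (6 * (R : ℝ) + 2) * (2 / (10 ^ 14 * R)) :=
            mul_le_mul_of_nonneg_left g5 (by positivity)
        _ ≤ (8 * (R : ℝ)) * (2 / (10 ^ 14 * R)) := by
            apply mul_le_mul_of_nonneg_right _ (by positivity)
            linarith
        _ = 16 / 10 ^ 14 := by field_simp; norm_num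
    rw [g1]
    have : (6 : ℝ) / 10 ^ 14 + 16 / 10 ^ 14 ≤ 1 / 10 ^ 12 / 2 := by norm_num
    linarith

/-- **Mutually disconnected boxes of polynomial size at the critical point.** -/
theorem polyK (hd : 2 ≤ d) (M : Mod d) (hM : Nd M) (hQ : Qm M) : ∃ C : ℝ, 1 ≤ C ∧
    ∀ (K R k N : ℕ) (x : Fin K → Z d), 1 ≤ R →
    C * ((k : ℝ) + 1) ^ (2 * d ^ 2 + 3 * d) * K ^ 2 * R ≤ √(N : ℝ) →
    (∀ i, nm (x i) ≤ N) → (∀ i j, i ≠ j → N ≤ K * nm (x i - x j)) →
    (1 / (2 * 10 ^ 14 * (K : ℝ) * R)) ^ (K.choose 2) ≤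
      (mu M (pc M)).real (Dc M (R * N) k x) := by
  obtain ⟨C0, hC0, h0⟩ := conP hd M hM hQ
  refine ⟨2 * C0, by linarith, fun K R k N x hR hC hx hxx => ?_⟩
  set p := pc M with hp
  have hR1 : (1 : ℝ) ≤ R := by exact_mod_cast hR
  set T : ℝ := C0 * ((k : ℝ) + 1) ^ (2 * d ^ 2 + 3 * d) with hT
  have hT0 : 0 < T := by positivity
  have hC' : 2 * T * K ^ 2 * R ≤ √(N : ℝ) := by
    refine le_trans (le_of_eq ?_) hC
    rw [hT]
    ring
  let A : Fin K × Fin K → Set (M.ι → Bool) := fun ij =>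
    Lk M (Bo 0 (R * N)) (Bo (x ij.1) k) (Bo (x ij.2) k)
  set q : ℝ := 1 / (2 * 10 ^ 14 * (K : ℝ) * R) with hq
  have hq0 : 0 ≤ q := by positivity
  have hprob : ∀ ij ∈ (Finset.univ : Finset (Fin K × Fin K)).filter (fun ij => ij.1 < ij.2),
      q ≤ (mu M p).real (A ij)ᶜ := by
    rintro ⟨i, j⟩ hij
    have hij' : i < j := (Finset.mem_filter.1 hij).2
    have hK : 1 ≤ K := by
      have := i.2
      omega
    have hK1 : (1 : ℝ) ≤ K := by exact_mod_cast hK
    rw [probReal_compl_eq_one_sub (Lk_meas M _ _ _)]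
    set v : Z d := x j - x i with hv
    have hN : N ≤ K * nm v := hxx j i (ne_of_gt hij')
    have hreg : R * N + N ≤ ((R + 1) * K) * nm v := by nlinarith
    have hcond : T * (((R + 1) * K : ℕ) : ℝ) ≤ √(nm v : ℝ) := by
      have h1 : √(N : ℝ) ≤ K * √(nm v : ℝ) := by
        have h2 : (N : ℝ) ≤ K * nm v := by exact_mod_cast hN
        calc √(N : ℝ) ≤ √((K : ℝ) ^ 2 * nm v) := by
              apply Real.sqrt_le_sqrt
              have : (0 : ℝ) ≤ nm v := Nat.cast_nonneg _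
              nlinarith
          _ = K * √(nm v : ℝ) := by
              rw [Real.sqrt_mul (by positivity), Real.sqrt_sq (by positivity)]
      have h3 : 2 * T * K ^ 2 * R ≤ K * √(nm v : ℝ) := hC'.trans h1
      have h4 : 2 * T * K * R ≤ √(nm v : ℝ) := by
        have h5 : K * (2 * T * K * R) ≤ K * √(nm v : ℝ) := by
          refine le_trans (le_of_eq ?_) h3
          ring
        exact le_of_mul_le_mul_left h5 (by linarith)
      refine le_trans ?_ h4
      push_cast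
      calc T * ((R + 1) * K) ≤ T * ((2 * R) * K) := by
            apply mul_le_mul_of_nonneg_left _ hT0.le
            nlinarith
        _ = 2 * T * K * R := by ring
    have h1 := h0 v k ((R + 1) * K) (by nlinarith) hcond
    have h2 : (mu M p).real (A (i, j)) ≤
        (mu M p).real (Lk M (Bo (x i) (((R + 1) * K) * nm v)) (Bo (x i) k) (Bo (x j) k)) :=
      measureReal_mono (Lk_mono M (Bo_shift_sub (hx i) hreg)) (measure_ne_top _ _)
    have h3 := Lk_shift M p 0 (x i) v (((R + 1) * K) * nm v) k k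
    have e1 : v + x i = x j := by rw [hv, sub_add_cancel]
    rw [zero_add, e1] at h3
    rw [h3] at h2
    have h4 : q ≤ 1 / (10 ^ 14 * (((R + 1) * K : ℕ) : ℝ)) := by
      rw [hq]
      push_cast
      apply one_div_le_one_div_of_le (by positivity)
      nlinarith
    show q ≤ 1 - (mu M p).real (A (i, j))
    linarith
  have hfin : (In M (Bo (0 : Z d) (R * N))).Finite := In_fin M (Bo_finite 0 (R * N))
  have hH := harris_prod M p hfin A (fun ij => Lk_dep M _ _ _) (fun ij => Lk_inc M _ _ _) q hq0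
    _ hprob
  rw [card_pairs] at hH
  refine hH.trans (measureReal_mono ?_ (measure_ne_top _ _))
  intro ω hω i j hij hL
  rw [Set.mem_iInter₂] at hω
  rcases lt_or_gt_of_ne hij with h | h
  · exact hω (i, j) (Finset.mem_filter.2 ⟨Finset.mem_univ _, h⟩) hL
  · rw [Lk_comm] at hL
    exact hω (j, i) (Finset.mem_filter.2 ⟨Finset.mem_univ _, h⟩) hL

end

end Pool.Agent.Y990.CB
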