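import Pool.Agent.Y990.CB.MG
import Pool.Agent.Y990.CB.Poly

set_option autoImplicit false

open MeasureTheory Set Filter
open scoped Topology

/-!
At the critical point no cluster is dense (at a polynomial scale) in more than half of a box.
-/

namespace Pool.Agent.Y990.CB

open Pool.Agent.W783.PC (pm DepOn Inc)
open Pool.Agent.H592F (Wet safe bad far perc_det near)
open Pool.Agent.Y68.CB990 (bp_right bp_up arith arith2)

noncomputable section

variable {d : ℕ}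

/-- Deterministic part of the renormalisation, in general form. -/
theorem gdet (M : Mod d) (ω : M.ι → Bool) (i j : Fin d) (w K N : ℕ) (H : Z d → Z d → Prop)
    (Gs : Z d → Prop) (hij : i ≠ j) (hw : 1 ≤ w) (hK : 1 ≤ K)
    (h1 : ∀ z x, H z x → x ∈ Bo z N) (h2 : ∀ z, Gs z → ∃ x, H z x)
    (h3 : ∀ z z' x y, Gs z → (z' = z ∨ z' = z + Pi.single i (w : ℤ) ∨
      z' = z + Pi.single j (w : ℤ)) → H z x → H z' y → (G M ω univ).Reachable x y)
    (hs : ∀ t, safe (bad (fun s => ∃ l : ℕ, l ≤ K ∧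
      (¬ Gs (bp (Pi.single i (w : ℤ)) (Pi.single j (w : ℤ)) K s + l • Pi.single i (w : ℤ)) ∨
      ¬ Gs (bp (Pi.single i (w : ℤ)) (Pi.single j (w : ℤ)) K s + l • Pi.single j (w : ℤ)))) t)
      (0, 0)) :
    ∃ x, ω ∈ Perc M x := by
  obtain ⟨v, hv⟩ : ∃ v : Z d, v = Pi.single i (w : ℤ) := ⟨_, rfl⟩
  obtain ⟨v', hv'⟩ : ∃ v' : Z d, v' = Pi.single j (w : ℤ) := ⟨_, rfl⟩
  rw [← hv, ← hv'] at hs h3
  have hvi : v i = w := by rw [hv, Pi.single_eq_same]
  have hvj : v j = 0 := by rw [hv, Pi.single_eq_of_ne (Ne.symm hij)]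
  have hvi' : v' i = 0 := by rw [hv', Pi.single_eq_of_ne hij]
  have hvj' : v' j = w := by rw [hv', Pi.single_eq_same]
  have line : ∀ (z₀ u : Z d), (u = v ∨ u = v') → (∀ l ≤ K, Gs (z₀ + l • u)) →
      (∃ x, H z₀ x) ∧ (∃ y, H (z₀ + K • u) y) ∧
      ∀ x y, H z₀ x → H (z₀ + K • u) y → (G M ω univ).Reachable x y := by
    intro z₀ u hu hg
    have key : ∀ l ≤ K, (∃ y, H (z₀ + l • u) y) ∧
        ∀ x y, H z₀ x → H (z₀ + l • u) y → (G M ω univ).Reachable x y := by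
      intro l
      induction l with
      | zero =>
        intro _
        have h0 := hg 0 (by omega)
        rw [zero_smul, add_zero] at h0 ⊢
        exact ⟨h2 _ h0, fun x y hx hy => h3 _ _ x y h0 (Or.inl rfl) hx hy⟩
      | succ l ih =>
        intro hlK
        obtain ⟨⟨x1, hx1⟩, ih2⟩ := ih (by omega)
        refine ⟨h2 _ (hg (l + 1) hlK), fun x y hx hy => ?_⟩
        refine (ih2 x x1 hx hx1).trans (h3 _ _ x1 y (hg l (by omega)) ?_ hx1 hy)
        have e : z₀ + (l + 1) • u = z₀ + l • u + u := by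
          rw [add_assoc, succ_nsmul]
        rcases hu with rfl | rfl
        · exact Or.inr (Or.inl e)
        · exact Or.inr (Or.inr e)
    have h0 := hg 0 (by omega)
    rw [zero_smul, add_zero] at h0
    exact ⟨h2 _ h0, (key K le_rfl).1, (key K le_rfl).2⟩
  set Bb' : ℤ × ℤ → Prop := fun s => ∃ l : ℕ, l ≤ K ∧
      (¬ Gs (bp v v' K s + l • v) ∨ ¬ Gs (bp v v' K s + l • v')) with hBb
  -- good blocks
  have good : ∀ s : ℤ × ℤ, ¬ Bb' s →
      Gs (bp v v' K s) ∧ (∃ x, H (bp v v' K s) x) ∧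
      ((∃ y, H (bp v v' K (s.1 + 1, s.2)) y) ∧
        ∀ x y, H (bp v v' K s) x → H (bp v v' K (s.1 + 1, s.2)) y →
          (G M ω univ).Reachable x y) ∧
      ((∃ y, H (bp v v' K (s.1, s.2 + 1)) y) ∧
        ∀ x y, H (bp v v' K s) x → H (bp v v' K (s.1, s.2 + 1)) y →
          (G M ω univ).Reachable x y) := by
    intro s hbs
    have l1 : ∀ l ≤ K, Gs (bp v v' K s + l • v) := by
      intro l hl
      by_contra hc
      exact hbs ⟨l, hl, Or.inl hc⟩
    have l2 : ∀ l ≤ K, Gs (bp v v' K s + l • v') := by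
      intro l hl
      by_contra hc
      exact hbs ⟨l, hl, Or.inr hc⟩
    have t0 := l1 0 (Nat.zero_le _)
    rw [zero_smul, add_zero] at t0
    rw [bp_right, bp_up]
    obtain ⟨a1, a2, a3⟩ := line _ v (Or.inl rfl) l1
    obtain ⟨b1, b2, b3⟩ := line _ v' (Or.inr rfl) l2
    exact ⟨t0, a1, ⟨a2, a3⟩, b2, b3⟩
  have h00 : ¬ Bb' (0, 0) := hs 0 (0, 0) ⟨by simp, by simp⟩
  obtain ⟨g1, ⟨x0, hx0⟩, -, -⟩ := good (0, 0) h00
  -- wet sites
  have wet : ∀ s : ℤ × ℤ, Wet Bb' s →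
      0 ≤ s.1 ∧ 0 ≤ s.2 ∧ (∃ y, H (bp v v' K s) y) ∧
      ∀ y, H (bp v v' K s) y → (G M ω univ).Reachable x0 y := by
    intro s h
    induction h with
    | zero => exact ⟨le_rfl, le_rfl, ⟨x0, hx0⟩, fun y hy => h3 _ _ x0 y g1 (Or.inl rfl) hx0 hy⟩
    | right h1 h2 ih =>
      obtain ⟨i1, i2, ⟨y0, hy0⟩, i4⟩ := ih
      obtain ⟨-, -, ⟨a1, a2⟩, -⟩ := good _ h2
      refine ⟨by simp only; omega, i2, a1, fun y hy => ?_⟩
      exact (i4 y0 hy0).trans (a2 y0 y hy0 hy)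
    | up h1 h2 ih =>
      obtain ⟨i1, i2, ⟨y0, hy0⟩, i4⟩ := ih
      obtain ⟨-, -, -, ⟨a1, a2⟩⟩ := good _ h2
      refine ⟨i1, by simp only; omega, a1, fun y hy => ?_⟩
      exact (i4 y0 hy0).trans (a2 y0 y hy0 hy)
  refine ⟨x0, ?_⟩
  show (cl M ω univ x0).Infinite
  intro hfin
  obtain ⟨D, hD⟩ := (hfin.image (fun y : Z d => |y i| + |y j|)).bddAbove
  obtain ⟨s, hw', hsum⟩ := perc_det _ hs ((2 * (D + 2 * N)).toNat + 1)
  obtain ⟨w1, w2, ⟨y, hy⟩, w4⟩ := wet s hw'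
  have hyc : |y i| + |y j| ≤ D := hD ⟨y, w4 y hy, rfl⟩
  have hyi := h1 _ _ hy i
  have hyj := h1 _ _ hy j
  have ei : bp v v' K s i = K * (s.1 * v i - s.2 * v j) := by
    unfold bp
    simp only [Pi.add_apply, Pi.smul_apply, smul_eq_mul, hvi', hvj]
    ring
  have ej : bp v v' K s j = K * (s.1 * v j + s.2 * v i) := by
    unfold bp
    simp only [Pi.add_apply, Pi.smul_apply, smul_eq_mul, hvj', hvj, hvi]
    ring
  rw [ei] at hyi
  rw [ej] at hyj
  have hvi1 : |v i| = w := by rw [hvi]; exact abs_of_nonneg (Int.natCast_nonneg w)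
  have hbj : |v j| ≤ w := by rw [hvj, abs_zero]; exact Int.natCast_nonneg w
  have hN1 : (1 : ℤ) ≤ w := by exact_mod_cast hw
  have hK1 : (1 : ℤ) ≤ K := by exact_mod_cast hK
  obtain ⟨q3, q4⟩ := arith hvi1 hbj hN1 w1 w2 rfl rfl
  have q5 := arith2 hK1 hyi
  have q6 := arith2 hK1 hyj
  have h7 := Int.self_le_toNat (2 * (D + 2 * N))
  push_cast at hsum
  linarith

/-! ### Fat clusters -/

/-- The vertices of the box of radius `N` at distance at most `k` from the cluster of `x`. -/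
def Fs (M : Mod d) (ω : M.ι → Bool) (ρ N k : ℕ) (z x : Z d) : Set (Z d) :=
  {y | y ∈ Bo z N ∧ ∃ u ∈ Bo y k, u ∈ cl M ω (Bo z ρ) x}

/-- The vertices of the box of radius `N` with two distinct arms nearby. -/
def Ts (M : Mod d) (ω : M.ι → Bool) (N k L : ℕ) (z : Z d) : Set (Z d) :=
  {y | y ∈ Bo z N ∧ ω ∈ Ta M y k L}

/-- There is no fat cluster. -/
def Nf' (M : Mod d) (ρ N k : ℕ) (a : ℝ) (z : Z d) : Set (M.ι → Bool) :=
  {ω | ∀ x, x ∈ Bo z (N + k) → ((Fs M ω ρ N k z x).ncard : ℝ) ≤ a}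

/-- The box is good. -/
def Gf (M : Mod d) (ω : M.ι → Bool) (ρ N k L : ℕ) (a b : ℝ) (z : Z d) : Prop :=
  (∃ x, x ∈ Bo z (N + k) ∧ a < ((Fs M ω ρ N k z x).ncard : ℝ)) ∧ ((Ts M ω N k L z).ncard : ℝ) < b

lemma Fs_fin (M : Mod d) (ω : M.ι → Bool) (ρ N k : ℕ) (z x : Z d) :
    (Fs M ω ρ N k z x).Finite := (Bo_finite z N).subset fun _ hy => hy.1

lemma fat_arm {M : Mod d} {ω : M.ι → Bool} {ρ N k L : ℕ} {a : ℝ} {z x y u : Z d} (hkL : k ≤ L)
    (ha : ((2 * (L + k) + 1 : ℕ) : ℝ) ^ d ≤ a) (h : a < ((Fs M ω ρ N k z x).ncard : ℝ))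
    (hu : u ∈ Bo y k) (hu' : u ∈ cl M ω (Bo z ρ) x) : Am M ω y L u := by
  have h1 : ¬ cl M ω (Bo z ρ) x ⊆ Bo y L := by
    intro hsub
    have h2 : Fs M ω ρ N k z x ⊆ Bo y (L + k) := by
      rintro y' ⟨-, u', hu1, hu2⟩
      have h3 := hsub hu2
      intro l
      have h4 := abs_le.1 (h3 l)
      have h5 := abs_le.1 (hu1 l)
      push_cast
      rw [abs_le]
      constructor <;> linarith [h4.1, h4.2, h5.1, h5.2]
    have h3 := Set.ncard_le_ncard h2 (Bo_finite y (L + k))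
    have h4 : (Bo y (L + k)).ncard = (2 * (L + k) + 1) ^ d := by
      rw [← coe_Bf, Set.ncard_coe_finset, card_Bf]
    rw [h4] at h3
    have h5 : ((Fs M ω ρ N k z x).ncard : ℝ) ≤ ((2 * (L + k) + 1 : ℕ) : ℝ) ^ d := by
      exact_mod_cast h3
    linarith
  obtain ⟨c, hc, hcn⟩ := Set.not_subset.1 h1
  have h6 : (G M ω (Bo z ρ)).Reachable u c := (SimpleGraph.Reachable.symm hu').trans hc
  exact exit_Am (Bo_mono y hkL hu) (Or.inl hcn) h6

lemma fat_join {M : Mod d} {ω : M.ι → Bool} {ρ N k L : ℕ} {a b e : ℝ} {z z' x y : Z d}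
    (hkL : k ≤ L) (ha : ((2 * (L + k) + 1 : ℕ) : ℝ) ^ d ≤ a)
    (hb : ((2 * N + 1 : ℕ) : ℝ) ^ d + b + e ≤ 2 * a)
    (he : ((Bo z' N \ Bo z N).ncard : ℝ) ≤ e) (hT : ((Ts M ω N k L z).ncard : ℝ) < b)
    (hx : a < ((Fs M ω ρ N k z x).ncard : ℝ)) (hy : a < ((Fs M ω ρ N k z' y).ncard : ℝ)) :
    (G M ω univ).Reachable x y := by
  obtain ⟨C, hC⟩ : ∃ C, C = Fs M ω ρ N k z x := ⟨_, rfl⟩
  obtain ⟨D, hD⟩ : ∃ D, D = Fs M ω ρ N k z' y := ⟨_, rfl⟩
  have hCf : C.Finite := hC ▸ Fs_fin M ω ρ N k z x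
  have hDf : D.Finite := hD ▸ Fs_fin M ω ρ N k z' y
  rw [← hC] at hx
  rw [← hD] at hy
  -- a common vertex without two arms
  have hex : ∃ t ∈ C ∩ D, ω ∉ Ta M t k L := by
    by_contra hcon
    push Not at hcon
    have h1 : C ∩ D ⊆ Ts M ω N k L z := by
      intro t ht
      refine ⟨?_, hcon t ht⟩
      have := ht.1
      rw [hC] at this
      exact this.1
    have hTf : (Ts M ω N k L z).Finite := (Bo_finite z N).subset fun _ hy => hy.1
    have h2 := Set.ncard_le_ncard h1 hTf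
    have h3 : D.ncard ≤ (D ∩ Bo z N).ncard + (Bo z' N \ Bo z N).ncard := by
      have h5 : D ⊆ (D ∩ Bo z N) ∪ (Bo z' N \ Bo z N) := by
        intro u hu
        by_cases huz : u ∈ Bo z N
        · exact Or.inl ⟨hu, huz⟩
        · refine Or.inr ⟨?_, huz⟩
          rw [hD] at hu
          exact hu.1
      refine (Set.ncard_le_ncard h5 ((hDf.subset inter_subset_left).union
        ((Bo_finite z' N).subset Set.sdiff_subset))).trans (Set.ncard_union_le _ _)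
    have h4 : (C ∪ (D ∩ Bo z N)).ncard ≤ (2 * N + 1) ^ d := by
      have h5 : C ∪ (D ∩ Bo z N) ⊆ Bo z N := by
        rintro u (hu | hu)
        · rw [hC] at hu
          exact hu.1
        · exact hu.2
      have h6 := Set.ncard_le_ncard h5 (Bo_finite z N)
      have h7 : (Bo z N).ncard = (2 * N + 1) ^ d := by
        rw [← coe_Bf, Set.ncard_coe_finset, card_Bf]
      rwa [h7] at h6
    have h5 := Set.ncard_union_add_ncard_inter C (D ∩ Bo z N) hCf (hDf.subset inter_subset_left)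
    have h6 : (C ∩ (D ∩ Bo z N)).ncard ≤ (C ∩ D).ncard :=
      Set.ncard_le_ncard (fun u hu => ⟨hu.1, hu.2.1⟩) (hCf.subset inter_subset_left)
    have g2 : ((C ∩ D).ncard : ℝ) ≤ (Ts M ω N k L z).ncard := by exact_mod_cast h2
    have g3 : (D.ncard : ℝ) ≤ (D ∩ Bo z N).ncard + (Bo z' N \ Bo z N).ncard := by
      exact_mod_cast h3
    have g4 : ((C ∪ (D ∩ Bo z N)).ncard : ℝ) ≤ ((2 * N + 1 : ℕ) : ℝ) ^ d := by
      exact_mod_cast h4
    have g5 : ((C ∪ (D ∩ Bo z N)).ncard : ℝ) + (C ∩ (D ∩ Bo z N)).ncard =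
        C.ncard + (D ∩ Bo z N).ncard := by exact_mod_cast h5
    have g6 : ((C ∩ (D ∩ Bo z N)).ncard : ℝ) ≤ (C ∩ D).ncard := by exact_mod_cast h6
    linarith
  obtain ⟨t, ⟨htC, htD⟩, ht⟩ := hex
  have htC' := htC
  have htD' := htD
  rw [hC] at htC'
  rw [hD] at htD'
  rw [hC] at hx
  rw [hD] at hy
  obtain ⟨-, u, hu, hux⟩ := htC'
  obtain ⟨-, u', hu', huy⟩ := htD'
  have a1 := fat_arm hkL ha hx hu hux
  have a2 := fat_arm hkL ha hy hu' huy
  have h7 : (G M ω (Bo t L)).Reachable u u' := by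
    by_contra hc
    exact ht ⟨u, hu, u', hu', a1, a2, hc⟩
  exact ((reach_mono (subset_univ _) hux).trans (reach_mono (subset_univ _) h7)).trans
    (SimpleGraph.Reachable.symm (reach_mono (subset_univ _) huy))

lemma Fs_dep {M : Mod d} {ω ω' : M.ι → Bool} {ρ : ℕ} (N k : ℕ) {z : Z d} (x : Z d)
    (h : ∀ c ∈ In M (Bo z ρ), ω c = ω' c) : Fs M ω ρ N k z x = Fs M ω' ρ N k z x := by
  unfold Fs
  rw [cl_dep x h]

lemma Nf'_dep (M : Mod d) (ρ N k : ℕ) (a : ℝ) (z : Z d) :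
    DepOn (Nf' M ρ N k a z) (In M (Bo z ρ)) := by
  intro ω ω' h
  unfold Nf'
  simp only [mem_ofPred_eq]
  refine forall₂_congr fun x _ => ?_
  rw [Fs_dep N k x h]

lemma Nf'_meas (M : Mod d) (ρ N k : ℕ) (a : ℝ) (z : Z d) : MeasurableSet (Nf' M ρ N k a z) := by
  have h2 : DepOn (Nf' M ρ N k a z) ((In_fin M (Bo_finite z ρ)).toFinset : Set M.ι) := by
    rw [Set.Finite.coe_toFinset]
    exact Nf'_dep M ρ N k a z
  exact Pool.Agent.W45.PC.s_depmeas _ _ _ h2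

lemma cl_image' (M : Mod d) (ω : M.ι → Bool) (w z x : Z d) (ρ : ℕ) :
    cl M ω (Bo (z + w) ρ) (x + w) = sf w '' cl M (fun c => ω (M.tr (sf w) c)) (Bo z ρ) x := by
  ext y
  constructor
  · intro hy
    refine ⟨y - w, ?_, sub_add_cancel y w⟩
    show (G M _ (Bo z ρ)).Reachable x (y - w)
    rw [reach_sym M (sf w) (Nb_sf w) ω, sf_image_Bo]
    have e1 : sf w (y - w) = y := sub_add_cancel y w
    rw [e1]
    exact hy
  · rintro ⟨y', hy', rfl⟩
    have h := (reach_sym M (sf w) (Nb_sf w) ω (Bo z ρ) x y').1 hy'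
    rw [sf_image_Bo] at h
    exact h

lemma Fs_image (M : Mod d) (ω : M.ι → Bool) (w z x : Z d) (ρ N k : ℕ) :
    (Fs M ω ρ N k (z + w) (x + w)).ncard =
      (Fs M (fun c => ω (M.tr (sf w) c)) ρ N k z x).ncard := by
  have e : Fs M ω ρ N k (z + w) (x + w) =
      sf w '' Fs M (fun c => ω (M.tr (sf w) c)) ρ N k z x := by
    ext y
    constructor
    · rintro ⟨hy, u, hu, hux⟩
      rw [cl_image'] at hux
      obtain ⟨u', hu', rfl⟩ := hux
      have ey : y - w + w = y := sub_add_cancel y w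
      refine ⟨y - w, ⟨?_, u', ?_, hu'⟩, ey⟩
      · rw [← ey] at hy; exact mem_Bo_add.1 hy
      · rw [← ey] at hu; exact mem_Bo_add.1 hu
    · rintro ⟨y', ⟨hy', u', hu', hux⟩, rfl⟩
      refine ⟨mem_Bo_add.2 hy', sf w u', mem_Bo_add.2 hu', ?_⟩
      rw [cl_image']
      exact ⟨u', hux, rfl⟩
  rw [e, Set.ncard_image_of_injective _ (sf w).injective]

lemma Nf'_shift (M : Mod d) (p : unitInterval) (ρ N k : ℕ) (a : ℝ) (z w : Z d) :
    (mu M p).real (Nf' M ρ N k a (z + w)) = (mu M p).real (Nf' M ρ N k a z) := by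
  rw [← mu_inv_real M p (sf w) (Nf'_meas M ρ N k a z)]
  congr 1
  ext ω
  constructor
  · intro h x hx
    have := h (x + w) (mem_Bo_add.2 hx)
    rwa [Fs_image] at this
  · intro h x hx
    have e : x - w + w = x := sub_add_cancel x w
    have h2 := h (x - w) (by rw [← e] at hx; exact mem_Bo_add.1 hx)
    rw [← e, Fs_image]
    exact h2

/-- Markov's inequality for the number of vertices with two arms nearby. -/
lemma Ts_markov (M : Mod d) (p : unitInterval) (N k L : ℕ) (z : Z d) {τ b : ℝ} (hb : 0 < b)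
    (hτ : (mu M p).real (Ta M 0 k L) ≤ τ) :
    (mu M p).real {ω | b ≤ ((Ts M ω N k L z).ncard : ℝ)} ≤ ((2 * N + 1 : ℕ) : ℝ) ^ d * τ / b := by
  classical
  have hsum : ∀ ω, ((Ts M ω N k L z).ncard : ℝ) =
      ∑ y ∈ Bf z N, (Ta M y k L).indicator (fun _ => (1 : ℝ)) ω := by
    intro ω
    have e : Ts M ω N k L z = ((Bf z N).filter (fun y => ω ∈ Ta M y k L) : Finset (Z d)) := by
      ext y
      simp only [Ts, mem_ofPred_eq, Finset.coe_filter, mem_Bf]
    rw [e, Set.ncard_coe_finset, Finset.card_filter]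
    push_cast
    refine Finset.sum_congr rfl fun y _ => ?_
    by_cases h : ω ∈ Ta M y k L
    · rw [if_pos h, Set.indicator_of_mem h]
    · rw [if_neg h, Set.indicator_of_notMem h]
  have hint : Integrable (fun ω => ∑ y ∈ Bf z N, (Ta M y k L).indicator (fun _ => (1 : ℝ)) ω)
      (mu M p) :=
    integrable_finsetSum _ fun y _ => (integrable_const (1 : ℝ)).indicator (Ta_meas M y k L)
  have hE : ∫ ω, ∑ y ∈ Bf z N, (Ta M y k L).indicator (fun _ => (1 : ℝ)) ω ∂(mu M p) ≤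
      ((2 * N + 1 : ℕ) : ℝ) ^ d * τ := by
    rw [integral_finsetSum _ fun y _ =>
      (integrable_const (1 : ℝ)).indicator (Ta_meas M y k L)]
    have h1 : ∀ y ∈ Bf z N, ∫ ω, (Ta M y k L).indicator (fun _ => (1 : ℝ)) ω ∂(mu M p) ≤ τ := by
      intro y _
      rw [integral_indicator_const _ (Ta_meas M y k L), smul_eq_mul, mul_one]
      have := Ta_shift M p 0 y k L
      rw [zero_add] at this
      rw [this]
      exact hτ
    refine (Finset.sum_le_sum h1).trans ?_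
    rw [Finset.sum_const, card_Bf, nsmul_eq_mul]
    push_cast
    exact le_rfl
  have hmk := mul_meas_ge_le_integral_of_nonneg (μ := mu M p)
    (f := fun ω => ∑ y ∈ Bf z N, (Ta M y k L).indicator (fun _ => (1 : ℝ)) ω)
    (Eventually.of_forall fun ω => Finset.sum_nonneg fun y _ =>
      Set.indicator_nonneg (fun _ _ => zero_le_one) ω) hint b
  have e : {ω | b ≤ ((Ts M ω N k L z).ncard : ℝ)} =
      {ω | b ≤ ∑ y ∈ Bf z N, (Ta M y k L).indicator (fun _ => (1 : ℝ)) ω} := by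
    ext ω
    simp only [mem_ofPred_eq]
    rw [hsum]
  rw [le_div_iff₀ hb, e, mul_comm]
  exact hmk.trans hE

/-- The block `s` is bad. -/
def Bh (M : Mod d) (v v' : Z d) (K ρ N k L : ℕ) (a b : ℝ) (s : ℤ × ℤ) : Set (M.ι → Bool) :=
  {ω | ∃ l : ℕ, l ≤ K ∧ (¬ Gf M ω ρ N k L a b (bp v v' K s + l • v) ∨
    ¬ Gf M ω ρ N k L a b (bp v v' K s + l • v'))}

lemma Gf_dep (M : Mod d) (ρ N k L r : ℕ) (a b : ℝ) (z : Z d) (h1 : ρ ≤ r) (h2 : N + L ≤ r) :
    DepOn {ω | Gf M ω ρ N k L a b z} (In M (Bo z r)) := by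
  intro ω ω' h
  have e1 : ∀ x, Fs M ω ρ N k z x = Fs M ω' ρ N k z x := fun x =>
    Fs_dep N k x (fun c hc => h c (In_mono M (Bo_mono z h1) hc))
  have e2 : Ts M ω N k L z = Ts M ω' N k L z := by
    unfold Ts
    ext y
    simp only [mem_ofPred_eq]
    refine and_congr_right fun hy => ?_
    exact Ta_dep M y k L ω ω' (fun c hc => h c (In_mono M (Bo_sub hy (by omega)) hc))
  show Gf M ω ρ N k L a b z ↔ Gf M ω' ρ N k L a b z
  unfold Gf
  rw [e2]
  refine and_congr_left fun _ => exists_congr fun x => ?_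
  rw [e1]

lemma Bh_dep (M : Mod d) (v v' : Z d) (w K ρ N k L r r' : ℕ) (a b : ℝ) (s : ℤ × ℤ) (hv : nm v ≤ w)
    (hv' : nm v' ≤ w) (h1 : ρ ≤ r') (h2 : N + L ≤ r') (h3 : K * w + r' ≤ r) :
    DepOn (Bh M v v' K ρ N k L a b s) (In M (Bo (bp v v' K s) r)) := by
  intro ω ω' h
  have key : ∀ (u : Z d), nm u ≤ w → ∀ l : ℕ, l ≤ K →
      (Gf M ω ρ N k L a b (bp v v' K s + l • u) ↔ Gf M ω' ρ N k L a b (bp v v' K s + l • u)) := by
    intro u hu l hl
    have h4 : bp v v' K s + l • u ∈ Bo (bp v v' K s) (l * w) := mem_Bo_smul hu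
    have h5 : l * w ≤ K * w := Nat.mul_le_mul_right _ hl
    exact Gf_dep M ρ N k L r' a b _ h1 h2 ω ω'
      (fun c hc => h c (In_mono M (Bo_sub h4 (by omega)) hc))
  constructor
  · rintro ⟨l, hl, h4⟩
    refine ⟨l, hl, ?_⟩
    rcases h4 with h4 | h4
    · exact Or.inl (fun hc => h4 ((key v hv l hl).2 hc))
    · exact Or.inr (fun hc => h4 ((key v' hv' l hl).2 hc))
  · rintro ⟨l, hl, h4⟩
    refine ⟨l, hl, ?_⟩
    rcases h4 with h4 | h4
    · exact Or.inl (fun hc => h4 ((key v hv l hl).1 hc))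
    · exact Or.inr (fun hc => h4 ((key v' hv' l hl).1 hc))

lemma Bh_prob (M : Mod d) (p : unitInterval) (v v' : Z d) (K ρ N k L : ℕ) (a b : ℝ) (s : ℤ × ℤ)
    {q : ℝ} (h : ∀ z, (mu M p).real {ω | ¬ Gf M ω ρ N k L a b z} ≤ q) :
    (mu M p).real (Bh M v v' K ρ N k L a b s) ≤ 2 * (K + 1) * q := by
  have e : Bh M v v' K ρ N k L a b s = ⋃ l ∈ Finset.range (K + 1),
      ({ω | ¬ Gf M ω ρ N k L a b (bp v v' K s + l • v)} ∪
        {ω | ¬ Gf M ω ρ N k L a b (bp v v' K s + l • v')}) := by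
    ext ω
    simp only [Bh, mem_ofPred_eq, mem_union, mem_iUnion, Finset.mem_range, exists_prop,
      Nat.lt_succ_iff]
  rw [e]
  refine (measureReal_biUnion_finset_le _ _).trans ?_
  calc ∑ l ∈ Finset.range (K + 1), (mu M p).real
        ({ω | ¬ Gf M ω ρ N k L a b (bp v v' K s + l • v)} ∪
        {ω | ¬ Gf M ω ρ N k L a b (bp v v' K s + l • v')}) ≤
          ∑ l ∈ Finset.range (K + 1), (q + q) := by
        refine Finset.sum_le_sum fun l _ => ?_
        exact (measureReal_union_le _ _).trans (add_le_add (h _) (h _))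
    _ = 2 * (K + 1) * q := by
        rw [Finset.sum_const, Finset.card_range, nsmul_eq_mul]; push_cast; ring

/-- **No cluster is dense, at a polynomial scale, in more than half of a box at the critical
point.** -/
theorem fat (hd : 2 ≤ d) (M : Mod d) (hM : Nd M) (hQ : Qm M) : ∃ C : ℝ, 1 ≤ C ∧
    ∀ (k N R : ℕ) (ε : ℝ), 1 ≤ R → 0 < ε → ε ≤ 1 →
    C * ((k : ℝ) + 1) ^ (2 * d ^ 2 + 3 * d) * R ≤ ε ^ 2 * √(N : ℝ) →
    ε / (10 ^ 14 * R) ≤ (mu M (pc M)).real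
      (Nf' M (R * N) N k ((1 / 2 + ε) * ((2 * N + 1 : ℕ) : ℝ) ^ d) 0) := by
  have hpos : 0 < pc M := Pool.Agent.Y333.CB.pc_pos d M hM
  obtain ⟨C0, hC0, h2⟩ := s_two2 d M (by omega) hM hQ
  set e := 2 * d ^ 2 + 3 * d with he
  have he1 : 1 ≤ e := by omega
  refine ⟨2 * 10 ^ 15 * C0, by nlinarith, fun k N R ε hR hε0 hε1 hC => ?_⟩
  set p := pc M with hp
  have hR1 : (1 : ℝ) ≤ R := by exact_mod_cast hR
  have hk1 : (1 : ℝ) ≤ (k : ℝ) + 1 := by
    have : (0 : ℝ) ≤ k := Nat.cast_nonneg _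
    linarith
  have hke : (k : ℝ) + 1 ≤ ((k : ℝ) + 1) ^ e := le_self_pow₀ hk1 (by omega)
  set T : ℝ := C0 * ((k : ℝ) + 1) ^ e with hT
  have hTk : (k : ℝ) + 1 ≤ T := by nlinarith
  have hT1 : 1 ≤ T := by linarith
  have hC' : 2 * 10 ^ 15 * T * R ≤ ε ^ 2 * √(N : ℝ) := by
    refine le_trans (le_of_eq ?_) hC
    rw [hT]
    ring
  have hs0 : (0 : ℝ) ≤ √(N : ℝ) := Real.sqrt_nonneg _
  have hss : √(N : ℝ) * √(N : ℝ) = N := Real.mul_self_sqrt (Nat.cast_nonneg _)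
  have hε2 : ε ^ 2 ≤ ε := by nlinarith
  have hε21 : ε ^ 2 ≤ 1 := by nlinarith
  -- the size of N
  have hbig : 2 * 10 ^ 15 * ((k : ℝ) + 1) ≤ ε * √(N : ℝ) := by
    have h1 : 2 * 10 ^ 15 * ((k : ℝ) + 1) ≤ 2 * 10 ^ 15 * T * R := by
      have : (k : ℝ) + 1 ≤ T * R := by nlinarith
      linarith
    have h3 : ε ^ 2 * √(N : ℝ) ≤ ε * √(N : ℝ) := mul_le_mul_of_nonneg_right hε2 hs0
    linarith
  have hbig2 : 2 * 10 ^ 15 * ((k : ℝ) + 1) ≤ √(N : ℝ) := by
    have : ε * √(N : ℝ) ≤ 1 * √(N : ℝ) := mul_le_mul_of_nonneg_right hε1 hs0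
    linarith
  have hsq1 : (1 : ℝ) ≤ √(N : ℝ) := by linarith
  have hNk : (16 * ((k : ℝ) + 1)) ≤ N := by nlinarith
  have hNk' : 16 * (k + 1) ≤ N := by exact_mod_cast hNk
  have hεN : 2 ≤ ε * N := by
    have h1 : (2 : ℝ) ≤ ε * √(N : ℝ) := by linarith
    rw [← hss]
    nlinarith
  by_contra hcon
  push Not at hcon
  set V : ℝ := ((2 * N + 1 : ℕ) : ℝ) ^ d with hV
  set a : ℝ := (1 / 2 + ε) * V with ha
  set b : ℝ := ε * V with hb
  have hVpos : 0 < V := by positivity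
  have hbpos : 0 < b := by positivity
  set L := N / 4 with hL
  have hkL : k ≤ L := by omega
  have hN1 : 1 ≤ N := by omega
  have hNr : (1 : ℝ) ≤ N := by exact_mod_cast hN1
  -- the step
  set w : ℕ := ⌊ε * N⌋₊ with hw
  have hw1 : (w : ℝ) ≤ ε * N := Nat.floor_le (by positivity)
  have hw2 : ε * N < w + 1 := Nat.lt_floor_add_one _
  have hw3 : ε * N / 2 ≤ w := by linarith
  have hw4 : 1 ≤ w := by
    have : (0 : ℝ) < w := by linarith
    exact_mod_cast this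
  have hwr : (1 : ℝ) ≤ w := by exact_mod_cast hw4
  set R' : ℕ := (2 * R * N) / w + 1 with hR'
  have hR'1 : 2 * R * N ≤ R' * w := by
    have h1 := Nat.div_add_mod (2 * R * N) w
    have h2 := Nat.mod_lt (2 * R * N) (by omega : 0 < w)
    have h3 : R' * w = w * (2 * R * N / w) + w := by rw [hR']; ring
    omega
  have hR'2 : (R' : ℝ) ≤ 5 * R / ε := by
    have h1 : ((2 * R * N / w : ℕ) : ℝ) ≤ ((2 * R * N : ℕ) : ℝ) / w := Nat.cast_div_le
    have h2 : ((2 * R * N : ℕ) : ℝ) / w ≤ 4 * R / ε := by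
      rw [div_le_div_iff₀ (by linarith) hε0]
      push_cast
      have h3 : (R : ℝ) * (ε * N / 2) ≤ R * w := mul_le_mul_of_nonneg_left hw3 (by linarith)
      nlinarith
    have h3 : (1 : ℝ) ≤ R / ε := by
      rw [le_div_iff₀ hε0]
      linarith
    have h4 : (R' : ℝ) = ((2 * R * N / w : ℕ) : ℝ) + 1 := by rw [hR']; push_cast; rfl
    have h5 : 5 * (R : ℝ) / ε = 4 * R / ε + R / ε := by ring
    rw [h4, h5]
    linarith
  have hR'3 : 1 ≤ R' := Nat.le_add_left 1 _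
  set K : ℕ := 3 * R' with hK
  set r : ℕ := 4 * R' * w with hr
  -- directions
  set i : Fin d := ⟨0, by omega⟩ with hi
  set j : Fin d := ⟨1, by omega⟩ with hj
  have hij : i ≠ j := by
    intro h
    have := congrArg Fin.val h
    simp [hi, hj] at this
  set v : Z d := Pi.single i (w : ℤ) with hv
  set v' : Z d := Pi.single j (w : ℤ) with hv'
  have ev : |v i| = w := by rw [hv, Pi.single_eq_same, Nat.abs_cast]
  have e1 : v' i = - v j := by
    rw [hv, hv', Pi.single_eq_of_ne hij, Pi.single_eq_of_ne hij.symm, neg_zero]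
  have e2 : v' j = v i := by rw [hv, hv', Pi.single_eq_same, Pi.single_eq_same]
  have hRN : R * N ≤ R' * w := by nlinarith
  have hNL : N + L ≤ R' * w := by
    have : N ≤ R * N := Nat.le_mul_of_pos_left N (by omega)
    have h2 : 2 * R * N = R * N + R * N := by ring
    omega
  have hsum : K * w + R' * w ≤ r := by rw [hK, hr]; ring_nf; exact le_rfl
  -- thresholds
  have hV1 : V = ((2 * N + 1 : ℕ) : ℝ) ^ (d - 1) * ((2 * N + 1 : ℕ) : ℝ) := by
    rw [hV, ← pow_succ]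
    congr 1
    omega
  have hshell : (w : ℝ) * ((2 * N + 1 : ℕ) : ℝ) ^ (d - 1) ≤ ε / 2 * V := by
    rw [hV1]
    have h3 : (w : ℝ) ≤ ε / 2 * ((2 * N + 1 : ℕ) : ℝ) := by push_cast; linarith
    have h4 : (0 : ℝ) ≤ ((2 * N + 1 : ℕ) : ℝ) ^ (d - 1) := by positivity
    calc (w : ℝ) * ((2 * N + 1 : ℕ) : ℝ) ^ (d - 1)
        ≤ ε / 2 * ((2 * N + 1 : ℕ) : ℝ) * ((2 * N + 1 : ℕ) : ℝ) ^ (d - 1) :=
          mul_le_mul_of_nonneg_right h3 h4
      _ = _ := by ring
  have haL : ((2 * (L + k) + 1 : ℕ) : ℝ) ^ d ≤ a := by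
    have h3 : ((2 * (L + k) + 1 : ℕ) : ℝ) ≤ 1 / 2 * ((2 * N + 1 : ℕ) : ℝ) := by
      have h4 : 2 * (2 * (L + k) + 1) ≤ 2 * N + 1 := by omega
      have h5 : ((2 * (2 * (L + k) + 1) : ℕ) : ℝ) ≤ ((2 * N + 1 : ℕ) : ℝ) := by exact_mod_cast h4
      push_cast at h5 ⊢
      linarith
    have h4 : ((2 * (L + k) + 1 : ℕ) : ℝ) ^ d ≤ (1 / 2 * ((2 * N + 1 : ℕ) : ℝ)) ^ d :=
      pow_le_pow_left₀ (Nat.cast_nonneg _) h3 d
    have h5 : (1 / 2 * ((2 * N + 1 : ℕ) : ℝ)) ^ d ≤ 1 / 2 * V := by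
      rw [mul_pow]
      apply mul_le_mul_of_nonneg_right _ hVpos.le
      calc (1 / 2 : ℝ) ^ d ≤ (1 / 2 : ℝ) ^ 1 := pow_le_pow_of_le_one (by norm_num) (by norm_num)
            (by omega)
        _ = 1 / 2 := pow_one _
    have h6 : 1 / 2 * V ≤ a := by
      rw [ha]
      apply mul_le_mul_of_nonneg_right _ hVpos.le
      linarith
    linarith
  have hεV : 0 < ε * V := by positivity
  have ha2 : 2 * a = V + 2 * (ε * V) := by rw [ha]; ring
  have hb2 : b = ε * V := hb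
  have hsh2 : (w : ℝ) * ((2 * N + 1 : ℕ) : ℝ) ^ (d - 1) ≤ (ε * V) / 2 := by
    refine hshell.trans (le_of_eq ?_)
    ring
  have hba : V + b + (w : ℝ) * ((2 * N + 1 : ℕ) : ℝ) ^ (d - 1) ≤ 2 * a := by
    rw [ha2, hb2]
    linarith
  have hba0 : V + b + 0 ≤ 2 * a := by
    rw [ha2, hb2]
    linarith
  -- probabilities
  have hτ := h2 0 k L (by omega)
  have hq : ∀ z, (mu M p).real {ω | ¬ Gf M ω (R * N) N k L a b z} ≤
      5 / 4 * (ε / (10 ^ 14 * R)) := by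
    intro z
    have hsub : {ω | ¬ Gf M ω (R * N) N k L a b z} ⊆
        Nf' M (R * N) N k a z ∪ {ω | b ≤ ((Ts M ω N k L z).ncard : ℝ)} := by
      intro ω hω
      by_cases h : b ≤ ((Ts M ω N k L z).ncard : ℝ)
      · exact Or.inr h
      · left
        intro x hx
        by_contra hc
        exact hω ⟨⟨x, hx, not_le.1 hc⟩, not_le.1 h⟩
    have h1 := (measureReal_mono hsub (measure_ne_top (mu M p) _)).trans
      (measureReal_union_le _ _)
    have h3 : (mu M p).real (Nf' M (R * N) N k a z) < ε / (10 ^ 14 * R) := by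
      have := Nf'_shift M p (R * N) N k a 0 z
      rw [zero_add] at this
      rw [this]
      exact hcon
    have h4 : (mu M p).real {ω | b ≤ ((Ts M ω N k L z).ncard : ℝ)} ≤
        1 / 4 * (ε / (10 ^ 14 * R)) := by
      refine (Ts_markov M p N k L z hbpos hτ).trans ?_
      have e5 : ((2 * N + 1 : ℕ) : ℝ) ^ d * (C0 * ((k : ℝ) + 1) ^ e / √(L : ℝ)) / b =
          T / √(L : ℝ) / ε := by
        rw [hb, ← hV, hT]
        field_simp
      rw [e5]
      have hsL : √(N : ℝ) / 3 ≤ √(L : ℝ) := by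
        have g2 : (N : ℝ) / 9 ≤ L := by
          have : N ≤ 9 * L := by omega
          have : (N : ℝ) ≤ 9 * L := by exact_mod_cast this
          linarith
        calc √(N : ℝ) / 3 = √((N : ℝ) / 9) := by
              rw [Real.sqrt_div (Nat.cast_nonneg _), show (9 : ℝ) = 3 ^ 2 by norm_num,
                Real.sqrt_sq (by norm_num)]
          _ ≤ √(L : ℝ) := Real.sqrt_le_sqrt g2
      have g4 : 0 < √(L : ℝ) := by linarith
      rw [div_div, div_le_iff₀ (by positivity)]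
      have e6 : 1 / 4 * (ε / (10 ^ 14 * (R : ℝ))) * (√(L : ℝ) * ε) =
          ε ^ 2 * √(L : ℝ) / (4 * 10 ^ 14 * R) := by
        have : (R : ℝ) ≠ 0 := by linarith
        field_simp
      rw [e6, le_div_iff₀ (by positivity)]
      have g5 : ε ^ 2 * (√(N : ℝ) / 3) ≤ ε ^ 2 * √(L : ℝ) :=
        mul_le_mul_of_nonneg_left hsL (by positivity)
      nlinarith
    linarith
  suffices hcr : ∃ δ : ℝ, 0 < δ ∧ ∀ p' : unitInterval, |(p' : ℝ) - p| ≤ δ → 0 < th M p' by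
    obtain ⟨δ, hδ, hcr⟩ := hcr
    exact pc_not_open M hpos δ hδ hcr
  refine crit M p (Bh M v v' K (R * N) N k L a b) (Dd M v v' K r)
    (((2 * r + 1) ^ d * (2 * r + 1) ^ d) * 2) ?_ ?_ (Dd_card M v v' K r) ?_ ?_
  · intro s
    rw [coe_Dd]
    exact Bh_dep M v v' w K (R * N) N k L r (R' * w) a b s (nm_single i w).le (nm_single j w).le
      hRN hNL hsum
  · intro s t hst
    rw [← Finset.disjoint_coe, coe_Dd, coe_Dd]
    exact In_disj M (Bo_disj ev e1 e2 hw4 hR'3 hst)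
  · intro s
    refine (Bh_prob M p v v' K (R * N) N k L a b s hq).trans ?_
    have h1 : (K : ℝ) + 1 ≤ 20 * R / ε := by
      have h2 : (K : ℝ) = 3 * R' := by rw [hK]; push_cast; rfl
      have h3 : (1 : ℝ) ≤ R' := by exact_mod_cast hR'3
      have h4 : 20 * (R : ℝ) / ε = 4 * (5 * R / ε) := by ring
      rw [h2, h4]
      linarith
    calc 2 * ((K : ℝ) + 1) * (5 / 4 * (ε / (10 ^ 14 * R)))
        ≤ 2 * (20 * R / ε) * (5 / 4 * (ε / (10 ^ 14 * R))) := by
          apply mul_le_mul_of_nonneg_right _ (by positivity)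
          linarith
      _ = 1 / 10 ^ 12 / 2 := by
          have : (R : ℝ) ≠ 0 := by linarith
          field_simp
          norm_num
  · intro ω hω
    refine gdet M ω i j w K (N + k)
      (fun z x => x ∈ Bo z (N + k) ∧ a < ((Fs M ω (R * N) N k z x).ncard : ℝ))
      (Gf M ω (R * N) N k L a b) hij hw4 (by omega) (fun z x h => h.1)
      (fun z h => h.1) ?_ hω
    rintro z z' x y hG hz' ⟨-, hx⟩ ⟨-, hy⟩
    rcases hz' with rfl | rfl | rfl
    · refine fat_join hkL haL hba0 ?_ hG.2 hx hy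
      rw [Set.sdiff_self, Set.ncard_empty, Nat.cast_zero]
    · exact fat_join hkL haL hba (Pool.Agent.Y674.CB.shell z i w N) hG.2 hx hy
    · exact fat_join hkL haL hba (Pool.Agent.Y674.CB.shell z j w N) hG.2 hx hy

end

end Pool.Agent.Y990.CB
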