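import Pool.Agent.Y990.CB.PartA

set_option autoImplicit false

open MeasureTheory Set

/-!
Statements for the part MG (no majority cluster at the critical point) of the project CB.
-/

namespace Pool.Agent.Y990.CB

open Pool.Agent.W783.PC (pm DepOn Inc)

noncomputable section

/-- The cluster of `x` in the box of radius `ρ` around `z` has more than `a` vertices in the box of
radius `N`. -/
def Hu {d : ℕ} (M : Mod d) (ω : M.ι → Bool) (ρ N : ℕ) (a : ℝ) (z x : Z d) : Prop :=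
  x ∈ Bo z N ∧ a < ((cl M ω (Bo z ρ) x ∩ Bo z N).ncard : ℝ)

/-- The number of vertices of the box of radius `N` with an open arm of length `m`. -/
def Xc {d : ℕ} (M : Mod d) (ω : M.ι → Bool) (m N : ℕ) (z : Z d) : ℕ :=
  {x | x ∈ Bo z N ∧ Am M ω x m x}.ncard

/-- The box is good: there is a large cluster, and there are not too many arms. -/
def Gd {d : ℕ} (M : Mod d) (ρ N m : ℕ) (a b : ℝ) (z : Z d) : Set (M.ι → Bool) :=
  {ω | (∃ x, Hu M ω ρ N a z x) ∧ (Xc M ω m N z : ℝ) < b}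

/-- The block `s` is bad. -/
def Bg {d : ℕ} (M : Mod d) (v v' : Z d) (K ρ N m : ℕ) (a b : ℝ) (s : ℤ × ℤ) :
    Set (M.ι → Bool) :=
  {ω | ∃ l : ℕ, l ≤ K ∧ (ω ∉ Gd M ρ N m a b (bp v v' K s + l • v) ∨
    ω ∉ Gd M ρ N m a b (bp v v' K s + l • v'))}

/-- MLLN: law of large numbers for the number of vertices with arms. -/
def S_mlln : Prop := ∀ (d : ℕ) (M : Mod d) (p : unitInterval) (m N : ℕ) (z : Z d) (η : ℝ),
  0 < η → (mu M p).real {ω | ((mu M p).real {ω | Am M ω 0 m 0} + η) * (2 * N + 1 : ℕ) ^ d ≤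
    (Xc M ω m N z : ℝ)} ≤ (4 * m + 1 : ℕ) ^ d / (η ^ 2 * (2 * N + 1 : ℕ) ^ d)

/-- MDET: deterministic part of the renormalisation with large clusters. -/
def S_mdet : Prop := ∀ (d : ℕ) (M : Mod d) (i j : Fin d) (w K ρ N m : ℕ) (a b : ℝ),
  i ≠ j → 1 ≤ w → 1 ≤ K → ((2 * m + 1 : ℕ) : ℝ) ^ d ≤ a →
  b + w * ((2 * N + 1 : ℕ) : ℝ) ^ (d - 1) ≤ 2 * a → ∀ ω : M.ι → Bool,
  (∀ t, Pool.Agent.H592F.safe (Pool.Agent.H592F.bad (fun s => ω ∈ Bg M
    (Pi.single i (w : ℤ)) (Pi.single j (w : ℤ)) K ρ N m a b s) t) (0, 0)) →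
  ∃ x, ω ∈ Perc M x

end

end Pool.Agent.Y990.CB
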