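import Pool.Agent.Y990.CB.Fin
import Pool.Agent.Y990.CB.Stm3
import Pool.Agent.Y333.CB.Sim
import Pool.Agent.Y833.CB2.Mlln
import Pool.Agent.Y674.CB.Mdet

set_option autoImplicit false

open MeasureTheory Set Filter
open scoped Topology

/-!
No majority cluster at the critical point; the law of large numbers for the largest cluster of a
box at the critical point is equivalent to the absence of percolation at the critical point.
-/

namespace Pool.Agent.Y990.CB

open Pool.Agent.W783.PC (pm DepOn Inc)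
open Pool.Agent.H592F (safe bad far)

noncomputable section

variable {d : ℕ}

/-- If the blocks are good enough, percolation occurs for all parameters close to `p`. -/
theorem crit (M : Mod d) (p : unitInterval) (B : ℤ × ℤ → Set (M.ι → Bool))
    (D : ℤ × ℤ → Finset M.ι) (Lc : ℕ) (hdep : ∀ s, DepOn (B s) (D s : Set M.ι))
    (hdisj : ∀ s t, far s t → Disjoint (D s) (D t)) (hcard : ∀ s, (D s).card ≤ Lc)
    (hprob : ∀ s, (mu M p).real (B s) ≤ 1 / 10 ^ 12 / 2)
    (hdet : ∀ ω, (∀ t, safe (bad (fun s => ω ∈ B s) t) (0, 0)) → ∃ x, ω ∈ Perc M x) :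
    ∃ δ : ℝ, 0 < δ ∧ ∀ p' : unitInterval, |(p' : ℝ) - p| ≤ δ → 0 < th M p' := by
  have hL0 : (0 : ℝ) ≤ Lc := Nat.cast_nonneg _
  refine ⟨1 / 10 ^ 12 / 2 / ((Lc : ℝ) + 1), by positivity, fun p' hp' => ?_⟩
  have h3 : ∀ s, (pm (fun _ : M.ι => p')).real (B s) ≤ 1 / 10 ^ 12 := by
    intro s
    have h4 := Pool.Agent.W400.PC.s_tv _ (fun _ : M.ι => p') (fun _ : M.ι => p) (D s) (B s)
      (hdep s)
    have h5 : ∑ c ∈ D s, |((fun _ : M.ι => p') c : ℝ) - (fun _ : M.ι => p) c| ≤ 1 / 10 ^ 12 / 2 := by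
      calc ∑ c ∈ D s, |((fun _ : M.ι => p') c : ℝ) - (fun _ : M.ι => p) c|
          ≤ ∑ c ∈ D s, 1 / 10 ^ 12 / 2 / ((Lc : ℝ) + 1) := Finset.sum_le_sum (fun c _ => hp')
        _ = (D s).card * (1 / 10 ^ 12 / 2 / ((Lc : ℝ) + 1)) := by
            rw [Finset.sum_const, nsmul_eq_mul]
        _ ≤ ((Lc : ℝ) + 1) * (1 / 10 ^ 12 / 2 / ((Lc : ℝ) + 1)) := by
            apply mul_le_mul_of_nonneg_right _ (by positivity)
            have : ((D s).card : ℝ) ≤ Lc := Nat.cast_le.mpr (hcard s)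
            linarith
        _ = 1 / 10 ^ 12 / 2 := by field_simp
    have h6 := (abs_le.mp (h4.trans h5)).2
    have h7 := hprob s
    unfold mu at h7
    linarith
  have h4 := Pool.Agent.W573.PC.s_multi Pool.Agent.W45.PC.s_indep Pool.Agent.W45.PC.s_depmeas _
    (fun _ : M.ι => p') B D hdep hdisj h3
  have h5 : (pm (fun _ : M.ι => p')).real {ω | ∀ t, safe (bad (fun s => ω ∈ B s) t) (0, 0)} ≤
      (mu M p').real {ω | ∃ x, ω ∈ Perc M x} := by
    refine measureReal_mono ?_ (measure_ne_top _ _)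
    intro ω hω
    exact hdet ω hω
  exact th_pos M p' (by linarith)

/-! ### Large clusters -/

/-- There is no cluster with more than `a` vertices in the box. -/
def Nh (M : Mod d) (ρ N : ℕ) (a : ℝ) (z : Z d) : Set (M.ι → Bool) :=
  {ω | ∀ x ∈ Bo z N, ((cl M ω (Bo z ρ) x ∩ Bo z N).ncard : ℝ) ≤ a}

lemma cl_dep {M : Mod d} {ω ω' : M.ι → Bool} {R : Set (Z d)} (x : Z d)
    (h : ∀ c ∈ In M R, ω c = ω' c) : cl M ω R x = cl M ω' R x := by
  ext y
  exact Cn_dep M R x y ω ω' h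

lemma Nh_dep (M : Mod d) (ρ N : ℕ) (a : ℝ) (z : Z d) : DepOn (Nh M ρ N a z) (In M (Bo z ρ)) := by
  intro ω ω' h
  unfold Nh
  simp only [mem_ofPred_eq]
  refine forall₂_congr fun x _ => ?_
  rw [cl_dep x h]

lemma Nh_meas (M : Mod d) (ρ N : ℕ) (a : ℝ) (z : Z d) : MeasurableSet (Nh M ρ N a z) := by
  have h1 := Nh_dep M ρ N a z
  have h2 : DepOn (Nh M ρ N a z) ((In_fin M (Bo_finite z ρ)).toFinset : Set M.ι) := by
    rw [Set.Finite.coe_toFinset]
    exact h1
  exact Pool.Agent.W45.PC.s_depmeas _ _ _ h2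

lemma cl_image (M : Mod d) (ω : M.ι → Bool) (w z x : Z d) (ρ N : ℕ) :
    (cl M ω (Bo (z + w) ρ) (x + w) ∩ Bo (z + w) N).ncard =
      (cl M (fun c => ω (M.tr (sf w) c)) (Bo z ρ) x ∩ Bo z N).ncard := by
  have e : cl M ω (Bo (z + w) ρ) (x + w) ∩ Bo (z + w) N =
      sf w '' (cl M (fun c => ω (M.tr (sf w) c)) (Bo z ρ) x ∩ Bo z N) := by
    rw [Set.image_inter (sf w).injective, sf_image_Bo]
    congr 1
    ext y
    constructor
    · intro hy
      refine ⟨y - w, ?_, sub_add_cancel y w⟩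
      show (G M _ (Bo z ρ)).Reachable x (y - w)
      rw [reach_sym M (sf w) (Nb_sf w) ω, sf_image_Bo]
      have e1 : sf w (y - w) = y := sub_add_cancel y w
      rw [e1]
      exact hy
    · rintro ⟨y', hy', rfl⟩
      have h := (reach_sym M (sf w) (Nb_sf w) ω (Bo z ρ) x y').1 hy'
      rw [sf_image_Bo] at h
      exact h
  rw [e, Set.ncard_image_of_injective _ (sf w).injective]

lemma Nh_shift (M : Mod d) (p : unitInterval) (ρ N : ℕ) (a : ℝ) (z w : Z d) :
    (mu M p).real (Nh M ρ N a (z + w)) = (mu M p).real (Nh M ρ N a z) := by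
  rw [← mu_inv_real M p (sf w) (Nh_meas M ρ N a z)]
  congr 1
  ext ω
  constructor
  · intro h x hx
    have := h (x + w) (mem_Bo_add.2 hx)
    rwa [cl_image] at this
  · intro h x hx
    have e : x - w + w = x := sub_add_cancel x w
    have h2 := h (x - w) (by rw [← e] at hx; exact mem_Bo_add.1 hx)
    rw [← e, cl_image]
    exact h2

lemma Gd_compl (M : Mod d) (ρ N m : ℕ) (a b : ℝ) (z : Z d) :
    (Gd M ρ N m a b z)ᶜ ⊆ Nh M ρ N a z ∪ {ω | b ≤ (Xc M ω m N z : ℝ)} := by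
  intro ω hω
  by_cases h : b ≤ (Xc M ω m N z : ℝ)
  · exact Or.inr h
  · left
    intro x hx
    by_contra hc
    exact hω ⟨⟨x, hx, not_le.1 hc⟩, not_le.1 h⟩

lemma Gd_dep (M : Mod d) (ρ N m r : ℕ) (a b : ℝ) (z : Z d) (h1 : ρ ≤ r) (h2 : N + m ≤ r) :
    DepOn (Gd M ρ N m a b z) (In M (Bo z r)) := by
  intro ω ω' h
  have e1 : ∀ x, cl M ω (Bo z ρ) x = cl M ω' (Bo z ρ) x := fun x =>
    cl_dep x (fun c hc => h c (In_mono M (Bo_mono z h1) hc))
  have e2 : Xc M ω m N z = Xc M ω' m N z := by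
    unfold Xc
    congr 1
    ext x
    simp only [mem_ofPred_eq]
    refine and_congr_right fun hx => ?_
    exact Am_dep M x m x ω ω' (fun c hc => h c (In_mono M (Bo_sub hx (by omega)) hc))
  show ((∃ x, Hu M ω ρ N a z x) ∧ _) ↔ ((∃ x, Hu M ω' ρ N a z x) ∧ _)
  rw [e2]
  refine and_congr_left fun _ => exists_congr fun x => ?_
  unfold Hu
  rw [e1]

lemma Bg_dep (M : Mod d) (v v' : Z d) (w K ρ N m r r' : ℕ) (a b : ℝ) (s : ℤ × ℤ) (hv : nm v ≤ w)
    (hv' : nm v' ≤ w) (h1 : ρ ≤ r') (h2 : N + m ≤ r') (h3 : K * w + r' ≤ r) :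
    DepOn (Bg M v v' K ρ N m a b s) (In M (Bo (bp v v' K s) r)) := by
  intro ω ω' h
  have key : ∀ (u : Z d), nm u ≤ w → ∀ l : ℕ, l ≤ K →
      (ω ∈ Gd M ρ N m a b (bp v v' K s + l • u) ↔
        ω' ∈ Gd M ρ N m a b (bp v v' K s + l • u)) := by
    intro u hu l hl
    have h4 : bp v v' K s + l • u ∈ Bo (bp v v' K s) (l * w) := mem_Bo_smul hu
    have h5 : l * w ≤ K * w := Nat.mul_le_mul_right _ hl
    exact Gd_dep M ρ N m r' a b _ h1 h2 ω ω'
      (fun c hc => h c (In_mono M (Bo_sub h4 (by omega)) hc))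
  constructor
  · rintro ⟨l, hl, h4⟩
    refine ⟨l, hl, ?_⟩
    rcases h4 with h4 | h4
    · exact Or.inl (fun hc => h4 ((key v hv l hl).2 hc))
    · exact Or.inr (fun hc => h4 ((key v' hv' l hl).2 hc))
  · rintro ⟨l, hl, h4⟩
    refine ⟨l, hl, ?_⟩
    rcases h4 with h4 | h4
    · exact Or.inl (fun hc => h4 ((key v hv l hl).1 hc))
    · exact Or.inr (fun hc => h4 ((key v' hv' l hl).1 hc))

lemma Bg_prob (M : Mod d) (p : unitInterval) (v v' : Z d) (K ρ N m : ℕ) (a b : ℝ) (s : ℤ × ℤ)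
    {q : ℝ} (h : ∀ z, (mu M p).real (Gd M ρ N m a b z)ᶜ ≤ q) :
    (mu M p).real (Bg M v v' K ρ N m a b s) ≤ 2 * (K + 1) * q := by
  have e : Bg M v v' K ρ N m a b s = ⋃ l ∈ Finset.range (K + 1),
      ((Gd M ρ N m a b (bp v v' K s + l • v))ᶜ ∪ (Gd M ρ N m a b (bp v v' K s + l • v'))ᶜ) := by
    ext ω
    simp only [Bg, mem_ofPred_eq, mem_union, mem_iUnion, Finset.mem_range, exists_prop,
      Nat.lt_succ_iff, mem_compl_iff]
  rw [e]
  refine (measureReal_biUnion_finset_le _ _).trans ?_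
  calc ∑ l ∈ Finset.range (K + 1), (mu M p).real ((Gd M ρ N m a b (bp v v' K s + l • v))ᶜ ∪
        (Gd M ρ N m a b (bp v v' K s + l • v'))ᶜ) ≤ ∑ l ∈ Finset.range (K + 1), (q + q) := by
        refine Finset.sum_le_sum fun l _ => ?_
        exact (measureReal_union_le _ _).trans (add_le_add (h _) (h _))
    _ = 2 * (K + 1) * q := by
        rw [Finset.sum_const, Finset.card_range, nsmul_eq_mul]; push_cast; ring

lemma nm_single (i : Fin d) (w : ℕ) : nm (Pi.single i (w : ℤ) : Z d) = w := by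
  apply le_antisymm
  · rw [nm_le]
    intro l
    by_cases h : l = i
    · subst h
      rw [Pi.single_eq_same]
      simp
    · rw [Pi.single_eq_of_ne h]
      simp
  · have h := abs_le_nm (Pi.single i (w : ℤ) : Z d) i
    rw [Pi.single_eq_same, Nat.abs_cast] at h
    exact_mod_cast h

/-- **No majority cluster at the critical point.** -/
theorem mg (hd : 2 ≤ d) (M : Mod d) (hM : Nd M) (R : ℕ) (hR : 1 ≤ R) (ε : ℝ) (hε0 : 0 < ε)
    (hε1 : ε ≤ 1) : ∃ N0 : ℕ, ∀ N : ℕ, N0 ≤ N → ε / (10 ^ 14 * R) ≤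
      (mu M (pc M)).real (Nh M (R * N) N ((th M (pc M) / 2 + ε) * ((2 * N + 1 : ℕ) : ℝ) ^ d) 0) := by
  have hpos : 0 < pc M := Pool.Agent.Y333.CB.pc_pos d M hM
  set p := pc M with hp
  set θ := th M p with hθ
  have hθ0 : 0 ≤ θ := measureReal_nonneg
  have hR1 : (1 : ℝ) ≤ R := by exact_mod_cast hR
  -- the length of the arms
  have harm := Pool.Agent.Y504.CB.arm d M p (by omega)
  have hev := harm.eventually (gt_mem_nhds (show th M p < θ + ε / 2 by linarith))
  obtain ⟨m, hm⟩ := hev.exists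
  set am := (mu M p).real {ω | Am M ω 0 m 0} with ham
  obtain ⟨n1, hn1⟩ := exists_nat_ge (2 / ε)
  obtain ⟨n2, hn2⟩ := exists_nat_ge (((2 * m + 1 : ℕ) : ℝ) ^ d / ε)
  obtain ⟨n3, hn3⟩ := exists_nat_ge (4 * 10 ^ 14 * R * ((4 * m + 1 : ℕ) : ℝ) ^ d / ε ^ 3)
  refine ⟨m + n1 + n2 + n3 + 1, fun N hN => ?_⟩
  by_contra hcon
  push Not at hcon
  set V : ℝ := ((2 * N + 1 : ℕ) : ℝ) ^ d with hV
  set a : ℝ := (θ / 2 + ε) * V with ha
  set b : ℝ := (am + ε) * V with hb
  have hNn1 : (n1 : ℝ) ≤ N := by exact_mod_cast (by omega : n1 ≤ N)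
  have hNn2 : (n2 : ℝ) ≤ N := by exact_mod_cast (by omega : n2 ≤ N)
  have hNn3 : (n3 : ℝ) ≤ N := by exact_mod_cast (by omega : n3 ≤ N)
  have hmN : m ≤ N := by omega
  have hN1 : 1 ≤ N := by omega
  have hNr : (1 : ℝ) ≤ N := by exact_mod_cast hN1
  have hVN : (N : ℝ) ≤ V := by
    have h1 : (N : ℝ) ≤ ((2 * N + 1 : ℕ) : ℝ) := by push_cast; linarith
    have h2 : (1 : ℝ) ≤ ((2 * N + 1 : ℕ) : ℝ) := by linarith
    exact h1.trans (le_self_pow₀ h2 (by omega))
  have hVpos : 0 < V := by linarith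
  -- the step
  have hεN : 2 ≤ ε * N := by
    have h1 : 2 / ε ≤ N := hn1.trans hNn1
    rw [div_le_iff₀ hε0] at h1
    linarith
  set w : ℕ := ⌊ε * N⌋₊ with hw
  have hw1 : (w : ℝ) ≤ ε * N := Nat.floor_le (by positivity)
  have hw2 : ε * N < w + 1 := Nat.lt_floor_add_one _
  have hw3 : ε * N / 2 ≤ w := by linarith
  have hw4 : 1 ≤ w := by
    have : (0 : ℝ) < w := by linarith
    exact_mod_cast this
  have hwr : (1 : ℝ) ≤ w := by exact_mod_cast hw4
  set R' : ℕ := (2 * R * N) / w + 1 with hR'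
  have hR'1 : 2 * R * N ≤ R' * w := by
    have h1 := Nat.div_add_mod (2 * R * N) w
    have h2 := Nat.mod_lt (2 * R * N) (by omega : 0 < w)
    have h3 : R' * w = w * (2 * R * N / w) + w := by rw [hR']; ring
    omega
  have hR'2 : (R' : ℝ) ≤ 5 * R / ε := by
    have h1 : ((2 * R * N / w : ℕ) : ℝ) ≤ ((2 * R * N : ℕ) : ℝ) / w := Nat.cast_div_le
    have h2 : ((2 * R * N : ℕ) : ℝ) / w ≤ 4 * R / ε := by
      rw [div_le_div_iff₀ (by linarith) hε0]
      push_cast
      have h3 : (R : ℝ) * (ε * N / 2) ≤ R * w := mul_le_mul_of_nonneg_left hw3 (by linarith)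
      nlinarith
    have h3 : (1 : ℝ) ≤ R / ε := by
      rw [le_div_iff₀ hε0]
      linarith
    have h4 : (R' : ℝ) = ((2 * R * N / w : ℕ) : ℝ) + 1 := by rw [hR']; push_cast; rfl
    have h5 : 5 * (R : ℝ) / ε = 4 * R / ε + R / ε := by ring
    rw [h4, h5]
    linarith
  have hR'3 : 1 ≤ R' := Nat.le_add_left 1 _
  set K : ℕ := 3 * R' with hK
  set r : ℕ := 4 * R' * w with hr
  -- directions
  set i : Fin d := ⟨0, by omega⟩ with hi
  set j : Fin d := ⟨1, by omega⟩ with hj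
  have hij : i ≠ j := by
    intro h
    have := congrArg Fin.val h
    simp [hi, hj] at this
  set v : Z d := Pi.single i (w : ℤ) with hv
  set v' : Z d := Pi.single j (w : ℤ) with hv'
  have ev : |v i| = w := by rw [hv, Pi.single_eq_same, Nat.abs_cast]
  have e1 : v' i = - v j := by
    rw [hv, hv', Pi.single_eq_of_ne hij, Pi.single_eq_of_ne hij.symm, neg_zero]
  have e2 : v' j = v i := by rw [hv, hv', Pi.single_eq_same, Pi.single_eq_same]
  have hRN : R * N ≤ R' * w := by nlinarith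
  have hNm : N + m ≤ R' * w := by
    have : N ≤ R * N := Nat.le_mul_of_pos_left N (by omega)
    have h2 : 2 * R * N = R * N + R * N := by ring
    omega
  have hsum : K * w + R' * w ≤ r := by rw [hK, hr]; ring_nf; exact le_rfl
  -- probabilities
  have hq : ∀ z, (mu M p).real (Gd M (R * N) N m a b z)ᶜ ≤ 5 / 4 * (ε / (10 ^ 14 * R)) := by
    intro z
    have h1 := (measureReal_mono (Gd_compl M (R * N) N m a b z) (measure_ne_top (mu M p) _)).trans
      (measureReal_union_le _ _)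
    have h2 : (mu M p).real (Nh M (R * N) N a z) < ε / (10 ^ 14 * R) := by
      have := Nh_shift M p (R * N) N a 0 z
      rw [zero_add] at this
      rw [this]
      exact hcon
    have h3 : (mu M p).real {ω | b ≤ (Xc M ω m N z : ℝ)} ≤ 1 / 4 * (ε / (10 ^ 14 * R)) := by
      refine (Pool.Agent.Y833.CB2.mlln d M p m N z ε hε0).trans ?_
      have h4 : 4 * 10 ^ 14 * R * ((4 * m + 1 : ℕ) : ℝ) ^ d / ε ^ 3 ≤ V :=
        (hn3.trans hNn3).trans hVN
      rw [div_le_iff₀ (by positivity)] at h4 ⊢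
      have h5 : 1 / 4 * (ε / (10 ^ 14 * (R : ℝ))) * (ε ^ 2 * ((2 * N + 1 : ℕ) : ℝ) ^ d) =
          V * ε ^ 3 / (4 * 10 ^ 14 * R) := by
        rw [hV]
        field_simp
      rw [h5, le_div_iff₀ (by positivity)]
      linarith
    linarith
  suffices hcr : ∃ δ : ℝ, 0 < δ ∧ ∀ p' : unitInterval, |(p' : ℝ) - p| ≤ δ → 0 < th M p' by
    obtain ⟨δ, hδ, hcr⟩ := hcr
    exact pc_not_open M hpos δ hδ hcr
  refine crit M p (Bg M v v' K (R * N) N m a b) (Dd M v v' K r)
    (((2 * r + 1) ^ d * (2 * r + 1) ^ d) * 2) ?_ ?_ (Dd_card M v v' K r) ?_ ?_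
  · intro s
    rw [coe_Dd]
    exact Bg_dep M v v' w K (R * N) N m r (R' * w) a b s (nm_single i w).le (nm_single j w).le
      hRN hNm hsum
  · intro s t hst
    rw [← Finset.disjoint_coe, coe_Dd, coe_Dd]
    exact In_disj M (Bo_disj ev e1 e2 hw4 hR'3 hst)
  · intro s
    refine (Bg_prob M p v v' K (R * N) N m a b s hq).trans ?_
    have h1 : (K : ℝ) + 1 ≤ 20 * R / ε := by
      have h2 : (K : ℝ) = 3 * R' := by rw [hK]; push_cast; rfl
      have h3 : (1 : ℝ) ≤ R' := by exact_mod_cast hR'3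
      have h4 : 20 * (R : ℝ) / ε = 4 * (5 * R / ε) := by ring
      rw [h2, h4]
      linarith
    calc 2 * ((K : ℝ) + 1) * (5 / 4 * (ε / (10 ^ 14 * R)))
        ≤ 2 * (20 * R / ε) * (5 / 4 * (ε / (10 ^ 14 * R))) := by
          apply mul_le_mul_of_nonneg_right _ (by positivity)
          linarith
      _ = 1 / 10 ^ 12 / 2 := by
          have : (R : ℝ) ≠ 0 := by linarith
          field_simp
          norm_num
  · intro ω hω
    refine Pool.Agent.Y674.CB.mdet d M i j w K (R * N) N m a b hij hw4 (by omega) ?_ ?_ ω hω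
    · -- the threshold exceeds the size of a small box
      have h1 : ((2 * m + 1 : ℕ) : ℝ) ^ d / ε ≤ V := (hn2.trans hNn2).trans hVN
      rw [div_le_iff₀ hε0] at h1
      have h2 : ε * V ≤ a := by
        rw [ha]
        apply mul_le_mul_of_nonneg_right _ hVpos.le
        linarith
      linarith
    · have h1 : V = ((2 * N + 1 : ℕ) : ℝ) ^ (d - 1) * ((2 * N + 1 : ℕ) : ℝ) := by
        rw [hV, ← pow_succ]
        congr 1
        omega
      have h2 : (w : ℝ) * ((2 * N + 1 : ℕ) : ℝ) ^ (d - 1) ≤ ε / 2 * V := by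
        rw [h1]
        have h3 : (w : ℝ) ≤ ε / 2 * ((2 * N + 1 : ℕ) : ℝ) := by push_cast; linarith
        have h4 : (0 : ℝ) ≤ ((2 * N + 1 : ℕ) : ℝ) ^ (d - 1) := by positivity
        calc (w : ℝ) * ((2 * N + 1 : ℕ) : ℝ) ^ (d - 1)
            ≤ ε / 2 * ((2 * N + 1 : ℕ) : ℝ) * ((2 * N + 1 : ℕ) : ℝ) ^ (d - 1) :=
              mul_le_mul_of_nonneg_right h3 h4
          _ = _ := by ring
      have h3 : am ≤ θ + ε / 2 := hm.le
      have h4 : (am + ε) * V ≤ (θ + ε / 2 + ε) * V :=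
        mul_le_mul_of_nonneg_right (by linarith) hVpos.le
      rw [hb, ha]
      nlinarith

end

end Pool.Agent.Y990.CB
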