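import Pool.Agent.Y990.CB.Rob

set_option autoImplicit false

open MeasureTheory Set

/-!
Critical point; connections of boxes at the critical point.
-/

namespace Pool.Agent.Y990.CB

open Pool.Agent.W783.PC (pm DepOn Inc)

noncomputable section

variable {d : ℕ}

/-- The critical point: the supremum of the parameters without percolation. -/
def pc (M : Mod d) : unitInterval :=
  ⟨sSup {x : ℝ | ∃ q : unitInterval, (q : ℝ) = x ∧ th M q = 0}, by
    constructor
    · apply Real.sSup_nonneg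
      rintro x ⟨q, rfl, _⟩
      exact q.2.1
    · apply Real.sSup_le
      · rintro x ⟨q, rfl, _⟩
        exact q.2.2
      · exact zero_le_one⟩

/-- percolation in a neighbourhood of a positive critical point is impossible -/
lemma pc_not_open (M : Mod d) (hpos : 0 < pc M) (δ : ℝ) (hδ : 0 < δ)
    (h : ∀ q : unitInterval, |(q : ℝ) - pc M| ≤ δ → 0 < th M q) : False := by
  have hb : BddAbove {x : ℝ | ∃ q : unitInterval, (q : ℝ) = x ∧ th M q = 0} :=
    ⟨1, by rintro x ⟨q, rfl, _⟩; exact q.2.2⟩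
  have hpos' : 0 < (pc M : ℝ) := hpos
  have hne : {x : ℝ | ∃ q : unitInterval, (q : ℝ) = x ∧ th M q = 0}.Nonempty := by
    by_contra hc
    rw [Set.not_nonempty_iff_eq_empty] at hc
    have : (pc M : ℝ) = 0 := by
      show sSup {x : ℝ | ∃ q : unitInterval, (q : ℝ) = x ∧ th M q = 0} = 0
      rw [hc, Real.sSup_empty]
    linarith
  obtain ⟨y, ⟨q, rfl, hq⟩, hy⟩ := exists_lt_of_lt_csSup hne
    (show (pc M : ℝ) - δ < sSup {x : ℝ | ∃ q : unitInterval, (q : ℝ) = x ∧ th M q = 0} by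
      have : (pc M : ℝ) = sSup {x : ℝ | ∃ q : unitInterval, (q : ℝ) = x ∧ th M q = 0} := rfl
      linarith)
  have h2 : (q : ℝ) ≤ pc M := le_csSup hb ⟨q, rfl, hq⟩
  have h3 := h q (by rw [abs_le]; constructor <;> linarith)
  linarith

/-- Every edge needs at least one open coordinate. -/
def Nd (M : Mod d) : Prop := ∀ x y : Z d, (M.nd x y).Nonempty

lemma mu_zero_coord (M : Mod d) (c : M.ι) : mu M 0 {ω | ω c = true} = 0 := by
  have hm : MeasurableSet {ω : M.ι → Bool | ω c = true} := by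
    have h' : MeasurableSet ((fun f : M.ι → Bool => f c) ⁻¹' {true}) :=
      measurable_pi_apply c (measurableSet_singleton true)
    exact h'
  have e : {ω : M.ι → Bool | ω c = true} = (fun f : M.ι → Bool => f c) ⁻¹' {true} := rfl
  have h2 : (mu M 0).map (fun f : M.ι → Bool => f c) = Pool.Agent.W783.PC.bern 0 := by
    unfold mu pm
    exact (measurePreserving_eval_infinitePi
      (fun _ : M.ι => Pool.Agent.W783.PC.bern (0 : unitInterval)) c).map_eq
  rw [e, ← Measure.map_apply (measurable_pi_apply c) (measurableSet_singleton true), h2]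
  unfold Pool.Agent.W783.PC.bern
  simp

lemma Lk_zero (M : Mod d) (hM : Nd M) (R A B : Set (Z d)) (h : Disjoint A B) :
    (mu M 0).real (Lk M R A B) = 0 := by
  have hsub : Lk M R A B ⊆ ⋃ x : Z d, ⋃ z : Z d, {ω | ω (hM x z).choose = true} := by
    rintro ω ⟨x, hx, y, hy, hxy⟩
    have hne : x ≠ y := fun e => Set.disjoint_left.1 h hx (e ▸ hy)
    obtain ⟨p⟩ := hxy
    cases p with
    | nil => exact absurd rfl hne
    | cons h q =>
      rename_i b
      rw [mem_iUnion]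
      refine ⟨x, ?_⟩
      rw [mem_iUnion]
      exact ⟨b, h.2.2.2 _ (hM x b).choose_spec⟩
  have h0 : mu M 0 (⋃ x : Z d, ⋃ z : Z d, {ω | ω (hM x z).choose = true}) = 0 :=
    measure_iUnion_null fun x => measure_iUnion_null fun z => mu_zero_coord M _
  rw [Measure.real, measure_mono_null hsub h0]
  simp

/-- Monotonicity of links in the region. -/
lemma Lk_mono (M : Mod d) {R R' A B : Set (Z d)} (h : R ⊆ R') : Lk M R A B ⊆ Lk M R' A B := by
  rintro ω ⟨x, hx, y, hy, hxy⟩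
  exact ⟨x, hx, y, hy, reach_mono h hxy⟩

/-- **Connections of small boxes leave large boxes at the critical point.** -/
theorem partA (htwo : S_two) (hdet : S_det) (hrot : S_rot) (hd : 2 ≤ d) (M : Mod d) (hM : Nd M) :
    ∃ C : ℝ, 1 ≤ C ∧ ∀ (v : Z d) (k R : ℕ), 1 ≤ R → C ^ (k + 1) * R ≤ √(nm v) →
      (mu M (pc M)).real (Lk M (Bo 0 (R * nm v)) (Bo 0 k) (Bo v k)) ≤ 1 - 1 / (10 ^ 14 * R) := by
  by_cases hpc : 0 < pc M
  · obtain ⟨C0, hC0, h2⟩ := htwo d M (pc M) hpc
    refine ⟨10 ^ 14 * C0, by nlinarith, fun v k R hR hC => ?_⟩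
    set N := nm v with hN
    have hC1 : 1 ≤ C0 ^ (k + 1) := one_le_pow₀ hC0
    have hR1 : (1 : ℝ) ≤ R := by exact_mod_cast hR
    have hpow : (10 ^ 14 * C0 : ℝ) ^ (k + 1) = (10 ^ 14) ^ (k + 1) * C0 ^ (k + 1) := mul_pow _ _ _
    have hk1 : (10 ^ 14 : ℝ) ^ (k + 1) = 10 ^ 14 * (10 ^ 14) ^ k := by rw [pow_succ]; ring
    have hk2 : (k : ℝ) + 1 ≤ (10 ^ 14 : ℝ) ^ k := by
      have h3 : (k : ℝ) + 1 ≤ 2 ^ k := by
        have : k + 1 ≤ 2 ^ k := Nat.lt_two_pow_self
        exact_mod_cast this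
      have h4 : (2 : ℝ) ^ k ≤ (10 ^ 14 : ℝ) ^ k := pow_le_pow_left₀ (by norm_num) (by norm_num) k
      linarith
    -- the size of N
    have hbig : 10 ^ 14 * ((k : ℝ) + 1) ≤ √(N : ℝ) := by
      refine le_trans ?_ hC
      rw [hpow, hk1]
      have h5 : 10 ^ 14 * ((k : ℝ) + 1) ≤ 10 ^ 14 * (10 ^ 14 : ℝ) ^ k :=
        mul_le_mul_of_nonneg_left hk2 (by norm_num)
      have h6 : (0 : ℝ) ≤ 10 ^ 14 * (10 ^ 14 : ℝ) ^ k := by positivity
      calc 10 ^ 14 * ((k : ℝ) + 1) ≤ 10 ^ 14 * (10 ^ 14 : ℝ) ^ k * 1 * 1 := by linarith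
        _ ≤ 10 ^ 14 * (10 ^ 14 : ℝ) ^ k * C0 ^ (k + 1) * R := by
            apply mul_le_mul _ hR1 zero_le_one (by positivity)
            exact mul_le_mul_of_nonneg_left hC1 h6
    have hNk : (8 * ((k : ℝ) + 1)) ≤ N := by
      have h7 : (0 : ℝ) ≤ √(N : ℝ) := Real.sqrt_nonneg _
      have h8 : √(N : ℝ) * √(N : ℝ) = N := Real.mul_self_sqrt (Nat.cast_nonneg _)
      have h9 : (1 : ℝ) ≤ √(N : ℝ) := by
        have : (0 : ℝ) ≤ k := Nat.cast_nonneg _
        linarith
      have : (0 : ℝ) ≤ k := Nat.cast_nonneg _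
      nlinarith
    have hNk' : 8 * (k + 1) ≤ N := by exact_mod_cast hNk
    set L := N / 2 with hL
    have hkL : k ≤ L := by omega
    have hkN : k + L < N := by omega
    by_contra hcon
    push Not at hcon
    -- coordinates
    obtain ⟨i, hi⟩ := exists_nm (by omega) v
    obtain ⟨j, hj⟩ : ∃ j : Fin d, i ≠ j := by
      have : Nontrivial (Fin d) := Fin.nontrivial_iff_two_le.2 hd
      obtain ⟨j, hj⟩ := exists_ne i
      exact ⟨j, hj.symm⟩
    obtain ⟨v', e1, e2, e3, e4⟩ := hrot d v i j hj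
    have hτ := h2 0 k L (by omega)
    have hr := rob hdet d M (pc M) v v' i j N k L R (1 / (10 ^ 14 * R)) (C0 ^ (k + 1) / √(L : ℝ))
      hj rfl e1 hi e2 e3 hR hkL hkN hcon.le (by rw [e4]; exact hcon.le) hτ ?_
    · obtain ⟨δ, hδ, h⟩ := hr
      exact pc_not_open M hpc δ hδ h
    · -- numerical estimate
      have hRpos : (0 : ℝ) < R := by linarith
      have g1 : 6 * (R : ℝ) * (1 / (10 ^ 14 * R)) = 6 / 10 ^ 14 := by field_simp
      have hsL : √(N : ℝ) / 2 ≤ √(L : ℝ) := by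
        have g2 : (N : ℝ) / 4 ≤ L := by
          have : N ≤ 4 * L := by omega
          have : (N : ℝ) ≤ 4 * L := by exact_mod_cast this
          linarith
        calc √(N : ℝ) / 2 = √((N : ℝ) / 4) := by
              rw [Real.sqrt_div (Nat.cast_nonneg _), show (4 : ℝ) = 2 ^ 2 by norm_num,
                Real.sqrt_sq (by norm_num)]
          _ ≤ √(L : ℝ) := Real.sqrt_le_sqrt g2
      have hD : 0 < C0 ^ (k + 1) := by positivity
      have g3 : (10 ^ 14 * C0 ^ (k + 1)) * R ≤ √(N : ℝ) := by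
        refine le_trans ?_ hC
        rw [hpow, hk1]
        have h6 : (1 : ℝ) ≤ (10 ^ 14 : ℝ) ^ k := one_le_pow₀ (by norm_num)
        have : (10 ^ 14 : ℝ) * 1 ≤ 10 ^ 14 * (10 ^ 14 : ℝ) ^ k :=
          mul_le_mul_of_nonneg_left h6 (by norm_num)
        have h7 : (0 : ℝ) ≤ C0 ^ (k + 1) * R := by positivity
        nlinarith
      have g4 : 0 < √(L : ℝ) := by
        have : 0 < (10 ^ 14 * C0 ^ (k + 1)) * R := by positivity
        linarith
      have g5 : C0 ^ (k + 1) / √(L : ℝ) ≤ 2 / (10 ^ 14 * R) := by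
        rw [div_le_div_iff₀ g4 (by positivity)]
        nlinarith
      have g6 : (6 * (R : ℝ) + 2) * (C0 ^ (k + 1) / √(L : ℝ)) ≤ 16 / 10 ^ 14 := by
        calc (6 * (R : ℝ) + 2) * (C0 ^ (k + 1) / √(L : ℝ))
            ≤ (6 * (R : ℝ) + 2) * (2 / (10 ^ 14 * R)) :=
              mul_le_mul_of_nonneg_left g5 (by positivity)
          _ ≤ (8 * (R : ℝ)) * (2 / (10 ^ 14 * R)) := by
              apply mul_le_mul_of_nonneg_right _ (by positivity)
              linarith
          _ = 16 / 10 ^ 14 := by field_simp; norm_num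
      rw [g1]
      have : (6 : ℝ) / 10 ^ 14 + 16 / 10 ^ 14 ≤ 1 / 10 ^ 12 / 2 := by norm_num
      linarith
  · refine ⟨2, by norm_num, fun v k R hR hC => ?_⟩
    have h0 : pc M = 0 := le_antisymm (not_lt.1 hpc) (pc M).2.1
    have hR1 : (1 : ℝ) ≤ R := by exact_mod_cast hR
    have hk : (k : ℝ) + 1 ≤ 2 ^ k := by
      have : k + 1 ≤ 2 ^ k := Nat.lt_two_pow_self
      exact_mod_cast this
    have h1 : 2 * ((k : ℝ) + 1) ≤ √(nm v : ℝ) := by
      refine le_trans ?_ hC
      have : (2 : ℝ) ^ (k + 1) = 2 * 2 ^ k := by rw [pow_succ]; ring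
      rw [this]
      nlinarith [pow_pos (show (0:ℝ) < 2 by norm_num) k]
    have h2 : 2 * (k : ℝ) < nm v := by
      have h7 : (0 : ℝ) ≤ √(nm v : ℝ) := Real.sqrt_nonneg _
      have h8 : √(nm v : ℝ) * √(nm v : ℝ) = nm v := Real.mul_self_sqrt (Nat.cast_nonneg _)
      have : (0 : ℝ) ≤ k := Nat.cast_nonneg _
      nlinarith
    have h3 : 2 * k < nm v := by exact_mod_cast h2
    have hdisj : Disjoint (Bo (0 : Z d) k) (Bo v k) := by
      rw [Set.disjoint_left]
      intro x hx hx'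
      obtain ⟨i, hi⟩ := exists_nm (by omega) v
      have a1 := abs_le.1 (hx i)
      have a2 := abs_le.1 (hx' i)
      have a3 : |v i| ≤ 2 * k := by
        rw [abs_le]
        simp only [Pi.zero_apply, sub_zero] at a1
        constructor <;> linarith [a1.1, a1.2, a2.1, a2.2]
      rw [hi] at a3
      have : nm v ≤ 2 * k := by exact_mod_cast a3
      omega
    rw [h0, Lk_zero M hM _ _ _ hdisj]
    have : 1 / (10 ^ 14 * (R : ℝ)) ≤ 1 := by
      rw [div_le_one (by positivity)]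
      nlinarith
    linarith

end

end Pool.Agent.Y990.CB
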