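import Pool.Agent.Y990.CB.PartA

set_option autoImplicit false

open MeasureTheory Set Filter
open scoped Topology

/-!
Point to point connections, crossing clusters at the critical point.
-/

namespace Pool.Agent.Y990.CB

open Pool.Agent.W783.PC (pm DepOn Inc)

noncomputable section

variable {d : ℕ}

/-- The conclusion of `partA`. -/
def ConA (M : Mod d) : Prop := ∃ C : ℝ, 1 ≤ C ∧ ∀ (v : Z d) (k R : ℕ), 1 ≤ R →
  C ^ (k + 1) * R ≤ √(nm v) →
    (mu M (pc M)).real (Lk M (Bo 0 (R * nm v)) (Bo 0 k) (Bo v k)) ≤ 1 - 1 / (10 ^ 14 * R)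

lemma sqrt_large (X : ℝ) : ∃ N0 : ℕ, ∀ n : ℕ, N0 ≤ n → X ≤ √(n : ℝ) := by
  obtain ⟨N0, hN0⟩ := exists_nat_ge (X ^ 2)
  refine ⟨N0, fun n hn => ?_⟩
  have h1 : X ^ 2 ≤ n := hN0.trans (by exact_mod_cast hn)
  exact Real.le_sqrt_of_sq_le h1

/-- Links in the box with a slightly larger radius. -/
lemma conA_shift {M : Mod d} (hA : ConA M) (k R : ℕ) (hR : 1 ≤ R) : ∃ N0 : ℕ, ∀ (v : Z d) (r : ℕ),
    N0 ≤ nm v → r ≤ (R + 1) * nm v →
    (mu M (pc M)).real (Lk M (Bo 0 r) (Bo 0 k) (Bo v k)) ≤ 1 - 1 / (2 * 10 ^ 14 * R) := by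
  obtain ⟨C, hC, h⟩ := hA
  obtain ⟨N0, hN0⟩ := sqrt_large (C ^ (k + 1) * ((R + 1 : ℕ) : ℝ))
  refine ⟨N0, fun v r hv hr => ?_⟩
  have h1 := h v k (R + 1) (by omega) (hN0 _ hv)
  have h2 : (mu M (pc M)).real (Lk M (Bo 0 r) (Bo 0 k) (Bo v k)) ≤
      (mu M (pc M)).real (Lk M (Bo 0 ((R + 1) * nm v)) (Bo 0 k) (Bo v k)) :=
    measureReal_mono (Lk_mono M (Bo_mono 0 hr)) (measure_ne_top _ _)
  have hR1 : (1 : ℝ) ≤ R := by exact_mod_cast hR
  have h3 : 1 / (2 * 10 ^ 14 * (R : ℝ)) ≤ 1 / (10 ^ 14 * ((R + 1 : ℕ) : ℝ)) := by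
    apply one_div_le_one_div_of_le (by positivity)
    push_cast
    nlinarith
  linarith

/-- **Point to point connections inside boxes at the critical point.** -/
theorem partB (hlln : S_lln) (harm : S_arm) (hd : 2 ≤ d) (M : Mod d) (hA : ConA M) (R : ℕ)
    (hR : 1 ≤ R) (ε : ℝ) (hε : 0 < ε) : ∃ N0 : ℕ, ∀ v : Z d, N0 ≤ nm v →
    (mu M (pc M)).real (Cn M (Bo 0 (R * nm v)) 0 v) ≤
      (1 - 1 / (2 * 10 ^ 14 * R)) * th M (pc M) ^ 2 + ε := by
  set p := pc M with hp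
  -- choice of m
  have ht := ((harm d M p (by omega)).pow 2)
  obtain ⟨m, hm⟩ := (Metric.tendsto_atTop.1 ht (ε / 2) (by positivity))
  have hm' := hm m le_rfl
  rw [Real.dist_eq, abs_lt] at hm'
  -- choice of k
  have hk : Tendsto (fun k : ℕ => √(((4 * m + 1 : ℕ) : ℝ) ^ d / ((2 * k + 1 : ℕ) : ℝ) ^ d)) atTop
      (𝓝 0) := by
    rw [← Real.sqrt_zero]
    apply (Real.continuous_sqrt.tendsto 0).comp
    apply Tendsto.div_atTop tendsto_const_nhds
    have h1 : Tendsto (fun k : ℕ => ((2 * k + 1 : ℕ) : ℝ)) atTop atTop := by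
      apply tendsto_natCast_atTop_atTop.comp
      exact tendsto_atTop_mono (fun k => by show k ≤ 2 * k + 1; omega) tendsto_id
    exact (tendsto_pow_atTop (by omega)).comp h1
  obtain ⟨k, hk2⟩ := (Metric.tendsto_atTop.1 hk (ε / 2) (by positivity))
  have hk' := hk2 k le_rfl
  rw [Real.dist_eq, sub_zero, abs_of_nonneg (Real.sqrt_nonneg _)] at hk'
  obtain ⟨N1, hN1⟩ := conA_shift hA k R hR
  refine ⟨max N1 (2 * m + 2 * k + 3), fun v hv => ?_⟩
  have hv1 : N1 ≤ nm v := (le_max_left _ _).trans hv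
  have hv2 : 2 * m + 2 * k + 2 < nm v := lt_of_lt_of_le (by omega) ((le_max_right _ _).trans hv)
  have h1 := hlln d M p m k (R * nm v) v hv2
  have h2 := hN1 v (R * nm v + k) hv1 (by
    have : k ≤ nm v := by omega
    nlinarith)
  have hR1 : (1 : ℝ) ≤ R := by exact_mod_cast hR
  set α := (mu M p).real {ω | Am M ω 0 m 0}
  set c : ℝ := 1 / (2 * 10 ^ 14 * R) with hc
  have hc0 : 0 ≤ c := by positivity
  have hc1 : c ≤ 1 := by
    rw [hc, div_le_one (by positivity)]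
    nlinarith
  have h3 : α ^ 2 * (mu M p).real (Lk M (Bo 0 (R * nm v + k)) (Bo 0 k) (Bo v k)) ≤
      α ^ 2 * (1 - c) := mul_le_mul_of_nonneg_left h2 (sq_nonneg _)
  have h4 : α ^ 2 * (1 - c) ≤ (th M p ^ 2 + ε / 2) * (1 - c) :=
    mul_le_mul_of_nonneg_right (by linarith [hm'.2]) (by linarith)
  nlinarith

/-- Two-point function upper bound. -/
theorem two_le (hlln : S_lln) (harm : S_arm) (hd : 1 ≤ d) (M : Mod d) (p : unitInterval)
    (ε : ℝ) (hε : 0 < ε) : ∃ N0 : ℕ, ∀ v : Z d, N0 ≤ nm v → ∀ r : ℕ,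
    (mu M p).real (Cn M (Bo 0 r) 0 v) ≤ th M p ^ 2 + ε := by
  have ht := ((harm d M p hd).pow 2)
  obtain ⟨m, hm⟩ := (Metric.tendsto_atTop.1 ht (ε / 2) (by positivity))
  have hm' := hm m le_rfl
  rw [Real.dist_eq, abs_lt] at hm'
  have hk : Tendsto (fun k : ℕ => √(((4 * m + 1 : ℕ) : ℝ) ^ d / ((2 * k + 1 : ℕ) : ℝ) ^ d)) atTop
      (𝓝 0) := by
    rw [← Real.sqrt_zero]
    apply (Real.continuous_sqrt.tendsto 0).comp
    apply Tendsto.div_atTop tendsto_const_nhds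
    have h1 : Tendsto (fun k : ℕ => ((2 * k + 1 : ℕ) : ℝ)) atTop atTop := by
      apply tendsto_natCast_atTop_atTop.comp
      exact tendsto_atTop_mono (fun k => by show k ≤ 2 * k + 1; omega) tendsto_id
    exact (tendsto_pow_atTop (by omega)).comp h1
  obtain ⟨k, hk2⟩ := (Metric.tendsto_atTop.1 hk (ε / 2) (by positivity))
  have hk' := hk2 k le_rfl
  rw [Real.dist_eq, sub_zero, abs_of_nonneg (Real.sqrt_nonneg _)] at hk'
  refine ⟨2 * m + 2 * k + 3, fun v hv r => ?_⟩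
  have h1 := hlln d M p m k r v (by omega)
  have h2 : (mu M p).real (Lk M (Bo 0 (r + k)) (Bo 0 k) (Bo v k)) ≤ 1 := measureReal_le_one
  have h3 : (mu M p).real {ω | Am M ω 0 m 0} ^ 2 *
      (mu M p).real (Lk M (Bo 0 (r + k)) (Bo 0 k) (Bo v k)) ≤
      (mu M p).real {ω | Am M ω 0 m 0} ^ 2 * 1 := mul_le_mul_of_nonneg_left h2 (sq_nonneg _)
  linarith [hm'.2]

/-- An infinite cluster leaves every box. -/
lemma Am_of_Perc {M : Mod d} {ω : M.ι → Bool} {z x : Z d} {L : ℕ} (hx : x ∈ Bo z L)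
    (h : ω ∈ Perc M x) : Am M ω z L x := by
  obtain ⟨y, hy, hy'⟩ : ∃ y ∈ cl M ω univ x, y ∉ Bo z L := by
    by_contra hc
    push Not at hc
    exact h ((Bo_finite z L).subset hc)
  exact exit_Am hx (Or.inl hy') hy

lemma meas_ex (M : Mod d) (z : Z d) (k : ℕ) :
    MeasurableSet {ω | ∃ x ∈ Bo z k, ω ∈ Perc M x} := by
  have : {ω | ∃ x ∈ Bo z k, ω ∈ Perc M x} = ⋃ x : Z d, ⋃ (_ : x ∈ Bo z k), Perc M x := by
    ext ω
    simp only [mem_ofPred_eq, mem_iUnion, exists_prop]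
  rw [this]
  exact MeasurableSet.iUnion fun x => MeasurableSet.iUnion fun _ => Perc_meas M x

lemma ex_shift (M : Mod d) (p : unitInterval) (w : Z d) (k : ℕ) :
    (mu M p).real {ω | ∃ x ∈ Bo w k, ω ∈ Perc M x} =
      (mu M p).real {ω | ∃ x ∈ Bo (0 : Z d) k, ω ∈ Perc M x} := by
  rw [← mu_inv_real M p (sf w) (meas_ex M 0 k)]
  congr 1
  ext ω
  constructor
  · rintro ⟨x, hx, h⟩
    have e : x - w + w = x := sub_add_cancel x w
    refine ⟨x - w, ?_, ?_⟩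
    · have h1 : x - w + w ∈ Bo (0 + w) k := by rw [e, zero_add]; exact hx
      exact mem_Bo_add.1 h1
    · rw [Perc_sym, e]
      exact h
  · rintro ⟨x, hx, h⟩
    refine ⟨x + w, ?_, (Perc_sym M ω w x).1 h⟩
    have := (mem_Bo_add (w := w)).2 hx
    rwa [zero_add] at this

/-- **Non-uniqueness of crossing clusters at the critical point.** -/
theorem partC (hzo : S_zo) (hd : 2 ≤ d) (M : Mod d) (hA : ConA M) (hθ : 0 < th M (pc M)) (R : ℕ)
    (hR : 1 ≤ R) : ∃ N0 : ℕ, ∀ N : ℕ, N0 ≤ N →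
    1 / (4 * 10 ^ 14 * R) ≤ (mu M (pc M)).real (Ta M 0 N (R * N)) := by
  set p := pc M with hp
  have hR1 : (1 : ℝ) ≤ R := by exact_mod_cast hR
  obtain ⟨k, hk⟩ := hzo d M p (by omega) hθ (1 / (8 * 10 ^ 14 * R)) (by positivity)
  obtain ⟨N1, hN1⟩ := conA_shift hA k R hR
  refine ⟨max (N1 + k) ((R + 1) * k + 1), fun N hN => ?_⟩
  have hN2 : N1 + k ≤ N := (le_max_left _ _).trans hN
  have hN3 : (R + 1) * k + 1 ≤ N := (le_max_right _ _).trans hN
  have hkN : k ≤ N := by nlinarith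
  -- the vector
  let i0 : Fin d := ⟨0, by omega⟩
  let v : Z d := fun i => if i = i0 then ((N - k : ℕ) : ℤ) else 0
  have hv : nm v = N - k := by
    apply le_antisymm
    · rw [nm_le]
      intro i
      by_cases h : i = i0
      · simp [v, h]
      · simp [v, h]
    · have h1 := abs_le_nm v i0
      have h2 : v i0 = ((N - k : ℕ) : ℤ) := by simp [v]
      rw [h2, Nat.abs_cast] at h1
      exact_mod_cast h1
  have h1 := hN1 v (R * N) (by rw [hv]; omega) (by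
    rw [hv]
    obtain ⟨t, rfl⟩ : ∃ t, N = k + t := ⟨N - k, by omega⟩
    have : k + t - k = t := by omega
    rw [this]
    nlinarith)
  set U : Set (M.ι → Bool) := {ω | ∃ x ∈ Bo (0 : Z d) k, ω ∈ Perc M x} with hU
  set U' : Set (M.ι → Bool) := {ω | ∃ x ∈ Bo v k, ω ∈ Perc M x} with hU'
  set K : Set (M.ι → Bool) := Lk M (Bo 0 (R * N)) (Bo 0 k) (Bo v k) with hK
  have hU1 : 1 - 1 / (8 * 10 ^ 14 * R) ≤ (mu M p).real U := hk
  have hU2 : 1 - 1 / (8 * 10 ^ 14 * R) ≤ (mu M p).real U' := by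
    rw [hU', ex_shift]; exact hk
  have hsub : (U ∩ U') \ K ⊆ Ta M 0 N (R * N) := by
    rintro ω ⟨⟨⟨x, hx, hx'⟩, ⟨y, hy, hy'⟩⟩, hn⟩
    have hxN : x ∈ Bo (0 : Z d) N := Bo_mono 0 hkN hx
    have hyN : y ∈ Bo (0 : Z d) N := by
      refine Bo_sub (D := N - k) ?_ (by omega) hy
      have := mem_Bo_nm (0 : Z d) v
      rwa [zero_add, hv] at this
    have hRN : N ≤ R * N := by nlinarith
    refine ⟨x, hxN, y, hyN, Am_of_Perc (Bo_mono 0 hRN hxN) hx',
      Am_of_Perc (Bo_mono 0 hRN hyN) hy', fun h => hn ⟨x, hx, y, hy, h⟩⟩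
  have h2 : (mu M p).real ((U ∩ U') \ K) ≤ (mu M p).real (Ta M 0 N (R * N)) :=
    measureReal_mono hsub (measure_ne_top _ _)
  have mU : MeasurableSet U := meas_ex M 0 k
  have mU' : MeasurableSet U' := meas_ex M v k
  -- P((U ∩ U') \ K) ≥ 1 - P(Uᶜ) - P(U'ᶜ) - P(K)
  have h3 : (mu M p).real (univ : Set (M.ι → Bool)) ≤ (mu M p).real ((U ∩ U') \ K) +
      ((mu M p).real Uᶜ + (mu M p).real U'ᶜ + (mu M p).real K) := by
    have hc : (univ : Set (M.ι → Bool)) ⊆ ((U ∩ U') \ K) ∪ ((Uᶜ ∪ U'ᶜ) ∪ K) := by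
      intro ω _
      by_cases a1 : ω ∈ U
      · by_cases a2 : ω ∈ U'
        · by_cases a3 : ω ∈ K
          · exact Or.inr (Or.inr a3)
          · exact Or.inl ⟨⟨a1, a2⟩, a3⟩
        · exact Or.inr (Or.inl (Or.inr a2))
      · exact Or.inr (Or.inl (Or.inl a1))
    refine (measureReal_mono hc (measure_ne_top _ _)).trans ?_
    refine (measureReal_union_le _ _).trans ?_
    refine add_le_add le_rfl ?_
    refine (measureReal_union_le _ _).trans ?_
    exact add_le_add (measureReal_union_le _ _) le_rfl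
  rw [probReal_univ, probReal_compl_eq_one_sub mU, probReal_compl_eq_one_sub mU'] at h3
  have e1 : 1 / (2 * 10 ^ 14 * (R : ℝ)) = 4 * (1 / (8 * 10 ^ 14 * R)) := by field_simp; norm_num
  have e2 : 1 / (4 * 10 ^ 14 * (R : ℝ)) = 2 * (1 / (8 * 10 ^ 14 * R)) := by field_simp; norm_num
  rw [e1] at h1
  rw [e2]
  linarith

end

end Pool.Agent.Y990.CB
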