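import Pool.Agent.Y990.CB.Basic
import Pool.Agent.W573.PC.Multi

set_option autoImplicit false

open MeasureTheory Set

/-!
Robustness: if the blocks are good enough, percolation occurs for all close parameters.
-/

namespace Pool.Agent.Y990.CB

open Pool.Agent.W783.PC (pm DepOn Inc)
open Pool.Agent.H592F (far bad safe)

noncomputable section

variable {d : ℕ}

/-! ### Infinite clusters and translations -/

lemma cl_sym (M : Mod d) (ω : M.ι → Bool) (w x : Z d) :
    cl M ω univ (x + w) = sf w '' cl M (fun c => ω (M.tr (sf w) c)) univ x := by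
  have hu : sf w '' (univ : Set (Z d)) = univ := by
    rw [Set.image_univ]
    exact (sf w).surjective.range_eq
  ext y
  constructor
  · intro hy
    refine ⟨y - w, ?_, sub_add_cancel y w⟩
    show (G M (fun c => ω (M.tr (sf w) c)) univ).Reachable x (y - w)
    rw [reach_sym M (sf w) (Nb_sf w) ω, hu]
    have e : sf w (y - w) = y := sub_add_cancel y w
    rw [e]
    exact hy
  · rintro ⟨z, hz, rfl⟩
    have := (reach_sym M (sf w) (Nb_sf w) ω univ x z).1 hz
    rw [hu] at this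
    exact this

lemma Perc_sym (M : Mod d) (ω : M.ι → Bool) (w x : Z d) :
    (fun c => ω (M.tr (sf w) c)) ∈ Perc M x ↔ ω ∈ Perc M (x + w) := by
  show (cl M _ univ x).Infinite ↔ (cl M ω univ (x + w)).Infinite
  rw [cl_sym, Set.infinite_image_iff ((sf w).injective.injOn)]

lemma Perc_shift (M : Mod d) (p : unitInterval) (x : Z d) :
    (mu M p).real (Perc M x) = th M p := by
  unfold th
  rw [← mu_inv_real M p (sf x) (Perc_meas M 0)]
  congr 1
  ext ω
  have := Perc_sym M ω x 0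
  rw [zero_add] at this
  exact this.symm

lemma th_pos (M : Mod d) (p : unitInterval)
    (h : 0 < (mu M p).real {ω | ∃ x, ω ∈ Perc M x}) : 0 < th M p := by
  by_contra hc
  have h0 : th M p = 0 := le_antisymm (not_lt.1 hc) measureReal_nonneg
  have h1 : ∀ x : Z d, mu M p (Perc M x) = 0 := by
    intro x
    have := Perc_shift M p x
    rw [h0, measureReal_eq_zero_iff] at this
    exact this
  have h2 : mu M p {ω | ∃ x, ω ∈ Perc M x} = 0 := by
    have : {ω | ∃ x, ω ∈ Perc M x} = ⋃ x : Z d, Perc M x := by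
      ext ω
      simp
    rw [this]
    exact measure_iUnion_null h1
  rw [Measure.real, h2] at h
  simp at h

/-! ### Blocks -/

lemma mem_Bo_smul {w u : Z d} {N l : ℕ} (hu : nm u ≤ N) : w + l • u ∈ Bo w (l * N) := by
  intro i
  have e : (w + l • u) i - w i = (l : ℤ) * u i := by
    rw [Pi.add_apply, Pi.smul_apply, nsmul_eq_mul]
    ring
  have h1 := nm_le.1 hu i
  rw [e, abs_mul, Nat.abs_cast]
  push_cast
  exact mul_le_mul_of_nonneg_left h1 (Int.natCast_nonneg _)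

theorem St_meas (M : Mod d) (ρ k : ℕ) (w u : Z d) : MeasurableSet (St M ρ k w u) :=
  (Lk_meas M (Bo w ρ) (Bo w k) (Bo (w + u) k)).compl

lemma St_prob (M : Mod d) (p : unitInterval) (ρ k : ℕ) (w u : Z d) {a : ℝ}
    (h : 1 - a ≤ (mu M p).real (Lk M (Bo 0 ρ) (Bo 0 k) (Bo u k))) :
    (mu M p).real (St M ρ k w u) ≤ a := by
  have h1 : (mu M p).real (St M ρ k w u) =
      1 - (mu M p).real (Lk M (Bo w ρ) (Bo w k) (Bo (w + u) k)) := by
    have : St M ρ k w u = (Lk M (Bo w ρ) (Bo w k) (Bo (w + u) k))ᶜ := rfl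
    rw [this, probReal_compl_eq_one_sub (Lk_meas M _ _ _)]
  have h2 := Lk_shift M p 0 w u ρ k k
  rw [zero_add, add_comm u w] at h2
  rw [h1, h2]
  linarith

lemma Bb_eq (M : Mod d) (v v' : Z d) (K ρ k L : ℕ) (s : ℤ × ℤ) :
    Bb M v v' K ρ k L s = (⋃ l ∈ Finset.range K, (St M ρ k (bp v v' K s + l • v) v ∪
      St M ρ k (bp v v' K s + l • v') v')) ∪
      ⋃ l ∈ Finset.range (K + 1), (Ta M (bp v v' K s + l • v) k L ∪
        Ta M (bp v v' K s + l • v') k L) := by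
  ext ω
  simp only [Bb, mem_ofPred_eq, mem_union, mem_iUnion, Finset.mem_range, exists_prop,
    Nat.lt_succ_iff]

lemma Bb_prob (M : Mod d) (p : unitInterval) (v v' : Z d) (K ρ k L : ℕ) (s : ℤ × ℤ) {a τ : ℝ}
    (h1 : 1 - a ≤ (mu M p).real (Lk M (Bo 0 ρ) (Bo 0 k) (Bo v k)))
    (h2 : 1 - a ≤ (mu M p).real (Lk M (Bo 0 ρ) (Bo 0 k) (Bo v' k)))
    (h3 : (mu M p).real (Ta M 0 k L) ≤ τ) :
    (mu M p).real (Bb M v v' K ρ k L s) ≤ 2 * K * a + (2 * K + 2) * τ := by
  rw [Bb_eq]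
  refine (measureReal_union_le _ _).trans ?_
  have e1 : (mu M p).real (⋃ l ∈ Finset.range K, (St M ρ k (bp v v' K s + l • v) v ∪
      St M ρ k (bp v v' K s + l • v') v')) ≤ 2 * K * a := by
    refine (measureReal_biUnion_finset_le _ _).trans ?_
    calc ∑ l ∈ Finset.range K, (mu M p).real (St M ρ k (bp v v' K s + l • v) v ∪
          St M ρ k (bp v v' K s + l • v') v') ≤ ∑ l ∈ Finset.range K, (a + a) := by
          refine Finset.sum_le_sum fun l _ => ?_
          exact (measureReal_union_le _ _).trans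
            (add_le_add (St_prob M p ρ k _ _ h1) (St_prob M p ρ k _ _ h2))
      _ = 2 * K * a := by
          rw [Finset.sum_const, Finset.card_range, nsmul_eq_mul]; ring
  have e2 : (mu M p).real (⋃ l ∈ Finset.range (K + 1), (Ta M (bp v v' K s + l • v) k L ∪
        Ta M (bp v v' K s + l • v') k L)) ≤ (2 * K + 2) * τ := by
    refine (measureReal_biUnion_finset_le _ _).trans ?_
    have hT : ∀ w : Z d, (mu M p).real (Ta M w k L) ≤ τ := by
      intro w
      have := Ta_shift M p 0 w k L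
      rw [zero_add] at this
      rw [this]
      exact h3
    calc ∑ l ∈ Finset.range (K + 1), (mu M p).real (Ta M (bp v v' K s + l • v) k L ∪
          Ta M (bp v v' K s + l • v') k L) ≤ ∑ l ∈ Finset.range (K + 1), (τ + τ) := by
          refine Finset.sum_le_sum fun l _ => ?_
          exact (measureReal_union_le _ _).trans (add_le_add (hT _) (hT _))
      _ = (2 * K + 2) * τ := by
          rw [Finset.sum_const, Finset.card_range, nsmul_eq_mul]; push_cast; ring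
  linarith

/-- the coordinates on which the block depends -/
def Dd (M : Mod d) (v v' : Z d) (K r : ℕ) (s : ℤ × ℤ) : Finset M.ι :=
  (In_fin M (Bo_finite (bp v v' K s) r)).toFinset

lemma coe_Dd (M : Mod d) (v v' : Z d) (K r : ℕ) (s : ℤ × ℤ) :
    (Dd M v v' K r s : Set M.ι) = In M (Bo (bp v v' K s) r) := by
  unfold Dd
  rw [Set.Finite.coe_toFinset]

lemma Dd_card (M : Mod d) (v v' : Z d) (K r : ℕ) (s : ℤ × ℤ) :
    (Dd M v v' K r s).card ≤ ((2 * r + 1) ^ d * (2 * r + 1) ^ d) * 2 := by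
  classical
  have h : Dd M v v' K r s ⊆
      (Bf (bp v v' K s) r ×ˢ Bf (bp v v' K s) r).biUnion (fun q => M.nd q.1 q.2) := by
    intro c hc
    have hc' : c ∈ (Dd M v v' K r s : Set M.ι) := hc
    rw [coe_Dd] at hc'
    obtain ⟨x, hx, y, hy, _, h2⟩ := hc'
    rw [Finset.mem_biUnion]
    exact ⟨(x, y), Finset.mem_product.2 ⟨mem_Bf.2 hx, mem_Bf.2 hy⟩, h2⟩
  refine (Finset.card_le_card h).trans ?_
  refine (Finset.card_biUnion_le_card_mul _ _ 2 (fun q _ => M.card q.1 q.2)).trans ?_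
  rw [Finset.card_product, card_Bf]

lemma Bb_dep (M : Mod d) (v v' : Z d) (N K ρ k L r : ℕ) (s : ℤ × ℤ) (hv : nm v ≤ N)
    (hv' : nm v' ≤ N) (h1 : K * N + ρ ≤ r) (h2 : K * N + L ≤ r) :
    DepOn (Bb M v v' K ρ k L s) (In M (Bo (bp v v' K s) r)) := by
  intro ω ω' h
  have key : ∀ (u : Z d), nm u ≤ N → ∀ l : ℕ, l ≤ K →
      Bo (bp v v' K s + l • u) ρ ⊆ Bo (bp v v' K s) r ∧
      Bo (bp v v' K s + l • u) L ⊆ Bo (bp v v' K s) r := by
    intro u hu l hl
    have h3 : bp v v' K s + l • u ∈ Bo (bp v v' K s) (l * N) := mem_Bo_smul hu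
    have h4 : l * N ≤ K * N := Nat.mul_le_mul_right _ hl
    exact ⟨Bo_sub h3 (by omega), Bo_sub h3 (by omega)⟩
  have hS : ∀ (u : Z d), nm u ≤ N → ∀ l : ℕ, l < K →
      (ω ∈ St M ρ k (bp v v' K s + l • u) u ↔ ω' ∈ St M ρ k (bp v v' K s + l • u) u) := by
    intro u hu l hl
    exact not_congr (Lk_dep M _ _ _ ω ω' fun c hc => h c (In_mono M (key u hu l hl.le).1 hc))
  have hT : ∀ (u : Z d), nm u ≤ N → ∀ l : ℕ, l ≤ K →
      (ω ∈ Ta M (bp v v' K s + l • u) k L ↔ ω' ∈ Ta M (bp v v' K s + l • u) k L) := by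
    intro u hu l hl
    exact Ta_dep M _ _ _ ω ω' fun c hc => h c (In_mono M (key u hu l hl).2 hc)
  constructor
  · rintro (⟨l, hl, h3⟩ | ⟨l, hl, h3⟩)
    · left
      refine ⟨l, hl, ?_⟩
      rcases h3 with h3 | h3
      · exact Or.inl ((hS v hv l hl).1 h3)
      · exact Or.inr ((hS v' hv' l hl).1 h3)
    · right
      refine ⟨l, hl, ?_⟩
      rcases h3 with h3 | h3
      · exact Or.inl ((hT v hv l hl).1 h3)
      · exact Or.inr ((hT v' hv' l hl).1 h3)
  · rintro (⟨l, hl, h3⟩ | ⟨l, hl, h3⟩)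
    · left
      refine ⟨l, hl, ?_⟩
      rcases h3 with h3 | h3
      · exact Or.inl ((hS v hv l hl).2 h3)
      · exact Or.inr ((hS v' hv' l hl).2 h3)
    · right
      refine ⟨l, hl, ?_⟩
      rcases h3 with h3 | h3
      · exact Or.inl ((hT v hv l hl).2 h3)
      · exact Or.inr ((hT v' hv' l hl).2 h3)

lemma Bo_disj {v v' : Z d} {i j : Fin d} {N R : ℕ} (hv : |v i| = N) (h1 : v' i = - v j)
    (h2 : v' j = v i) (hN : 1 ≤ N) (hR : 1 ≤ R) {s t : ℤ × ℤ} (hst : far s t) :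
    Disjoint (Bo (bp v v' (3 * R) s) (4 * R * N)) (Bo (bp v v' (3 * R) t) (4 * R * N)) := by
  rw [Set.disjoint_left]
  intro x hx hx'
  have key : ∀ l : Fin d, |bp v v' (3 * R) s l - bp v v' (3 * R) t l| ≤ 8 * R * N := by
    intro l
    have a1 := abs_le.1 (hx l)
    have a2 := abs_le.1 (hx' l)
    push_cast at a1 a2
    rw [abs_le]
    constructor <;> linarith [a1.1, a1.2, a2.1, a2.2]
  have ki := key i
  have kj := key j
  have ei : bp v v' (3 * R) s i - bp v v' (3 * R) t i =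
      3 * R * ((s.1 - t.1) * v i - (s.2 - t.2) * v j) := by
    unfold bp
    simp only [Pi.add_apply, Pi.smul_apply, smul_eq_mul, h1]
    push_cast
    ring
  have ej : bp v v' (3 * R) s j - bp v v' (3 * R) t j =
      3 * R * ((s.1 - t.1) * v j + (s.2 - t.2) * v i) := by
    unfold bp
    simp only [Pi.add_apply, Pi.smul_apply, smul_eq_mul, h2]
    push_cast
    ring
  rw [ei] at ki
  rw [ej] at kj
  set A := s.1 - t.1
  set B := s.2 - t.2
  have hAB : 16 ≤ A ^ 2 + B ^ 2 := by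
    rcases hst with h | h
    · have : (4 : ℤ) ≤ |A| := h
      have h3 : A ^ 2 = |A| ^ 2 := (sq_abs A).symm
      nlinarith [sq_nonneg B]
    · have : (4 : ℤ) ≤ |B| := h
      have h3 : B ^ 2 = |B| ^ 2 := (sq_abs B).symm
      nlinarith [sq_nonneg A]
  have hvi : (v i) ^ 2 = (N : ℤ) ^ 2 := by rw [← sq_abs, hv]
  have hN' : (1 : ℤ) ≤ N := by exact_mod_cast hN
  have hR' : (1 : ℤ) ≤ R := by exact_mod_cast hR
  have s1 : (3 * R * (A * v i - B * v j)) ^ 2 ≤ (8 * R * N : ℤ) ^ 2 := by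
    rw [← sq_abs]
    exact pow_le_pow_left₀ (abs_nonneg _) ki 2
  have s2 : (3 * R * (A * v j + B * v i)) ^ 2 ≤ (8 * R * N : ℤ) ^ 2 := by
    rw [← sq_abs]
    exact pow_le_pow_left₀ (abs_nonneg _) kj 2
  have e : (3 * R * (A * v i - B * v j)) ^ 2 + (3 * R * (A * v j + B * v i)) ^ 2 =
      9 * R ^ 2 * ((A ^ 2 + B ^ 2) * ((N : ℤ) ^ 2 + (v j) ^ 2)) := by
    rw [← hvi]
    ring
  have hR2 : (0 : ℤ) < (R : ℤ) ^ 2 := by positivity
  have hN2 : (0 : ℤ) < (N : ℤ) ^ 2 := by positivity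
  have g1 : 16 * (N : ℤ) ^ 2 ≤ (A ^ 2 + B ^ 2) * ((N : ℤ) ^ 2 + (v j) ^ 2) := by
    have g2 : (N : ℤ) ^ 2 ≤ (N : ℤ) ^ 2 + (v j) ^ 2 := by nlinarith [sq_nonneg (v j)]
    calc 16 * (N : ℤ) ^ 2 ≤ (A ^ 2 + B ^ 2) * (N : ℤ) ^ 2 :=
          mul_le_mul_of_nonneg_right hAB hN2.le
      _ ≤ _ := mul_le_mul_of_nonneg_left g2 (by positivity)
  have g3 : 9 * (R : ℤ) ^ 2 * (16 * (N : ℤ) ^ 2) ≤ 128 * ((R : ℤ) ^ 2 * (N : ℤ) ^ 2) := by
    calc 9 * (R : ℤ) ^ 2 * (16 * (N : ℤ) ^ 2)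
        ≤ 9 * (R : ℤ) ^ 2 * ((A ^ 2 + B ^ 2) * ((N : ℤ) ^ 2 + (v j) ^ 2)) :=
          mul_le_mul_of_nonneg_left g1 (by positivity)
      _ = _ := e.symm
      _ ≤ (8 * R * N : ℤ) ^ 2 + (8 * R * N : ℤ) ^ 2 := add_le_add s1 s2
      _ = 128 * ((R : ℤ) ^ 2 * (N : ℤ) ^ 2) := by ring
  have g4 : (0 : ℤ) < (R : ℤ) ^ 2 * (N : ℤ) ^ 2 := by positivity
  nlinarith

theorem rob (hdet : S_det) : S_rob := by
  intro d M p v v' i j N k L R a τ hij hv hv' hvi h1 h2 hR hkL hkN ha ha' hτ hsum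
  have hN : 1 ≤ N := by omega
  set K := 3 * R with hK
  set r := 4 * R * N with hr
  have hLN : L ≤ R * N := by nlinarith
  have hr1 : K * N + R * N ≤ r := by rw [hK, hr]; nlinarith
  have hr2 : K * N + L ≤ r := by omega
  set B : ℤ × ℤ → Set (M.ι → Bool) := Bb M v v' K (R * N) k L with hB
  set D : ℤ × ℤ → Finset M.ι := Dd M v v' K r with hD
  have hdep : ∀ s, DepOn (B s) (D s : Set M.ι) := by
    intro s
    rw [hD, coe_Dd]
    exact Bb_dep M v v' N K (R * N) k L r s hv.le hv'.le hr1 hr2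
  have hdisj : ∀ s t, far s t → Disjoint (D s) (D t) := by
    intro s t hst
    rw [← Finset.disjoint_coe, hD, coe_Dd, coe_Dd]
    exact In_disj M (Bo_disj hvi h1 h2 hN hR hst)
  have hprob : ∀ s, (mu M p).real (B s) ≤ 1 / 10 ^ 12 / 2 := by
    intro s
    have := Bb_prob M p v v' K (R * N) k L s ha ha' hτ
    refine this.trans (le_trans (le_of_eq ?_) hsum)
    rw [hK]
    push_cast
    ring
  set Lc : ℝ := ((((2 * r + 1) ^ d * (2 * r + 1) ^ d) * 2 : ℕ) : ℝ) with hLc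
  have hL0 : 0 ≤ Lc := Nat.cast_nonneg _
  refine ⟨1 / 10 ^ 12 / 2 / (Lc + 1), by positivity, fun p' hp' => ?_⟩
  have h3 : ∀ s, (pm (fun _ : M.ι => p')).real (B s) ≤ 1 / 10 ^ 12 := by
    intro s
    have h4 := Pool.Agent.W400.PC.s_tv _ (fun _ : M.ι => p') (fun _ : M.ι => p) (D s) (B s)
      (hdep s)
    have h5 : ∑ c ∈ D s, |((fun _ : M.ι => p') c : ℝ) - (fun _ : M.ι => p) c| ≤ 1 / 10 ^ 12 / 2 := by
      calc ∑ c ∈ D s, |((fun _ : M.ι => p') c : ℝ) - (fun _ : M.ι => p) c|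
          ≤ ∑ c ∈ D s, 1 / 10 ^ 12 / 2 / (Lc + 1) := Finset.sum_le_sum (fun c _ => hp')
        _ = (D s).card * (1 / 10 ^ 12 / 2 / (Lc + 1)) := by rw [Finset.sum_const, nsmul_eq_mul]
        _ ≤ (Lc + 1) * (1 / 10 ^ 12 / 2 / (Lc + 1)) := by
            apply mul_le_mul_of_nonneg_right _ (by positivity)
            have : ((D s).card : ℝ) ≤ Lc := Nat.cast_le.mpr (Dd_card M v v' K r s)
            linarith
        _ = 1 / 10 ^ 12 / 2 := by field_simp
    have h6 := (abs_le.mp (h4.trans h5)).2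
    have h7 := hprob s
    unfold mu at h7
    linarith
  have h4 := Pool.Agent.W573.PC.s_multi Pool.Agent.W45.PC.s_indep Pool.Agent.W45.PC.s_depmeas _
    (fun _ : M.ι => p') B D hdep hdisj h3
  have h5 : (pm (fun _ : M.ι => p')).real {ω | ∀ t, safe (bad (fun s => ω ∈ B s) t) (0, 0)} ≤
      (mu M p').real {ω | ∃ x, ω ∈ Perc M x} := by
    refine measureReal_mono ?_ (measure_ne_top _ _)
    intro ω hω
    exact hdet d M v v' i j N K (R * N) k L hij hv hv' hvi h1 h2 (by omega) hkL hkN ω hω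
  exact th_pos M p' (by linarith)

end

end Pool.Agent.Y990.CB
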