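import Pool.Agent.Y990.CB.Defs

set_option autoImplicit false

open MeasureTheory Set

/-!
Statements of the parts of the project CB (nearest-neighbour percolation on `Z^d` at criticality:
connections leave boxes).  Each `S_*` is to be proved in its own file.
-/

namespace Pool.Agent.Y990.CB

open Pool.Agent.W783.PC (pm DepOn Inc)
open Pool.Agent.W424.PC (cfgOf)
open Pool.Agent.Y990.PL (Expl)
open H974 (Ex Ok ind Pr)

noncomputable section

/-! ### Abstract inequalities for finite products -/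

/-- `sum over u in B of 1 / max (m, |C u A|)`. -/
def Nf {E W : Type} (m : ℕ) (B : Finset W) (C : W → Finset E → Set W) (A : Finset E) : ℝ :=
  ∑ u ∈ B, (1 : ℝ) / (max m (C u A).ncard : ℕ)

/-- IBP: total influence of the functional `Nf`. -/
def S_ibp : Prop := ∀ (E W : Type) [DecidableEq E] (S : Finset E) (p : E → ℝ) (v : ℝ)
  (B : Finset W) (C : W → Finset E → Set W) (t : E → Set W → Prop), Ok p → 0 ≤ v →
  (∀ u ∈ B, Expl S p v (C u) t) → (∀ u ∈ B, ∀ A, C u A ⊆ B) → (∀ u ∈ B, ∀ A, u ∈ C u A) →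
  ∀ m : ℕ, 1 ≤ m →
  ∑ c ∈ S, p c * (1 - p c) * Ex p S (fun A => Nf m B C (A.erase c) - Nf m B C (insert c A)) ≤
    8 * B.card * √(v / m)

/-- TEL: opening the elements of `P`, for a decreasing function `f`. -/
def S_tel : Prop := ∀ (E : Type) [DecidableEq E] (S P : Finset E) (p : E → ℝ) (κ : ℝ)
  (f : Finset E → ℝ), Ok p → P ⊆ S → 0 ≤ κ → κ ≤ 1 → (∀ c ∈ P, κ ≤ p c) →
  (∀ A A', A ⊆ A' → A' ⊆ S → f A' ≤ f A) →
  κ ^ (P.card + 1) * Ex p S (fun A => f A - f (A ∪ P)) ≤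
    ∑ c ∈ P, p c * (1 - p c) * Ex p S (fun A => f (A.erase c) - f (insert c A))

/-- MERGE: merging two large classes lowers `Nf` by at least one. -/
def S_merge : Prop := ∀ (E W : Type) [DecidableEq E] (B : Finset W)
  (C : W → Finset E → Set W) (m : ℕ), 1 ≤ m → (∀ u ∈ B, ∀ A, C u A ⊆ B) →
  (∀ u ∈ B, ∀ A, u ∈ C u A) → (∀ u ∈ B, ∀ A, ∀ w ∈ C u A, C w A = C u A) →
  (∀ u ∈ B, ∀ A A', A ⊆ A' → C u A ⊆ C u A') →
  ∀ A A' : Finset E, A ⊆ A' → ∀ x ∈ B, ∀ y ∈ B, m ≤ (C x A).ncard → m ≤ (C y A).ncard →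
  y ∉ C x A → y ∈ C x A' → 1 ≤ Nf m B C A - Nf m B C A'

/-! ### Graph parts -/

open scoped Classical in
/-- EXPL: clusters in a finite box are explored through the coordinates touching them. -/
def S_expl : Prop := ∀ (d : ℕ) (M : Mod d) (p : unitInterval) (B : Finset (Z d)) (u : Z d)
  (S : Finset M.ι), u ∈ B → (S : Set M.ι) = In M (B : Set (Z d)) →
  Expl S (fun _ => (p : ℝ)) (4 * d) (fun A => cl M (cfgOf A) (B : Set (Z d)) u) (tc M)

/-- OFFS: a path from `0` to `z`, used simultaneously at all places of a box. -/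
def S_offs : Prop := ∀ (d : ℕ) (M : Mod d) (z : Z d), ∃ P : Finset M.ι,
  P.card ≤ 2 * (d * nm z) ∧
  (∀ (w : Z d) (L : ℕ) (x : Z d), x ∈ Bo w L → z + x ∈ Bo w L →
    (∀ c ∈ P, M.tr (sf x) c ∈ In M (Bo w L)) ∧
    ∀ ω : M.ι → Bool, (∀ c ∈ P, ω (M.tr (sf x) c) = true) →
      (G M ω (Bo w L)).Reachable x (z + x)) ∧
  (∀ c ∈ P, ∀ c' : M.ι, {x : Z d | M.tr (sf x) c = c'}.encard ≤ 3)

/-- BOX: pairs of vertices with a given difference in distinct large clusters of a box. -/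
def S_box : Prop := ∀ (d : ℕ) (M : Mod d) (p : unitInterval), 0 < p → ∃ C : ℝ, 1 ≤ C ∧
  ∀ (L m : ℕ) (z : Z d) (X : Finset (Z d)), 1 ≤ m →
  (∀ x ∈ X, x ∈ Bo (0 : Z d) L ∧ z + x ∈ Bo (0 : Z d) L) →
  ∑ x ∈ X, (mu M p).real {ω | m ≤ (cl M ω (Bo 0 L) x).ncard ∧
    m ≤ (cl M ω (Bo 0 L) (z + x)).ncard ∧ z + x ∉ cl M ω (Bo 0 L) x} ≤
    C ^ (nm z + 1) * (2 * L + 1 : ℕ) ^ d / √m

/-- TWO: two distinct clusters crossing from the box of radius `k` to the frame of the box of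
radius `L` are unlikely. -/
def S_two : Prop := ∀ (d : ℕ) (M : Mod d) (p : unitInterval), 0 < p → ∃ C : ℝ, 1 ≤ C ∧
  ∀ (z : Z d) (k L : ℕ), 1 ≤ L → (mu M p).real (Ta M z k L) ≤ C ^ (k + 1) / √L

/-! ### Renormalisation -/

/-- The base point of the block `s`. -/
def bp {d : ℕ} (v v' : Z d) (K : ℕ) (s : ℤ × ℤ) : Z d := (K * s.1) • v + (K * s.2) • v'

/-- One step in the direction `u` at `w` fails. -/
def St {d : ℕ} (M : Mod d) (ρ k : ℕ) (w u : Z d) : Set (M.ι → Bool) :=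
  {ω | ω ∉ Lk M (Bo w ρ) (Bo w k) (Bo (w + u) k)}

/-- The block `s` is bad. -/
def Bb {d : ℕ} (M : Mod d) (v v' : Z d) (K ρ k L : ℕ) (s : ℤ × ℤ) : Set (M.ι → Bool) :=
  {ω | (∃ l : ℕ, l < K ∧ (ω ∈ St M ρ k (bp v v' K s + l • v) v ∨
      ω ∈ St M ρ k (bp v v' K s + l • v') v')) ∨
    ∃ l : ℕ, l ≤ K ∧ (ω ∈ Ta M (bp v v' K s + l • v) k L ∨
      ω ∈ Ta M (bp v v' K s + l • v') k L)}

/-- DET: deterministic part of the renormalisation. -/
def S_det : Prop := ∀ (d : ℕ) (M : Mod d) (v v' : Z d) (i j : Fin d) (N K ρ k L : ℕ),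
  i ≠ j → nm v = N → nm v' = N → |v i| = N → v' i = - v j → v' j = v i → 1 ≤ K →
  k ≤ L → k + L < N → ∀ ω : M.ι → Bool,
  (∀ t, Pool.Agent.H592F.safe (Pool.Agent.H592F.bad (fun s => ω ∈ Bb M v v' K ρ k L s) t) (0, 0)) →
  ∃ x, ω ∈ Perc M x

/-- ROB: if the blocks are good enough, percolation occurs for all parameters close to `p`. -/
def S_rob : Prop := ∀ (d : ℕ) (M : Mod d) (p : unitInterval) (v v' : Z d) (i j : Fin d)
  (N k L R : ℕ) (a τ : ℝ),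
  i ≠ j → nm v = N → nm v' = N → |v i| = N → v' i = - v j → v' j = v i → 1 ≤ R →
  k ≤ L → k + L < N →
  1 - a ≤ (mu M p).real (Lk M (Bo 0 (R * N)) (Bo 0 k) (Bo v k)) →
  1 - a ≤ (mu M p).real (Lk M (Bo 0 (R * N)) (Bo 0 k) (Bo v' k)) →
  (mu M p).real (Ta M 0 k L) ≤ τ → 6 * R * a + (6 * R + 2) * τ ≤ 1 / 10 ^ 12 / 2 →
  ∃ δ : ℝ, 0 < δ ∧ ∀ p' : unitInterval, |(p' : ℝ) - p| ≤ δ → 0 < th M p'

/-- ROT: rotation by a right angle in a coordinate plane. -/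
def S_rot : Prop := ∀ (d : ℕ) (v : Z d) (i j : Fin d), i ≠ j → ∃ v' : Z d, nm v' = nm v ∧
  v' i = - v j ∧ v' j = v i ∧ ∀ (M : Mod d) (p : unitInterval) (ρ k : ℕ),
  (mu M p).real (Lk M (Bo 0 ρ) (Bo 0 k) (Bo v' k)) =
    (mu M p).real (Lk M (Bo 0 ρ) (Bo 0 k) (Bo v k))

/-! ### Consequences -/

/-- LLN: second moment comparison of point and box connections. -/
def S_lln : Prop := ∀ (d : ℕ) (M : Mod d) (p : unitInterval) (m k ρ : ℕ) (v : Z d),
  2 * m + 2 * k + 2 < nm v → (mu M p).real (Cn M (Bo 0 ρ) 0 v) ≤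
    (mu M p).real {ω | Am M ω 0 m 0} ^ 2 *
      (mu M p).real (Lk M (Bo 0 (ρ + k)) (Bo 0 k) (Bo v k)) +
    √((4 * m + 1 : ℕ) ^ d / (2 * k + 1 : ℕ) ^ d)

/-- ARM: the one-arm probability converges to the percolation probability. -/
def S_arm : Prop := ∀ (d : ℕ) (M : Mod d) (p : unitInterval), 1 ≤ d →
  Filter.Tendsto (fun m : ℕ => (mu M p).real {ω | Am M ω 0 m 0}) Filter.atTop
    (nhds (th M p))

/-- ZO: if the percolation probability is positive, large boxes meet infinite clusters with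
probability close to one. -/
def S_zo : Prop := ∀ (d : ℕ) (M : Mod d) (p : unitInterval), 1 ≤ d → 0 < th M p →
  ∀ ε : ℝ, 0 < ε → ∃ k : ℕ, 1 - ε ≤ (mu M p).real {ω | ∃ x ∈ Bo (0 : Z d) k, ω ∈ Perc M x}

/-- FKG: the two-point function is bounded from below (by Harris and uniqueness of the infinite
cluster, which follows from `S_two`). -/
def S_fkg : Prop := ∀ (d : ℕ) (M : Mod d) (p : unitInterval) (v : Z d), 0 < p →
  th M p ^ 2 ≤ (mu M p).real (Cn M univ 0 v)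

end

end Pool.Agent.Y990.CB
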