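import Pool.Agent.Y990.CB.PartA

set_option autoImplicit false

open MeasureTheory Set

/-!
Statements of the second half of the project CB: polynomial bounds for boxes of polynomial size.
-/

namespace Pool.Agent.Y990.CB

open Pool.Agent.W783.PC (pm DepOn Inc)

noncomputable section

/-- A property shared by site and bond percolation: if the vertex `a'` has an open edge and the
edge `a'b'` is not open, then the coordinates which `a'b'` shares with edges avoiding `a'` are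
closed. -/
def Qm {d : ℕ} (M : Mod d) : Prop := ∀ (ω : M.ι → Bool) (a' b' e a b : Z d) (c : M.ι),
  (∀ c' ∈ M.nd a' e, ω c' = true) → ¬ (∀ c' ∈ M.nd a' b', ω c' = true) → c ∈ M.nd a' b' →
  c ∈ M.nd a b → a ≠ a' → b ≠ a' → ω c = false

/-- Vertices of the frame as a finite set. -/
def Ff {d : ℕ} (z : Z d) (L : ℕ) : Finset (Z d) := by
  classical exact (Bf z L).filter (fun x => x ∈ Fr z L)

/-- SIM: if the expected number of vertices of the frame connected to the centre is small, there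
is no percolation. -/
def S_sim : Prop := ∀ (d : ℕ) (M : Mod d) (p : unitInterval) (n : ℕ), Nd M →
  2 * d * ∑ x ∈ Ff (0 : Z d) n, (mu M p).real (Cn M (Bo 0 n) 0 x) < 1 → th M p = 0

/-- PHI: at the critical point the expected number of vertices of the frame connected to the
centre is bounded from below. -/
def S_phi : Prop := ∀ (d : ℕ) (M : Mod d) (n : ℕ), 1 ≤ d → Nd M →
  1 ≤ 2 * d * ∑ x ∈ Ff (0 : Z d) n, (mu M (pc M)).real (Cn M (Bo 0 n) 0 x)

/-- TAU: polynomial lower bound for connections inside boxes at the critical point. -/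
def S_tau : Prop := ∀ (d : ℕ) (M : Mod d), 1 ≤ d → Nd M → 0 < pc M ∧ ∃ c : ℝ, 0 < c ∧
  ∀ (n : ℕ) (z x y : Z d), 1 ≤ n → x ∈ Bo z n → y ∈ Bo z n →
    c / (n : ℝ) ^ (2 * d ^ 2) ≤ (mu M (pc M)).real (Cn M (Bo z (4 * n)) x y)

/-- Two distinct clusters of the box of radius `L` with at least `m` vertices. -/
def Ev {d : ℕ} (M : Mod d) (L m : ℕ) (x y : Z d) : Set (M.ι → Bool) :=
  {ω | m ≤ (cl M ω (Bo 0 L) x).ncard ∧ m ≤ (cl M ω (Bo 0 L) y).ncard ∧
    y ∉ cl M ω (Bo 0 L) x}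

/-- The clusters of `x` and `y` are in contact inside `D`. -/
def Kt {d : ℕ} (M : Mod d) (L : ℕ) (D : Set (Z d)) (x y : Z d) : Set (M.ι → Bool) :=
  {ω | ∃ a ∈ D, ∃ b ∈ D, ∃ a' ∈ Bo (0 : Z d) L, ∃ b' ∈ Bo (0 : Z d) L, Nb a b ∧ Nb a' b' ∧
    (∃ c ∈ M.nd a b, c ∈ M.nd a' b') ∧ a ∈ cl M ω (Bo 0 L) y ∧ a' ∈ cl M ω (Bo 0 L) x}

/-- CTC: two distinct clusters are in contact with reasonable probability. -/
def S_ctc : Prop := ∀ (d : ℕ) (M : Mod d) (p : unitInterval) (L m : ℕ) (D : Set (Z d))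
  (x y : Z d), Nd M → Qm M → 2 ≤ m → D ⊆ Bo 0 L → x ∈ D → y ∈ D →
  (mu M p).real (Ev M L m x y) * (mu M p).real (Cn M D x y) ≤
    (mu M p).real (Ev M L m x y ∩ Kt M L D x y)

/-- BOX2: pairs of vertices in distinct large clusters of a box. -/
def S_box2 : Prop := ∀ (d : ℕ) (M : Mod d) (p : unitInterval), Nd M → Qm M → 0 < p →
  ∃ C : ℝ, 1 ≤ C ∧ ∀ (L m n Q : ℕ) (τ : ℝ), 2 ≤ m → Q + 4 * n + 1 ≤ L → 0 < τ →
  (∀ u ∈ Bf (0 : Z d) Q, ∀ x ∈ Bf u n, ∀ y ∈ Bf u n, τ ≤ (mu M p).real (Cn M (Bo u (4 * n)) x y)) →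
  ∑ u ∈ Bf (0 : Z d) Q, ∑ x ∈ Bf u n, ∑ y ∈ Bf u n, (mu M p).real (Ev M L m x y) ≤
    C / τ * ((n : ℝ) + 1) ^ (3 * d) * ((2 * L + 1 : ℕ) : ℝ) ^ d / √m

/-- TWO2: at the critical point, two distinct crossing clusters are unlikely also for boxes of
polynomial size. -/
def S_two2 : Prop := ∀ (d : ℕ) (M : Mod d), 1 ≤ d → Nd M → Qm M → ∃ C : ℝ, 1 ≤ C ∧
  ∀ (z : Z d) (k L : ℕ), 1 ≤ L →
    (mu M (pc M)).real (Ta M z k L) ≤ C * ((k : ℝ) + 1) ^ (2 * d ^ 2 + 3 * d) / √L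

end

end Pool.Agent.Y990.CB
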